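import Mathlib

set_option autoImplicit false
open MeasureTheory Set Filter Topology Metric
open scoped Pointwise ENNReal

namespace Pool.Agent.MP_be97b2_co

section general

variable (E : Type*) [NormedAddCommGroup E] [InnerProductSpace ℝ E] [MeasurableSpace E]
  [BorelSpace E] [FiniteDimensional ℝ E] [Nontrivial E]

/-- normalised surface measure, as a measure on the ambient space -/
noncomputable def sphP : Measure E :=
  ((volume : Measure E).toSphere univ)⁻¹ • ((volume : Measure E).toSphere.map Subtype.val)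

variable {E}

omit [Nontrivial E] in
lemma sphP_apply {A : Set E} (hA : MeasurableSet A) :
    sphP E A = ((volume : Measure E).toSphere univ)⁻¹ *
      (volume : Measure E).toSphere (Subtype.val ⁻¹' A) := by
  rw [sphP, Measure.smul_apply, Measure.map_apply measurable_subtype_coe hA, smul_eq_mul]

lemma toSphere_univ_ne_zero : (volume : Measure E).toSphere univ ≠ 0 := by
  rw [Ne, Measure.measure_univ_eq_zero]
  exact Measure.toSphere_ne_zero _

omit [Nontrivial E] in
lemma toSphere_univ_ne_top : (volume : Measure E).toSphere univ ≠ ⊤ := measure_ne_top _ _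

instance : IsProbabilityMeasure (sphP E) := ⟨by
  rw [sphP_apply MeasurableSet.univ, preimage_univ]
  exact ENNReal.inv_mul_cancel toSphere_univ_ne_zero toSphere_univ_ne_top⟩

omit [Nontrivial E] in
lemma sphP_norm : ∀ᵐ x ∂(sphP E), ‖x‖ = 1 := by
  rw [ae_iff]
  have hm : MeasurableSet {x : E | ¬ ‖x‖ = 1} :=
    (measurableSet_eq_fun measurable_norm measurable_const).compl
  rw [sphP_apply hm]
  have : (Subtype.val ⁻¹' {x : E | ¬ ‖x‖ = 1} : Set (sphere (0:E) 1)) = ∅ := by
    ext x
    simp
  rw [this, measure_empty, mul_zero]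

omit [Nontrivial E] in
/-- a set which is stable under multiplication by positive reals and has volume zero is null. -/
lemma sphP_null {S : Set E} (hS : MeasurableSet S) (hc : ∀ t : ℝ, 0 < t → ∀ x ∈ S, t • x ∈ S)
    (h0 : (volume : Measure E) S = 0) : sphP E S = 0 := by
  rw [sphP_apply hS, Measure.toSphere_apply' _ (measurable_subtype_coe hS)]
  have hsub : Ioo (0:ℝ) 1 • (Subtype.val '' (Subtype.val ⁻¹' S : Set (sphere (0:E) 1))) ⊆ S := by
    rintro _ ⟨t, ht, _, ⟨x, hx, rfl⟩, rfl⟩
    exact hc t ht.1 _ hx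
  have : (volume : Measure E)
      (Ioo (0:ℝ) 1 • (Subtype.val '' (Subtype.val ⁻¹' S : Set (sphere (0:E) 1)))) = 0 :=
    le_antisymm ((measure_mono hsub).trans h0.le) bot_le
  rw [this, mul_zero, mul_zero]

omit [Nontrivial E] in
lemma sphP_submodule_null (s : Submodule ℝ E) (hs : s ≠ ⊤) : sphP E (s : Set E) = 0 := by
  refine sphP_null (Submodule.closed_of_finiteDimensional s).measurableSet
    (fun t _ x hx => s.smul_mem t hx) (Measure.addHaar_submodule _ s hs)

omit [Nontrivial E] in
/-- invariance under linear isometries -/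
lemma sphP_invariant (g : E ≃ₗᵢ[ℝ] E) : MeasurePreserving g (sphP E) (sphP E) := by
  refine ⟨g.continuous.measurable, ?_⟩
  ext A hA
  have hgA : MeasurableSet (g ⁻¹' A) := g.continuous.measurable hA
  rw [Measure.map_apply g.continuous.measurable hA, sphP_apply hA, sphP_apply hgA,
    Measure.toSphere_apply' _ (measurable_subtype_coe hA),
    Measure.toSphere_apply' _ (measurable_subtype_coe hgA)]
  have hset : Ioo (0:ℝ) 1 • (Subtype.val '' (Subtype.val ⁻¹' (g ⁻¹' A) : Set (sphere (0:E) 1))) =
      g ⁻¹' (Ioo (0:ℝ) 1 • (Subtype.val '' (Subtype.val ⁻¹' A : Set (sphere (0:E) 1)))) := by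
    ext x
    constructor
    · rintro ⟨t, ht, _, ⟨y, hy, rfl⟩, rfl⟩
      refine ⟨t, ht, g y, ⟨⟨g y, ?_⟩, hy, rfl⟩, ?_⟩
      · simp
      · simp
    · rintro ⟨t, ht, _, ⟨y, hy, rfl⟩, hx⟩
      refine ⟨t, ht, g.symm y, ⟨⟨g.symm y, ?_⟩, ?_, rfl⟩, ?_⟩
      · simp
      · simpa using hy
      · simp only at hx ⊢
        rw [← g.symm.map_smul, hx]
        simp
  rw [hset]
  have := g.measurePreserving.measure_preimage_emb
    (g.toHomeomorph.measurableEmbedding)
    (Ioo (0:ℝ) 1 • (Subtype.val '' (Subtype.val ⁻¹' A : Set (sphere (0:E) 1))))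
  have h2 : (volume : Measure E)
      (g ⁻¹' (Ioo (0:ℝ) 1 • (Subtype.val '' (Subtype.val ⁻¹' A : Set (sphere (0:E) 1))))) =
      (volume : Measure E)
        (Ioo (0:ℝ) 1 • (Subtype.val '' (Subtype.val ⁻¹' A : Set (sphere (0:E) 1)))) := this
  rw [h2]

end general

end Pool.Agent.MP_be97b2_co
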