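import Pool.Agent.Lib.MP_be97b2_co.Threshold

section

set_option autoImplicit false
open MeasureTheory Set Filter Topology

namespace Pool.Agent.MP_be97b2_co

section partition

variable {X : Type*} [MetricSpace X] [SecondCountableTopology X] [Nonempty X] [MeasurableSpace X]
  [BorelSpace X]

/-- a countable measurable partition into small pieces with centers -/
lemma exists_partition (δ : ℝ) (hδ : 0 < δ) :
    ∃ ρ : X → ℕ, Measurable ρ ∧ ∃ c : ℕ → X, ∀ x, dist x (c (ρ x)) < δ := by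
  classical
  have h : ∀ x : X, ∃ n, dist x (TopologicalSpace.denseSeq X n) < δ := by
    intro x
    exact (TopologicalSpace.denseRange_denseSeq X).exists_dist_lt x hδ
  refine ⟨fun x => Nat.find (h x), ?_, TopologicalSpace.denseSeq X, fun x => Nat.find_spec (h x)⟩
  refine measurable_find h fun k => ?_
  exact measurableSet_lt (measurable_id.dist measurable_const) measurable_const

end partition

variable {X : Type*} [MetricSpace X] [ProperSpace X] [Nonempty X] [MeasurableSpace X] [BorelSpace X]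

omit [MetricSpace X] [ProperSpace X] [Nonempty X] [BorelSpace X] in
lemma integrable_of_bdd (P : Measure X) [IsFiniteMeasure P] {h : X → ℝ} (hm : Measurable h)
    {M : ℝ} (hb : ∀ x, |h x| ≤ M) : Integrable h P :=
  Integrable.of_bound hm.aestronglyMeasurable M (ae_of_all _ fun x => by simpa using hb x)

/-- for finitely many bounded functions there is a two-colouring of mean `f` whose noise is nearly
orthogonal (on each cell of a given partition) to all isometric images of these functions. -/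
lemma exists_fine (P : Measure X) [IsProbabilityMeasure P] (T : X → ℝ) (hT : Measurable T)
    (hT0 : ∀ t, P (T ⁻¹' {t}) = 0) (f : X → ℝ) (hf : Measurable f) (hf1 : ∀ x, |f x| ≤ 1)
    (κ : X → ℕ) (hκ : Measurable κ) (S : Finset (X → ℝ)) (M : ℝ)
    (hS : ∀ a ∈ S, Measurable a ∧ ∀ x, |a x| ≤ M) (η : ℝ) (hη : 0 < η) :
    ∃ B : Set X, MeasurableSet B ∧ ∀ a ∈ S, ∀ k, ∀ g : X → X, Isometry g → MeasurePreserving g P P →
      |∫ x in κ ⁻¹' {k}, a (g x) * (sgn B x - f x) ∂P| ≤ η := by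
  classical
  -- uniform modulus
  have key : ∀ a ∈ S, ∀ᶠ δ : ℝ in 𝓝[>] 0, ∃ φ : X → ℝ, Continuous φ ∧ (∃ K, ∀ x, |φ x| ≤ K) ∧
      (∫ x, |a x - φ x| ∂P) ≤ η / 4 ∧ ∀ x y, dist x y < δ → |φ x - φ y| ≤ η / 8 := by
    intro a ha
    have hai : Integrable a P := integrable_of_bdd P (hS a ha).1 (hS a ha).2
    obtain ⟨φ, hφs, hφ1, hφc, hφi⟩ := hai.exists_hasCompactSupport_integral_sub_le
      (ε := η / 4) (by positivity)
    have huc : UniformContinuous φ := hφs.uniformContinuous_of_continuous hφc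
    obtain ⟨δ, hδ, hδ'⟩ := Metric.uniformContinuous_iff.1 huc (η / 8) (by positivity)
    have hbd : ∃ K, ∀ x, |φ x| ≤ K := by
      obtain ⟨K, hK⟩ := hφc.bounded_above_of_compact_support hφs
      exact ⟨K, fun x => by simpa using hK x⟩
    have : ∀ᶠ δ' : ℝ in 𝓝[>] 0, δ' < δ := by
      exact (Ioo_mem_nhdsGT hδ : Ioo 0 δ ∈ 𝓝[>] (0:ℝ)) |> fun h => by
        filter_upwards [h] with x hx using hx.2
    filter_upwards [this] with δ' hδ1
    refine ⟨φ, hφc, hbd, by simpa using hφ1, fun x y hxy => ?_⟩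
    have := hδ' (hxy.trans hδ1)
    rw [Real.dist_eq] at this
    exact this.le
  have key2 : ∀ᶠ δ : ℝ in 𝓝[>] 0, ∀ a ∈ S, ∃ φ : X → ℝ, Continuous φ ∧ (∃ K, ∀ x, |φ x| ≤ K) ∧
      (∫ x, |a x - φ x| ∂P) ≤ η / 4 ∧ ∀ x y, dist x y < δ → |φ x - φ y| ≤ η / 8 :=
    (Filter.eventually_all_finset S).2 key
  have hpos : ∀ᶠ δ : ℝ in 𝓝[>] 0, 0 < δ := by
    filter_upwards [self_mem_nhdsWithin] with x hx using hx
  obtain ⟨δ, hδ, hδ0⟩ := (key2.and hpos).exists
  obtain ⟨ρ, hρ, c, hc⟩ := exists_partition (X := X) δ hδ0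
  obtain ⟨B, hB, hB0⟩ := exists_sgn_cells P T hT hT0 f hf hf1 (fun x => Nat.pair (κ x) (ρ x))
    (by exact (measurable_of_countable (fun p : ℕ × ℕ => Nat.pair p.1 p.2)).comp (hκ.prodMk hρ))
  refine ⟨B, hB, fun a ha k g hg hgP => ?_⟩
  obtain ⟨φ, hφc, ⟨K, hK⟩, hφ1, hφ2⟩ := hδ a ha
  have hgm : Measurable g := hgP.measurable
  set D : X → ℝ := fun x => sgn B x - f x with hD
  have hDm : Measurable D := (measurable_sgn hB).sub hf
  have hD2 : ∀ x, |D x| ≤ 2 := fun x => by
    calc |D x| ≤ |sgn B x| + |f x| := abs_sub _ _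
      _ ≤ 1 + 1 := add_le_add (abs_sgn B x).le (hf1 x)
      _ = 2 := by norm_num
  have hC : MeasurableSet (κ ⁻¹' {k}) := hκ (measurableSet_singleton k)
  set ψ : X → ℝ := fun x => φ (g (c (ρ x))) with hψ
  have hψm : Measurable ψ :=
    (measurable_of_countable (fun n : ℕ => φ (g (c n)))).comp hρ
  have hψK : ∀ x, |ψ x| ≤ K := fun x => hK _
  -- integral against the step function vanishes
  have hzero : ∫ x in κ ⁻¹' {k}, ψ x * D x ∂P = 0 := by
    have hU : κ ⁻¹' {k} = ⋃ n, (κ ⁻¹' {k} ∩ ρ ⁻¹' {n}) := by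
      rw [← inter_iUnion]
      have : (⋃ n, ρ ⁻¹' {n}) = univ := by
        ext x; simp
      rw [this, inter_univ]
    have hint : Integrable (fun x => ψ x * D x) P :=
      integrable_of_bdd P (hψm.mul hDm) (M := K * 2) fun x => by
        rw [abs_mul]
        exact mul_le_mul (hψK x) (hD2 x) (abs_nonneg _) ((abs_nonneg _).trans (hψK x))
    rw [hU, integral_iUnion (fun n => hC.inter (hρ (measurableSet_singleton n))) ?_
      hint.integrableOn]
    · have : ∀ n, ∫ x in κ ⁻¹' {k} ∩ ρ ⁻¹' {n}, ψ x * D x ∂P = 0 := by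
        intro n
        have h1 : ∫ x in κ ⁻¹' {k} ∩ ρ ⁻¹' {n}, ψ x * D x ∂P =
            ∫ x in κ ⁻¹' {k} ∩ ρ ⁻¹' {n}, φ (g (c n)) * D x ∂P := by
          refine setIntegral_congr_fun (hC.inter (hρ (measurableSet_singleton n))) ?_
          intro x hx
          have : ρ x = n := hx.2
          simp only [hψ, this]
        rw [h1, integral_const_mul]
        have h2 : κ ⁻¹' {k} ∩ ρ ⁻¹' {n} = (fun x => Nat.pair (κ x) (ρ x)) ⁻¹' {Nat.pair k n} := by
          ext x
          simp [Nat.pair_eq_pair]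
        rw [h2, hB0, mul_zero]
      simp [this]
    · intro m n hmn
      refine Disjoint.mono inter_subset_right inter_subset_right ?_
      rw [Set.disjoint_left]
      intro x hx hx'
      exact hmn (hx.symm.trans hx')
  have ha1 := (hS a ha).1
  have hφm : Measurable φ := hφc.measurable
  have hi1 : Integrable (fun x => a (g x) * D x) P :=
    integrable_of_bdd P ((ha1.comp hgm).mul hDm) (M := M * 2) fun x => by
      rw [abs_mul]
      exact mul_le_mul ((hS a ha).2 _) (hD2 x) (abs_nonneg _)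
        ((abs_nonneg _).trans ((hS a ha).2 (g x)))
  have hi2 : Integrable (fun x => φ (g x) * D x) P :=
    integrable_of_bdd P ((hφm.comp hgm).mul hDm) (M := K * 2) fun x => by
      rw [abs_mul]
      exact mul_le_mul (hK _) (hD2 x) (abs_nonneg _) ((abs_nonneg _).trans (hK (g x)))
  have hi3 : Integrable (fun x => ψ x * D x) P :=
    integrable_of_bdd P (hψm.mul hDm) (M := K * 2) fun x => by
      rw [abs_mul]
      exact mul_le_mul (hψK x) (hD2 x) (abs_nonneg _) ((abs_nonneg _).trans (hψK x))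
  have hsplit : ∫ x in κ ⁻¹' {k}, a (g x) * D x ∂P =
      ∫ x in κ ⁻¹' {k}, (a (g x) - φ (g x)) * D x ∂P +
      ∫ x in κ ⁻¹' {k}, (φ (g x) - ψ x) * D x ∂P := by
    rw [← add_zero (∫ x in κ ⁻¹' {k}, a (g x) * D x ∂P), ← integral_add]
    · rw [← sub_eq_zero, add_zero, ← integral_sub, ← hzero]
      · refine integral_congr_ae (ae_of_all _ fun x => ?_)
        simp only
        ring
      · exact hi1.integrableOn
      · refine Integrable.add ?_ ?_
        · have := (hi1.sub hi2).integrableOn (s := κ ⁻¹' {k})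
          refine this.congr (ae_of_all _ fun x => ?_)
          simp only [Pi.sub_apply]; ring
        · have := (hi2.sub hi3).integrableOn (s := κ ⁻¹' {k})
          refine this.congr (ae_of_all _ fun x => ?_)
          simp only [Pi.sub_apply]; ring
    · have := (hi1.sub hi2).integrableOn (s := κ ⁻¹' {k})
      refine this.congr (ae_of_all _ fun x => ?_)
      simp only [Pi.sub_apply]; ring
    · have := (hi2.sub hi3).integrableOn (s := κ ⁻¹' {k})
      refine this.congr (ae_of_all _ fun x => ?_)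
      simp only [Pi.sub_apply]; ring
  rw [hsplit]
  have haφ : Integrable (fun x => |a x - φ x|) P :=
    integrable_of_bdd P ((ha1.sub hφm).abs) (M := M + K) fun x => by
      rw [abs_abs]
      exact (abs_sub _ _).trans (add_le_add ((hS a ha).2 x) (hK x))
  have hb1 : |∫ x in κ ⁻¹' {k}, (a (g x) - φ (g x)) * D x ∂P| ≤ η / 2 := by
    calc |∫ x in κ ⁻¹' {k}, (a (g x) - φ (g x)) * D x ∂P|
        ≤ ∫ x in κ ⁻¹' {k}, |(a (g x) - φ (g x)) * D x| ∂P := abs_integral_le_integral_abs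
      _ ≤ ∫ x, |(a (g x) - φ (g x)) * D x| ∂P := by
          refine setIntegral_le_integral ?_ (ae_of_all _ fun x => abs_nonneg _)
          have := (hi1.sub hi2).abs
          refine this.congr (ae_of_all _ fun x => ?_)
          simp only [Pi.sub_apply]; congr 1; ring
      _ ≤ ∫ x, 2 * |a (g x) - φ (g x)| ∂P := by
          refine integral_mono_of_nonneg (ae_of_all _ fun x => abs_nonneg _) ?_
            (ae_of_all _ fun x => ?_)
          · exact ((hgP.integrable_comp_of_integrable haφ)).const_mul 2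
          · simp only
            rw [abs_mul, mul_comm]
            exact mul_le_mul_of_nonneg_right (hD2 x) (abs_nonneg _)
      _ = 2 * ∫ x, |a x - φ x| ∂P := by
          rw [integral_const_mul]
          congr 1
          have := integral_map (μ := P) (φ := g) hgm.aemeasurable (f := fun x => |a x - φ x|)
            ((ha1.sub hφm).abs.aestronglyMeasurable)
          rw [hgP.map_eq] at this
          exact this.symm
      _ ≤ 2 * (η / 4) := by linarith
      _ = η / 2 := by ring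
  have hb2 : |∫ x in κ ⁻¹' {k}, (φ (g x) - ψ x) * D x ∂P| ≤ η / 4 := by
    have := norm_setIntegral_le_of_norm_le_const (μ := P) (s := κ ⁻¹' {k})
      (f := fun x => (φ (g x) - ψ x) * D x) (C := η / 8 * 2) (measure_lt_top _ _) (fun x _ => by
        rw [Real.norm_eq_abs, abs_mul]
        refine mul_le_mul ?_ (hD2 x) (abs_nonneg _) (by positivity)
        refine hφ2 _ _ ?_
        rw [hg.dist_eq]
        exact hc x)
    rw [Real.norm_eq_abs] at this
    refine this.trans ?_
    have h1 : P.real (κ ⁻¹' {k}) ≤ 1 := measureReal_le_one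
    nlinarith [measureReal_nonneg (μ := P) (s := κ ⁻¹' {k})]
  calc _ ≤ |∫ x in κ ⁻¹' {k}, (a (g x) - φ (g x)) * D x ∂P| +
        |∫ x in κ ⁻¹' {k}, (φ (g x) - ψ x) * D x ∂P| := abs_add_le _ _
    _ ≤ η / 2 + η / 4 := add_le_add hb1 hb2
    _ ≤ η := by linarith

end Pool.Agent.MP_be97b2_co
end

section

set_option autoImplicit false
open MeasureTheory Set Filter Topology

namespace Pool.Agent.MP_be97b2_co

variable {X : Type*} [MetricSpace X] [ProperSpace X] [Nonempty X] [MeasurableSpace X] [BorelSpace X]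

/-- For a mean density `f`, there is a two-colouring `B` whose autocorrelations under all
measure preserving isometric involutions of the class `H` are close to those of `f`. -/
theorem exists_coloring (P : Measure X) [IsProbabilityMeasure P] (T : X → ℝ) (hT : Measurable T)
    (hT0 : ∀ t, P (T ⁻¹' {t}) = 0) (f : X → ℝ) (hf : Measurable f) (hf1 : ∀ x, |f x| ≤ 1)
    (H : Set (X → X))
    (hH : ∀ g ∈ H, Isometry g ∧ MeasurePreserving g P P ∧ ∀ x, g (g x) = x)
    (hsmall : ∀ η : ℝ, 0 < η → ∃ ε : ℝ, 0 < ε ∧ ∀ g ∈ H, P.real {x | dist x (g x) < ε} ≤ η)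
    (η : ℝ) (hη : 0 < η) :
    ∃ B : Set X, MeasurableSet B ∧ |∫ x, (sgn B x - f x) ∂P| ≤ η ∧
      ∀ g ∈ H, |∫ x, sgn B x * sgn B (g x) ∂P - ∫ x, f x * f (g x) ∂P| ≤ η := by
  classical
  obtain ⟨ε, hε, hεH⟩ := hsmall (η / 16) (by positivity)
  obtain ⟨ρ, hρ, c, hc⟩ := exists_partition (X := X) (ε / 2) (by positivity)
  have hρd : ∀ x y, ρ x = ρ y → dist x y < ε := by
    intro x y h
    calc dist x y ≤ dist x (c (ρ x)) + dist y (c (ρ x)) := dist_triangle_right _ _ _
      _ < ε / 2 + ε / 2 := add_lt_add (hc x) (by rw [h]; exact hc y)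
      _ = ε := by ring
  -- truncation
  obtain ⟨N, hN⟩ : ∃ N : ℕ, P.real {x | N ≤ ρ x} ≤ η / 16 := by
    have h0 : Tendsto (fun n : ℕ => P {x | n ≤ ρ x}) atTop (𝓝 (P (⋂ n : ℕ, {x | n ≤ ρ x}))) :=
      tendsto_measure_iInter_atTop
        (fun n => (hρ (measurableSet_Ici : MeasurableSet (Ici n))).nullMeasurableSet)
        (fun a b h x hx => le_trans h hx) ⟨0, measure_ne_top _ _⟩
    have e : (⋂ n : ℕ, {x | n ≤ ρ x}) = (∅ : Set X) := by
      ext x
      simp only [mem_iInter, mem_empty_iff_false, iff_false, not_forall]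
      exact ⟨ρ x + 1, fun h => absurd (show ρ x + 1 ≤ ρ x from h) (by omega)⟩
    rw [e, measure_empty] at h0
    have h := (ENNReal.tendsto_toReal (a := 0) (by simp)).comp h0
    have h' : Tendsto (fun n : ℕ => P.real {x | n ≤ ρ x}) atTop (𝓝 0) := by
      simpa [measureReal_def, Function.comp_def] using h
    obtain ⟨N, hN⟩ := (h'.eventually (gt_mem_nhds (show (0:ℝ) < η / 16 by positivity))).exists
    exact ⟨N, hN.le⟩
  set κ : X → ℕ := fun x => min (ρ x) N with hκdef
  have hκ : Measurable κ := hρ.min measurable_const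
  have hκN : ∀ x, κ x < N + 1 := fun x => Nat.lt_succ_of_le (min_le_right _ _)
  have hoverlap : ∀ g ∈ H, P.real {x | κ x = κ (g x)} ≤ η / 8 := by
    intro g hg
    have hsub : {x | κ x = κ (g x)} ⊆ {x | dist x (g x) < ε} ∪ {x | N ≤ ρ x} := by
      intro x hx
      have hx' : min (ρ x) N = min (ρ (g x)) N := hx
      rcases lt_or_ge (ρ x) N with h | h
      · left
        refine hρd _ _ ?_
        omega
      · right; exact h
    calc P.real {x | κ x = κ (g x)} ≤ P.real ({x | dist x (g x) < ε} ∪ {x | N ≤ ρ x}) :=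
          measureReal_mono hsub (measure_ne_top _ _)
      _ ≤ P.real {x | dist x (g x) < ε} + P.real {x | N ≤ ρ x} := measureReal_union_le _ _
      _ ≤ η / 16 + η / 16 := add_le_add (hεH g hg) hN
      _ = η / 8 := by ring
  set η' : ℝ := η / (6 * ((N : ℝ) + 1) ^ 2) with hη'
  have hN1 : (1:ℝ) ≤ (N:ℝ) + 1 := by
    have : (0:ℝ) ≤ N := Nat.cast_nonneg N
    linarith
  have hη'0 : 0 < η' := by positivity
  have hη'1 : ((N:ℝ) + 1) * η' ≤ η / 6 := by
    rw [hη', mul_div_assoc', div_le_div_iff₀ (by positivity) (by norm_num)]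
    nlinarith [mul_pos hη (lt_of_lt_of_le one_pos hN1)]
  have hη'2 : ((N:ℝ) + 1) ^ 2 * η' = η / 6 := by
    rw [hη']
    field_simp
  -- noise part
  let D : Set X → ℕ → X → ℝ := fun B k => (κ ⁻¹' {k}).indicator fun x => sgn B x - f x
  have hC : ∀ k, MeasurableSet (κ ⁻¹' {k}) := fun k => hκ (measurableSet_singleton k)
  have hDm : ∀ B, MeasurableSet B → ∀ k, Measurable (D B k) := fun B hB k =>
    ((measurable_sgn hB).sub hf).indicator (hC k)
  have hsf : ∀ B x, |sgn B x - f x| ≤ 2 := fun B x => by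
    calc |sgn B x - f x| ≤ |sgn B x| + |f x| := abs_sub _ _
      _ ≤ 1 + 1 := add_le_add (abs_sgn B x).le (hf1 x)
      _ = 2 := by norm_num
  have hDb : ∀ B k x, |D B k x| ≤ 2 := by
    intro B k x
    by_cases hx : x ∈ κ ⁻¹' {k}
    · simp only [D, indicator_of_mem hx]; exact hsf B x
    · simp only [D, indicator_of_notMem hx]; norm_num
  obtain ⟨Bs, hBs1, hBs2⟩ := exists_seq_of_forall_finset_exists
    (P := fun B : Set X => MeasurableSet B ∧ (∀ k, |∫ x in κ ⁻¹' {k}, (sgn B x - f x) ∂P| ≤ η') ∧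
      ∀ k, ∀ g ∈ H, |∫ x in κ ⁻¹' {k}, f (g x) * (sgn B x - f x) ∂P| ≤ η')
    (r := fun B B' : Set X => ∀ k < N + 1, ∀ l, ∀ g ∈ H,
      |∫ x in κ ⁻¹' {l}, D B k (g x) * (sgn B' x - f x) ∂P| ≤ η') (by
    intro s hs
    set S : Finset (X → ℝ) := {(fun _ => (1:ℝ)), f} ∪
      (s ×ˢ Finset.range (N + 1)).image (fun p => D p.1 p.2) with hSdef
    obtain ⟨B, hB, hB'⟩ := exists_fine P T hT hT0 f hf hf1 κ hκ S 2 (by
      intro a ha
      rw [hSdef, Finset.mem_union, Finset.mem_insert, Finset.mem_singleton, Finset.mem_image] at ha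
      rcases ha with (rfl | rfl) | ⟨p, hp, rfl⟩
      · exact ⟨measurable_const, fun x => by norm_num⟩
      · exact ⟨hf, fun x => (hf1 x).trans (by norm_num)⟩
      · exact ⟨hDm _ (hs _ (Finset.mem_product.1 hp).1).1 _, hDb _ _⟩) η' hη'0
    refine ⟨B, ⟨hB, fun k => ?_, fun k g hg => ?_⟩, fun B1 hB1 k hk l g hg => ?_⟩
    · have := hB' (fun _ => (1:ℝ)) (by simp [hSdef]) k id isometry_id (MeasurePreserving.id P)
      simpa using this
    · exact hB' f (by simp [hSdef]) k g (hH g hg).1 (hH g hg).2.1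
    · refine hB' (D B1 k) ?_ l g (hH g hg).1 (hH g hg).2.1
      rw [hSdef, Finset.mem_union]
      right
      exact Finset.mem_image.2 ⟨(B1, k), Finset.mem_product.2 ⟨hB1, Finset.mem_range.2 hk⟩, rfl⟩)
  -- final colouring
  set B : Set X := ⋃ k, (κ ⁻¹' {k} ∩ Bs k) with hBdef
  have hB : MeasurableSet B := MeasurableSet.iUnion fun k => (hC k).inter (hBs1 k).1
  have hBk : ∀ k x, x ∈ κ ⁻¹' {k} → sgn B x = sgn (Bs k) x := by
    intro k x hx
    have hx' : κ x = k := hx
    have : (x ∈ B) ↔ x ∈ Bs k := by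
      simp only [hBdef, mem_iUnion, mem_inter_iff, mem_preimage, mem_singleton_iff]
      constructor
      · rintro ⟨m, hm, hxm⟩
        rw [hx'] at hm; rw [hm]; exact hxm
      · intro h
        exact ⟨k, hx', h⟩
    by_cases h : x ∈ Bs k
    · rw [sgn_mem h, sgn_mem (this.2 h)]
    · rw [sgn_not_mem h, sgn_not_mem (fun h' => h (this.1 h'))]
  set E : X → ℝ := fun x => sgn B x - f x with hE
  have hEm : Measurable E := (measurable_sgn hB).sub hf
  have hEb : ∀ x, |E x| ≤ 2 := hsf B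
  let Dk : ℕ → X → ℝ := fun k => D (Bs k) k
  have hDkm : ∀ k, Measurable (Dk k) := fun k => hDm _ (hBs1 k).1 k
  have hDkb : ∀ k x, |Dk k x| ≤ 2 := fun k x => hDb _ _ _
  have hsum : ∀ x, E x = ∑ k ∈ Finset.range (N + 1), Dk k x := by
    intro x
    rw [Finset.sum_eq_single (κ x)]
    · have hx : x ∈ κ ⁻¹' {κ x} := rfl
      simp only [Dk, D, indicator_of_mem hx, hE]
      rw [hBk _ _ hx]
    · intro k _ hk
      have hx : x ∉ κ ⁻¹' {k} := fun h => hk h.symm
      simp only [Dk, D, indicator_of_notMem hx]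
    · intro h
      exact absurd (Finset.mem_range.2 (hκN x)) h
  refine ⟨B, hB, ?_, fun g hg => ?_⟩
  · -- mean
    have h1 : ∫ x, E x ∂P = ∑ k ∈ Finset.range (N + 1), ∫ x, Dk k x ∂P := by
      simp_rw [hsum]
      exact integral_finsetSum _ fun k _ => integrable_of_bdd P (hDkm k) (hDkb k)
    have h2 : ∀ k, |∫ x, Dk k x ∂P| ≤ η' := by
      intro k
      have : ∫ x, Dk k x ∂P = ∫ x in κ ⁻¹' {k}, (sgn (Bs k) x - f x) ∂P := by
        simp only [Dk, D]
        rw [integral_indicator (hC k)]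
      rw [this]
      exact (hBs1 k).2.1 k
    calc |∫ x, E x ∂P| = |∑ k ∈ Finset.range (N + 1), ∫ x, Dk k x ∂P| := by rw [h1]
      _ ≤ ∑ k ∈ Finset.range (N + 1), |∫ x, Dk k x ∂P| := Finset.abs_sum_le_sum_abs _ _
      _ ≤ ∑ k ∈ Finset.range (N + 1), η' := Finset.sum_le_sum fun k _ => h2 k
      _ = ((N:ℝ) + 1) * η' := by simp
      _ ≤ η / 6 := hη'1
      _ ≤ η := by linarith
  · obtain ⟨hgi, hgP, hgg⟩ := hH g hg
    have hgm : Measurable g := hgP.measurable
    have hfb : ∀ x, |f x| ≤ 2 := fun x => (hf1 x).trans (by norm_num)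
    have hprod : ∀ u v : X → ℝ, Measurable u → Measurable v → (∀ x, |u x| ≤ 2) →
        (∀ x, |v x| ≤ 2) → Integrable (fun x => u x * v x) P := by
      intro u v hu hv hub hvb
      refine integrable_of_bdd P (hu.mul hv) (M := 2 * 2) fun x => ?_
      rw [abs_mul]
      exact mul_le_mul (hub x) (hvb x) (abs_nonneg _) (by norm_num)
    have hmp : ∀ h : X → ℝ, Measurable h → ∫ x, h (g x) ∂P = ∫ x, h x ∂P := by
      intro h hh
      have := integral_map (μ := P) (φ := g) hgm.aemeasurable (f := h) hh.aestronglyMeasurable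
      rw [hgP.map_eq] at this
      exact this.symm
    -- the three error terms
    have hswap : ∫ x, f x * E (g x) ∂P = ∫ x, E x * f (g x) ∂P := by
      rw [← hmp (fun x => E x * f (g x)) (hEm.mul (hf.comp hgm))]
      refine integral_congr_ae (ae_of_all _ fun x => ?_)
      simp only [hgg]
      ring
    have hA : |∫ x, E x * f (g x) ∂P| ≤ η / 6 := by
      have h1 : ∫ x, E x * f (g x) ∂P =
          ∑ k ∈ Finset.range (N + 1), ∫ x, Dk k x * f (g x) ∂P := by
        have : ∀ x, E x * f (g x) = ∑ k ∈ Finset.range (N + 1), Dk k x * f (g x) := fun x => by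
          rw [hsum x, Finset.sum_mul]
        simp_rw [this]
        exact integral_finsetSum _ fun k _ =>
          hprod _ _ (hDkm k) (hf.comp hgm) (hDkb k) (fun x => hfb _)
      have h2 : ∀ k, |∫ x, Dk k x * f (g x) ∂P| ≤ η' := by
        intro k
        have : ∫ x, Dk k x * f (g x) ∂P =
            ∫ x in κ ⁻¹' {k}, f (g x) * (sgn (Bs k) x - f x) ∂P := by
          rw [← integral_indicator (hC k)]
          refine integral_congr_ae (ae_of_all _ fun x => ?_)
          by_cases hx : x ∈ κ ⁻¹' {k}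
          · simp only [Dk, D, indicator_of_mem hx]; ring
          · simp only [Dk, D, indicator_of_notMem hx]; ring
        rw [this]
        exact (hBs1 k).2.2 k g hg
      calc _ = |∑ k ∈ Finset.range (N + 1), ∫ x, Dk k x * f (g x) ∂P| := by rw [h1]
        _ ≤ ∑ k ∈ Finset.range (N + 1), |∫ x, Dk k x * f (g x) ∂P| :=
          Finset.abs_sum_le_sum_abs _ _
        _ ≤ ∑ k ∈ Finset.range (N + 1), η' := Finset.sum_le_sum fun k _ => h2 k
        _ = ((N:ℝ) + 1) * η' := by simp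
        _ ≤ η / 6 := hη'1
    have hoff : ∀ k < N + 1, ∀ l < N + 1, k ≠ l → |∫ x, Dk k x * Dk l (g x) ∂P| ≤ η' := by
      have hlt : ∀ k < N + 1, ∀ l, k < l → |∫ x, Dk k (g x) * Dk l x ∂P| ≤ η' := by
        intro k hk l hkl
        have : ∫ x, Dk k (g x) * Dk l x ∂P =
            ∫ x in κ ⁻¹' {l}, D (Bs k) k (g x) * (sgn (Bs l) x - f x) ∂P := by
          rw [← integral_indicator (hC l)]
          refine integral_congr_ae (ae_of_all _ fun x => ?_)
          by_cases hx : x ∈ κ ⁻¹' {l}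
          · simp only [Dk, D, indicator_of_mem hx]
          · simp only [Dk, D, indicator_of_notMem hx]; ring
        rw [this]
        exact hBs2 k l hkl k hk l g hg
      intro k hk l hl hkl
      rcases lt_or_gt_of_ne hkl with h | h
      · have : ∫ x, Dk k x * Dk l (g x) ∂P = ∫ x, Dk k (g x) * Dk l x ∂P := by
          rw [← hmp (fun x => Dk k x * Dk l (g x)) ((hDkm k).mul ((hDkm l).comp hgm))]
          refine integral_congr_ae (ae_of_all _ fun x => ?_)
          simp only [hgg]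
        rw [this]
        exact hlt k hk l h
      · have : ∫ x, Dk k x * Dk l (g x) ∂P = ∫ x, Dk l (g x) * Dk k x ∂P := by
          refine integral_congr_ae (ae_of_all _ fun x => ?_)
          simp only
          ring
        rw [this]
        exact hlt l hl k h
    have hdiag : ∑ k ∈ Finset.range (N + 1), |∫ x, Dk k x * Dk k (g x) ∂P| ≤ η / 2 := by
      have h1 : ∀ k, |∫ x, Dk k x * Dk k (g x) ∂P| ≤
          4 * P.real (κ ⁻¹' {k} ∩ g ⁻¹' (κ ⁻¹' {k})) := by
        intro k
        have hms : MeasurableSet (κ ⁻¹' {k} ∩ g ⁻¹' (κ ⁻¹' {k})) := (hC k).inter (hgm (hC k))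
        calc |∫ x, Dk k x * Dk k (g x) ∂P| ≤ ∫ x, |Dk k x * Dk k (g x)| ∂P :=
              abs_integral_le_integral_abs
          _ ≤ ∫ x, (κ ⁻¹' {k} ∩ g ⁻¹' (κ ⁻¹' {k})).indicator (fun _ => (4:ℝ)) x ∂P := by
              refine integral_mono_of_nonneg (ae_of_all _ fun x => abs_nonneg _) ?_
                (ae_of_all _ fun x => ?_)
              · exact (integrable_const _).indicator hms
              · simp only
                by_cases hx : x ∈ κ ⁻¹' {k}
                · by_cases hx2 : g x ∈ κ ⁻¹' {k}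
                  · rw [indicator_of_mem (show x ∈ κ ⁻¹' {k} ∩ g ⁻¹' (κ ⁻¹' {k}) from ⟨hx, hx2⟩),
                      abs_mul]
                    calc _ ≤ (2:ℝ) * 2 := mul_le_mul (hDkb _ _) (hDkb _ _) (abs_nonneg _)
                          (by norm_num)
                      _ = 4 := by norm_num
                  · have : Dk k (g x) = 0 := by simp only [Dk, D, indicator_of_notMem hx2]
                    rw [this, mul_zero, abs_zero]
                    exact indicator_nonneg (fun _ _ => by norm_num) x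
                · have : Dk k x = 0 := by simp only [Dk, D, indicator_of_notMem hx]
                  rw [this, zero_mul, abs_zero]
                  exact indicator_nonneg (fun _ _ => by norm_num) x
          _ = 4 * P.real (κ ⁻¹' {k} ∩ g ⁻¹' (κ ⁻¹' {k})) := by
              rw [integral_indicator hms]
              simp [mul_comm]
      have h2 : ∑ k ∈ Finset.range (N + 1), P.real (κ ⁻¹' {k} ∩ g ⁻¹' (κ ⁻¹' {k})) ≤
          P.real {x | κ x = κ (g x)} := by
        rw [← measureReal_biUnion_finset]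
        · refine measureReal_mono ?_ (measure_ne_top _ _)
          intro x hx
          simp only [mem_iUnion] at hx
          obtain ⟨k, _, hk1, hk2⟩ := hx
          have e1 : κ x = k := hk1
          have e2 : κ (g x) = k := hk2
          exact e1.trans e2.symm
        · intro i _ j _ hij
          refine Disjoint.mono inter_subset_left inter_subset_left ?_
          rw [Set.disjoint_left]
          intro x hx hx'
          exact hij (hx.symm.trans hx')
        · intro k _
          exact (hC k).inter (hgm (hC k))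
      calc _ ≤ ∑ k ∈ Finset.range (N + 1), 4 * P.real (κ ⁻¹' {k} ∩ g ⁻¹' (κ ⁻¹' {k})) :=
            Finset.sum_le_sum fun k _ => h1 k
        _ = 4 * ∑ k ∈ Finset.range (N + 1), P.real (κ ⁻¹' {k} ∩ g ⁻¹' (κ ⁻¹' {k})) := by
            rw [Finset.mul_sum]
        _ ≤ 4 * (η / 8) := by
            have := h2.trans (hoverlap g hg)
            linarith
        _ = η / 2 := by ring
    have hEE : |∫ x, E x * E (g x) ∂P| ≤ η / 6 + η / 2 := by
      have h1 : ∫ x, E x * E (g x) ∂P =
          ∑ k ∈ Finset.range (N + 1), ∑ l ∈ Finset.range (N + 1),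
            ∫ x, Dk k x * Dk l (g x) ∂P := by
        have : ∀ x, E x * E (g x) = ∑ k ∈ Finset.range (N + 1), ∑ l ∈ Finset.range (N + 1),
            Dk k x * Dk l (g x) := fun x => by
          rw [hsum x, hsum (g x), Finset.sum_mul_sum]
        have hI : ∀ k l, Integrable (fun x => Dk k x * Dk l (g x)) P := fun k l =>
          hprod _ _ (hDkm k) ((hDkm l).comp hgm) (hDkb k) (fun x => hDkb l _)
        simp_rw [this]
        rw [integral_finsetSum _ fun k _ => integrable_finsetSum _ fun l _ => hI k l]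
        refine Finset.sum_congr rfl fun k _ => ?_
        exact integral_finsetSum _ fun l _ => hI k l
      rw [h1]
      calc _ ≤ ∑ k ∈ Finset.range (N + 1), ∑ l ∈ Finset.range (N + 1),
            |∫ x, Dk k x * Dk l (g x) ∂P| := by
            refine (Finset.abs_sum_le_sum_abs _ _).trans ?_
            exact Finset.sum_le_sum fun k _ => Finset.abs_sum_le_sum_abs _ _
        _ ≤ ∑ k ∈ Finset.range (N + 1), ∑ l ∈ Finset.range (N + 1),
            (η' + if k = l then |∫ x, Dk k x * Dk k (g x) ∂P| else 0) := by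
            refine Finset.sum_le_sum fun k hk => Finset.sum_le_sum fun l hl => ?_
            by_cases hkl : k = l
            · subst hkl
              rw [if_pos rfl]
              linarith
            · rw [if_neg hkl, add_zero]
              exact hoff k (Finset.mem_range.1 hk) l (Finset.mem_range.1 hl) hkl
        _ = ((N:ℝ) + 1) ^ 2 * η' +
            ∑ k ∈ Finset.range (N + 1), |∫ x, Dk k x * Dk k (g x) ∂P| := by
            simp_rw [Finset.sum_add_distrib]
            congr 1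
            · simp; ring
            · refine Finset.sum_congr rfl fun k hk => ?_
              rw [Finset.sum_ite_eq, if_pos hk]
        _ ≤ η / 6 + η / 2 := by
            rw [hη'2]
            linarith [hdiag]
    have hexp : ∫ x, sgn B x * sgn B (g x) ∂P - ∫ x, f x * f (g x) ∂P =
        ∫ x, E x * f (g x) ∂P + ∫ x, f x * E (g x) ∂P + ∫ x, E x * E (g x) ∂P := by
      have hsm := measurable_sgn hB
      have hsb : ∀ x, |sgn B x| ≤ 2 := fun x => by rw [abs_sgn]; norm_num
      have i1 := hprod _ _ hEm (hf.comp hgm) hEb (fun x => hfb (g x))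
      have i2 := hprod _ _ hf (hEm.comp hgm) hfb (fun x => hEb (g x))
      have i3 := hprod _ _ hEm (hEm.comp hgm) hEb (fun x => hEb (g x))
      have i4 := hprod _ _ hsm (hsm.comp hgm) hsb (fun x => hsb (g x))
      have i5 := hprod _ _ hf (hf.comp hgm) hfb (fun x => hfb (g x))
      simp only [Function.comp_apply] at i1 i2 i3 i4 i5
      have i12 : Integrable (fun x => E x * f (g x) + f x * E (g x)) P := i1.add i2
      rw [← integral_sub i4 i5, ← integral_add i1 i2, ← integral_add i12 i3]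
      refine integral_congr_ae (ae_of_all _ fun x => ?_)
      simp only [hE]
      ring
    rw [hexp, hswap]
    calc _ ≤ |∫ x, E x * f (g x) ∂P + ∫ x, E x * f (g x) ∂P| + |∫ x, E x * E (g x) ∂P| :=
          abs_add_le _ _
      _ ≤ (|∫ x, E x * f (g x) ∂P| + |∫ x, E x * f (g x) ∂P|) + |∫ x, E x * E (g x) ∂P| := by
          gcongr; exact abs_add_le _ _
      _ ≤ (η / 6 + η / 6) + (η / 6 + η / 2) := by gcongr
      _ = η := by ring

end Pool.Agent.MP_be97b2_co
end

section

set_option autoImplicit false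
open MeasureTheory Set Filter Topology Metric Complex
open scoped Pointwise ENNReal ComplexConjugate

namespace Pool.Agent.MP_be97b2_co

lemma inner_E3 (v x : E3) : inner ℝ v x = v 0 * x 0 + v 1 * x 1 + v 2 * x 2 := by
  simp [PiLp.inner_apply, Fin.sum_univ_three]
  ring

lemma norm_E3 {v : E3} (hv : ‖v‖ = 1) : (v 0) ^ 2 + (v 1) ^ 2 + (v 2) ^ 2 = 1 := by
  have h := EuclideanSpace.norm_sq_eq v
  rw [hv, Fin.sum_univ_three] at h
  simp at h
  linarith

lemma halfTurn_coord (v x : E3) (i : Fin 3) :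
    halfTurn v x i = 2 * (v 0 * x 0 + v 1 * x 1 + v 2 * x 2) * v i - x i := by
  simp [halfTurn, inner_E3]

lemma cnorm {v : E3} (hv : ‖v‖ = 1) : ((v 0 : ℂ)) ^ 2 + (v 1 : ℂ) ^ 2 + (v 2 : ℂ) ^ 2 = 1 := by
  have h := congrArg (fun t : ℝ => (t : ℂ)) (norm_E3 hv)
  push_cast at h
  exact h

lemma continuous_halfTurn (v : E3) : Continuous (halfTurn v) := by
  unfold halfTurn
  fun_prop

lemma cw_halfTurn {v : E3} (hv : ‖v‖ = 1) (x : E3) :
    cw (halfTurn v x) = Lf ((cw v) ^ 2) (2 * cz v * cw v) (-(cz v) ^ 2) x := by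
  have h := cnorm hv
  rw [Lf_apply, cw, halfTurn_coord, halfTurn_coord]
  simp only [cw, cwb, cz]
  push_cast
  linear_combination ((x 0 : ℂ) + (x 1 : ℂ) * I) * h +
    ((v 1 : ℂ) ^ 2 * (x 1 : ℂ) * I - (v 1:ℂ)^2 * (x 0 : ℂ) + 2 * (v 0:ℂ) * (v 1 :ℂ) * (x 1:ℂ)) * I_sq

lemma cwb_halfTurn {v : E3} (hv : ‖v‖ = 1) (x : E3) :
    cwb (halfTurn v x) = Lf (-(cz v) ^ 2) (2 * cz v * cwb v) ((cwb v) ^ 2) x := by
  rw [← conj_cw, cw_halfTurn hv, Lf_apply, Lf_apply]
  simp only [map_add, map_mul, map_pow, map_neg, conj_cw, conj_cwb, conj_cz, map_ofNat]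
  ring

lemma cz_halfTurn {v : E3} (_hv : ‖v‖ = 1) (x : E3) :
    cz (halfTurn v x) = Lf (cz v * cw v) (2 * (cz v) ^ 2 - 1) (cz v * cwb v) x := by
  rw [Lf_apply, cz, halfTurn_coord]
  simp only [cw, cwb, cz]
  push_cast
  linear_combination (2 * (v 2 : ℂ) * (v 1 : ℂ) * (x 1 : ℂ)) * I_sq

/-- the three coordinate forms after a half turn -/
noncomputable def wr (v : E3) : E3 → ℂ := Lf ((cw v) ^ 2) (2 * cz v * cw v) (-(cz v) ^ 2)
noncomputable def wbr (v : E3) : E3 → ℂ := Lf (-(cz v) ^ 2) (2 * cz v * cwb v) ((cwb v) ^ 2)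
noncomputable def zr (v : E3) : E3 → ℂ :=
  Lf (cz v * cw v) (2 * (cz v) ^ 2 - 1) (cz v * cwb v)

/-- complex components -/
noncomputable def P1 (x : E3) : ℂ := cz x
noncomputable def P3 (x : E3) : ℂ := cw x ^ 3
noncomputable def P7 (x : E3) : ℂ := -I * (cw x ^ 6 * cz x)
noncomputable def P9 (x : E3) : ℂ := -I * cw x ^ 9

/-- real components: `z`, `Re w³`, `z Im w⁶`, `Im w⁹` -/
noncomputable def f1 (x : E3) : ℝ := (P1 x).re
noncomputable def f3 (x : E3) : ℝ := (P3 x).re
noncomputable def f7 (x : E3) : ℝ := (P7 x).re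
noncomputable def f9 (x : E3) : ℝ := (P9 x).re

lemma continuous_P1 : Continuous P1 := continuous_cz
lemma continuous_P3 : Continuous P3 := continuous_cw.pow 3
lemma continuous_P7 : Continuous P7 :=
  continuous_const.mul ((continuous_cw.pow 6).mul continuous_cz)
lemma continuous_P9 : Continuous P9 := continuous_const.mul (continuous_cw.pow 9)
lemma continuous_f1 : Continuous f1 := continuous_re.comp continuous_P1
lemma continuous_f3 : Continuous f3 := continuous_re.comp continuous_P3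
lemma continuous_f7 : Continuous f7 := continuous_re.comp continuous_P7
lemma continuous_f9 : Continuous f9 := continuous_re.comp continuous_P9

/-- autocorrelation form -/
noncomputable def bil (v : E3) (f g : E3 → ℝ) : ℝ := ∫ x, f x * g (halfTurn v x) ∂(sphP E3)

lemma bil_symm {v : E3} (hv : ‖v‖ = 1) (f g : E3 → ℝ) : bil v f g = bil v g f := by
  unfold bil
  have h := integral_invariant (ℝ ∙ v).reflection (fun x => f x * g (halfTurn v x))
  rw [← h]
  refine integral_congr_ae (ae_of_all _ fun x => ?_)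
  simp only [← halfTurn_eq_reflection hv]
  have : halfTurn v (halfTurn v x) = x := by
    rw [halfTurn_eq_reflection hv, halfTurn_eq_reflection hv]; simp
  rw [this]
  ring

lemma reInt {p : E3 → ℂ} (hp : Continuous p) {q : E3 → ℝ} (hq : Continuous q) :
    ∫ x, (p x).re * q x ∂(sphP E3) = (∫ x, p x * (q x : ℂ) ∂(sphP E3)).re := by
  have hi : Integrable (fun x => p x * (q x : ℂ)) (sphP E3) :=
    integrable_of_continuous (hp.mul (continuous_ofReal.comp hq))
  have := reCLM.integral_comp_comm hi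
  simp only [reCLM_apply] at this
  rw [← this]
  refine integral_congr_ae (ae_of_all _ fun x => ?_)
  simp

lemma cross {m l : ℤ} (hml : l < m) {p : E3 → ℂ} (hp : p ∈ Cge m) {q : E3 → ℝ}
    (hq : Continuous q) (hq' : (fun x => (q x : ℂ)) ∈ Cge (-l)) :
    ∫ x, (p x).re * q x ∂(sphP E3) = 0 := by
  rw [reInt (Cge_continuous hp) hq]
  have : p * (fun x => (q x : ℂ)) ∈ Cge 1 := Cge_mono (by linarith [Int.add_one_le_iff.2 hml]) (Cge_mul hp hq')
  have h := integral_Cge this
  simp only [Pi.mul_apply] at h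
  rw [h]
  simp

lemma wr_mem (v : E3) : wr v ∈ Cge (-1) := Lf_mem _ _ _
lemma wbr_mem (v : E3) : wbr v ∈ Cge (-1) := Lf_mem _ _ _
lemma zr_mem (v : E3) : zr v ∈ Cge (-1) := Lf_mem _ _ _

lemma re_half (z : ℂ) : ((z.re : ℝ) : ℂ) = (z + conj z) / 2 := by
  rw [Complex.re_eq_add_conj]

lemma f1_comp {v : E3} (hv : ‖v‖ = 1) (x : E3) : ((f1 (halfTurn v x) : ℝ) : ℂ) = zr v x := by
  rw [f1, P1, cz_halfTurn hv, zr, ← cz_halfTurn hv]
  simp [cz]

lemma f3_comp {v : E3} (hv : ‖v‖ = 1) (x : E3) :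
    ((f3 (halfTurn v x) : ℝ) : ℂ) = (wr v x ^ 3 + wbr v x ^ 3) / 2 := by
  rw [f3, re_half, P3, map_pow, conj_cw, cw_halfTurn hv, cwb_halfTurn hv, wr, wbr]

lemma f7_comp {v : E3} (hv : ‖v‖ = 1) (x : E3) :
    ((f7 (halfTurn v x) : ℝ) : ℂ) =
      (-I * (wr v x ^ 6 * zr v x) + I * (wbr v x ^ 6 * zr v x)) / 2 := by
  rw [f7, re_half, P7]
  simp only [map_mul, map_pow, map_neg, conj_cw, conj_cz, conj_I, neg_neg]
  rw [cw_halfTurn hv, cwb_halfTurn hv, cz_halfTurn hv, wr, wbr, zr]

lemma f9_comp {v : E3} (hv : ‖v‖ = 1) (x : E3) :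
    ((f9 (halfTurn v x) : ℝ) : ℂ) = (-I * wr v x ^ 9 + I * wbr v x ^ 9) / 2 := by
  rw [f9, re_half, P9]
  simp only [map_mul, map_pow, map_neg, conj_cw, conj_I, neg_neg]
  rw [cw_halfTurn hv, cwb_halfTurn hv, wr, wbr]

lemma f1_comp_mem {v : E3} (hv : ‖v‖ = 1) :
    (fun x => ((f1 (halfTurn v x) : ℝ) : ℂ)) ∈ Cge (-1) := by
  have : (fun x => ((f1 (halfTurn v x) : ℝ) : ℂ)) = zr v := funext (f1_comp hv)
  rw [this]
  exact zr_mem v

lemma f3_comp_mem {v : E3} (hv : ‖v‖ = 1) :
    (fun x => ((f3 (halfTurn v x) : ℝ) : ℂ)) ∈ Cge (-3) := by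
  have : (fun x => ((f3 (halfTurn v x) : ℝ) : ℂ)) =
      (1/2 : ℂ) • (wr v ^ 3) + (1/2 : ℂ) • (wbr v ^ 3) := by
    ext x
    rw [f3_comp hv]
    simp only [Pi.add_apply, Pi.smul_apply, Pi.pow_apply, smul_eq_mul]
    ring
  rw [this]
  exact Submodule.add_mem _ (Submodule.smul_mem _ _ (Cge_mono (by norm_num) (Cge_pow (wr_mem v) 3)))
    (Submodule.smul_mem _ _ (Cge_mono (by norm_num) (Cge_pow (wbr_mem v) 3)))

lemma f7_comp_mem {v : E3} (hv : ‖v‖ = 1) :
    (fun x => ((f7 (halfTurn v x) : ℝ) : ℂ)) ∈ Cge (-7) := by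
  have : (fun x => ((f7 (halfTurn v x) : ℝ) : ℂ)) =
      (-I/2 : ℂ) • (wr v ^ 6 * zr v) + (I/2 : ℂ) • (wbr v ^ 6 * zr v) := by
    ext x
    rw [f7_comp hv]
    simp only [Pi.add_apply, Pi.smul_apply, Pi.pow_apply, Pi.mul_apply, smul_eq_mul]
    ring
  rw [this]
  exact Submodule.add_mem _
    (Submodule.smul_mem _ _ (Cge_mono (by norm_num) (Cge_mul (Cge_pow (wr_mem v) 6) (zr_mem v))))
    (Submodule.smul_mem _ _ (Cge_mono (by norm_num) (Cge_mul (Cge_pow (wbr_mem v) 6) (zr_mem v))))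

lemma P3_mem : P3 ∈ Cge 3 := by
  have : P3 = cw ^ 3 := rfl
  rw [this]
  exact Cge_mono (by norm_num) (Cge_pow cw_mem 3)

lemma P7_mem : P7 ∈ Cge 6 := by
  have : P7 = (-I) • (cw ^ 6 * cz) := rfl
  rw [this]
  exact Submodule.smul_mem _ _ (Cge_mono (by norm_num) (Cge_mul (Cge_pow cw_mem 6) cz_mem))

lemma P9_mem : P9 ∈ Cge 9 := by
  have : P9 = (-I) • (cw ^ 9) := rfl
  rw [this]
  exact Submodule.smul_mem _ _ (Cge_mono (by norm_num) (Cge_pow cw_mem 9))

lemma bil_31 {v : E3} (hv : ‖v‖ = 1) : bil v f3 f1 = 0 :=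
  cross (l := 1) (m := 3) (by norm_num) P3_mem (continuous_f1.comp (continuous_halfTurn v))
    (f1_comp_mem hv)
lemma bil_71 {v : E3} (hv : ‖v‖ = 1) : bil v f7 f1 = 0 :=
  cross (l := 1) (m := 6) (by norm_num) P7_mem (continuous_f1.comp (continuous_halfTurn v))
    (f1_comp_mem hv)
lemma bil_73 {v : E3} (hv : ‖v‖ = 1) : bil v f7 f3 = 0 :=
  cross (l := 3) (m := 6) (by norm_num) P7_mem (continuous_f3.comp (continuous_halfTurn v))
    (f3_comp_mem hv)
lemma bil_91 {v : E3} (hv : ‖v‖ = 1) : bil v f9 f1 = 0 :=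
  cross (l := 1) (m := 9) (by norm_num) P9_mem (continuous_f1.comp (continuous_halfTurn v))
    (f1_comp_mem hv)
lemma bil_93 {v : E3} (hv : ‖v‖ = 1) : bil v f9 f3 = 0 :=
  cross (l := 3) (m := 9) (by norm_num) P9_mem (continuous_f3.comp (continuous_halfTurn v))
    (f3_comp_mem hv)
lemma bil_97 {v : E3} (hv : ‖v‖ = 1) : bil v f9 f7 = 0 :=
  cross (l := 7) (m := 9) (by norm_num) P9_mem (continuous_f7.comp (continuous_halfTurn v))
    (f7_comp_mem hv)

/-- moments -/
noncomputable def M1 : ℝ := ∫ x : E3, (x 2) ^ 2 ∂(sphP E3)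
noncomputable def Mn (n : ℕ) : ℝ := ∫ x : E3, ((x 0) ^ 2 + (x 1) ^ 2) ^ n ∂(sphP E3)
noncomputable def N7 : ℝ := ∫ x : E3, ((x 0) ^ 2 + (x 1) ^ 2) ^ 6 * (x 2) ^ 2 ∂(sphP E3)

lemma cw_mul_cwb (x : E3) : cw x * cwb x = (((x 0) ^ 2 + (x 1) ^ 2 : ℝ) : ℂ) := by
  rw [cw, cwb]
  push_cast
  linear_combination (-(x 1 : ℂ) ^ 2) * I_sq

lemma int_n (n : ℕ) : ∫ x, cw x ^ n * cwb x ^ n ∂(sphP E3) = (Mn n : ℂ) := by
  rw [Mn, ← integral_complex_ofReal]
  refine integral_congr_ae (ae_of_all _ fun x => ?_)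
  simp only
  rw [← mul_pow, cw_mul_cwb]
  push_cast
  rfl

lemma int_7 : ∫ x, (cw x ^ 6 * cz x) * (cwb x ^ 6 * cz x) ∂(sphP E3) = (N7 : ℂ) := by
  rw [N7, ← integral_complex_ofReal]
  refine integral_congr_ae (ae_of_all _ fun x => ?_)
  simp only
  have : (cw x ^ 6 * cz x) * (cwb x ^ 6 * cz x) = (cw x * cwb x) ^ 6 * (cz x) ^ 2 := by ring
  rw [this, cw_mul_cwb, cz]
  push_cast
  rfl

lemma bil_11 {v : E3} (hv : ‖v‖ = 1) : bil v f1 f1 = (2 * (v 2) ^ 2 - 1) * M1 := by
  have h0 : bil v f1 f1 = (∫ x, P1 x * zr v x ∂(sphP E3)).re := by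
    rw [bil, show (fun x => f1 x * f1 (halfTurn v x)) =
      fun x => (P1 x).re * f1 (halfTurn v x) from rfl,
      reInt continuous_P1 (q := fun x => f1 (halfTurn v x))
        (continuous_f1.comp (continuous_halfTurn v))]
    simp_rw [f1_comp hv]
  have e1 : ∫ x, cz x * cwb x ∂(sphP E3) = 0 :=
    integral_Wt (k := -1) (by norm_num)
      (show Wt (-1) (cz * cwb) by simpa using Wt_cz.mul Wt_cwb)
  have e2 : ∫ x, cz x * cw x ∂(sphP E3) = 0 :=
    integral_Wt (k := 1) (by norm_num)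
      (show Wt 1 (cz * cw) by simpa using Wt_cz.mul Wt_cw)
  have e3 : ∫ x, cz x * cz x ∂(sphP E3) = (M1 : ℂ) := by
    rw [M1, ← integral_complex_ofReal]
    refine integral_congr_ae (ae_of_all _ fun x => ?_)
    simp only [cz]
    push_cast
    ring
  have c1 := continuous_cw
  have c2 := continuous_cwb
  have c3 := continuous_cz
  have i1 : Integrable (fun x => (cz v * cw v) * (cz x * cwb x)) (sphP E3) :=
    integrable_of_continuous (by fun_prop)
  have i2 : Integrable (fun x => (2 * (cz v) ^ 2 - 1) * (cz x * cz x)) (sphP E3) :=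
    integrable_of_continuous (by fun_prop)
  have i3 : Integrable (fun x => (cz v * cwb v) * (cz x * cw x)) (sphP E3) :=
    integrable_of_continuous (by fun_prop)
  have i12 : Integrable (fun x => (cz v * cw v) * (cz x * cwb x) +
    (2 * (cz v) ^ 2 - 1) * (cz x * cz x)) (sphP E3) := i1.add i2
  have h1 : ∫ x, P1 x * zr v x ∂(sphP E3) = (2 * (cz v) ^ 2 - 1) * (M1 : ℂ) := by
    have : ∀ x, P1 x * zr v x = (cz v * cw v) * (cz x * cwb x) +
        (2 * (cz v) ^ 2 - 1) * (cz x * cz x) + (cz v * cwb v) * (cz x * cw x) := by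
      intro x
      rw [P1, zr, Lf_apply]
      ring
    simp_rw [this]
    rw [integral_add i12 i3, integral_add i1 i2, integral_const_mul, integral_const_mul,
      integral_const_mul, e1, e2, e3]
    ring
  rw [h0, h1]
  have : (2 * (cz v) ^ 2 - 1) * (M1 : ℂ) = (((2 * (v 2) ^ 2 - 1) * M1 : ℝ) : ℂ) := by
    rw [cz]; push_cast; ring
  rw [this, ofReal_re]

lemma bil_33 {v : E3} (hv : ‖v‖ = 1) :
    bil v f3 f3 = (1/2) * (((cw v) ^ 6).re - (v 2) ^ 6) * Mn 3 := by
  have h0 : bil v f3 f3 =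
      (∫ x, P3 x * ((wr v x ^ 3 + wbr v x ^ 3) / 2) ∂(sphP E3)).re := by
    rw [bil, show (fun x => f3 x * f3 (halfTurn v x)) =
      fun x => (P3 x).re * f3 (halfTurn v x) from rfl,
      reInt continuous_P3 (q := fun x => f3 (halfTurn v x))
        (continuous_f3.comp (continuous_halfTurn v))]
    simp_rw [f3_comp hv]
  have e1 := integral_highest ((cw v) ^ 2) (2 * cz v * cw v) (-(cz v) ^ 2) 3
  have e2 := integral_highest (-(cz v) ^ 2) (2 * cz v * cwb v) ((cwb v) ^ 2) 3
  rw [int_n] at e1 e2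
  have cwr : Continuous (wr v) := continuous_Lf _ _ _
  have cwbr : Continuous (wbr v) := continuous_Lf _ _ _
  have c1 := continuous_cw
  have i1 : Integrable (fun x => (1/2:ℂ) * (cw x ^ 3 * wr v x ^ 3)) (sphP E3) :=
    integrable_of_continuous (by fun_prop)
  have i2 : Integrable (fun x => (1/2:ℂ) * (cw x ^ 3 * wbr v x ^ 3)) (sphP E3) :=
    integrable_of_continuous (by fun_prop)
  have h1 : ∫ x, P3 x * ((wr v x ^ 3 + wbr v x ^ 3) / 2) ∂(sphP E3) =
      (1/2) * (((cw v) ^ 2) ^ 3 + (-(cz v) ^ 2) ^ 3) * (Mn 3 : ℂ) := by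
    have : ∀ x, P3 x * ((wr v x ^ 3 + wbr v x ^ 3) / 2) =
        (1/2:ℂ) * (cw x ^ 3 * wr v x ^ 3) + (1/2:ℂ) * (cw x ^ 3 * wbr v x ^ 3) := by
      intro x
      rw [P3]
      ring
    simp_rw [this]
    rw [integral_add i1 i2, integral_const_mul, integral_const_mul]
    unfold wr wbr
    rw [e1, e2]
    ring
  rw [h0, h1]
  have : (1/2) * (((cw v) ^ 2) ^ 3 + (-(cz v) ^ 2) ^ 3) * (Mn 3 : ℂ) =
      ((cw v) ^ 6) * (((1/2) * Mn 3 : ℝ) : ℂ) + ((-((1/2) * (v 2) ^ 6 * Mn 3) : ℝ) : ℂ) := by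
    rw [cz]; push_cast; ring
  rw [this, add_re, re_mul_ofReal, ofReal_re]
  ring

lemma bil_99 {v : E3} (hv : ‖v‖ = 1) :
    bil v f9 f9 = (1/2) * (-((cw v) ^ 18).re - (v 2) ^ 18) * Mn 9 := by
  have h0 : bil v f9 f9 =
      (∫ x, P9 x * ((-I * wr v x ^ 9 + I * wbr v x ^ 9) / 2) ∂(sphP E3)).re := by
    rw [bil, show (fun x => f9 x * f9 (halfTurn v x)) =
      fun x => (P9 x).re * f9 (halfTurn v x) from rfl,
      reInt continuous_P9 (q := fun x => f9 (halfTurn v x))
        (continuous_f9.comp (continuous_halfTurn v))]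
    simp_rw [f9_comp hv]
  have e1 := integral_highest ((cw v) ^ 2) (2 * cz v * cw v) (-(cz v) ^ 2) 9
  have e2 := integral_highest (-(cz v) ^ 2) (2 * cz v * cwb v) ((cwb v) ^ 2) 9
  rw [int_n] at e1 e2
  have cwr : Continuous (wr v) := continuous_Lf _ _ _
  have cwbr : Continuous (wbr v) := continuous_Lf _ _ _
  have c1 := continuous_cw
  have i1 : Integrable (fun x => (-1/2:ℂ) * (cw x ^ 9 * wr v x ^ 9)) (sphP E3) :=
    integrable_of_continuous (by fun_prop)
  have i2 : Integrable (fun x => (1/2:ℂ) * (cw x ^ 9 * wbr v x ^ 9)) (sphP E3) :=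
    integrable_of_continuous (by fun_prop)
  have h1 : ∫ x, P9 x * ((-I * wr v x ^ 9 + I * wbr v x ^ 9) / 2) ∂(sphP E3) =
      (1/2) * (-((cw v) ^ 2) ^ 9 + (-(cz v) ^ 2) ^ 9) * (Mn 9 : ℂ) := by
    have : ∀ x, P9 x * ((-I * wr v x ^ 9 + I * wbr v x ^ 9) / 2) =
        (-1/2:ℂ) * (cw x ^ 9 * wr v x ^ 9) + (1/2:ℂ) * (cw x ^ 9 * wbr v x ^ 9) := by
      intro x
      rw [P9]
      linear_combination ((1/2:ℂ) * (cw x ^ 9 * wr v x ^ 9) - (1/2:ℂ) * (cw x ^ 9 * wbr v x ^ 9)) * I_sq
    simp_rw [this]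
    rw [integral_add i1 i2, integral_const_mul, integral_const_mul]
    unfold wr wbr
    rw [e1, e2]
    ring
  rw [h0, h1]
  have : (1/2) * (-((cw v) ^ 2) ^ 9 + (-(cz v) ^ 2) ^ 9) * (Mn 9 : ℂ) =
      ((cw v) ^ 18) * (((-1/2) * Mn 9 : ℝ) : ℂ) + ((-((1/2) * (v 2) ^ 18 * Mn 9) : ℝ) : ℂ) := by
    rw [cz]; push_cast; ring
  rw [this, add_re, re_mul_ofReal, ofReal_re]
  ring

lemma bil_77 {v : E3} (hv : ‖v‖ = 1) :
    bil v f7 f7 = (1/2) * (-((14 * (v 2) ^ 2 - 1) * ((cw v) ^ 12).re)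
      + (v 2) ^ 12 * (14 * (v 2) ^ 2 - 13)) * N7 := by
  have h0 : bil v f7 f7 =
      (∫ x, P7 x * ((-I * (wr v x ^ 6 * zr v x) + I * (wbr v x ^ 6 * zr v x)) / 2)
        ∂(sphP E3)).re := by
    rw [bil, show (fun x => f7 x * f7 (halfTurn v x)) =
      fun x => (P7 x).re * f7 (halfTurn v x) from rfl,
      reInt continuous_P7 (q := fun x => f7 (halfTurn v x))
        (continuous_f7.comp (continuous_halfTurn v))]
    simp_rw [f7_comp hv]
  have e1 := integral_seven ((cw v) ^ 2) (2 * cz v * cw v) (-(cz v) ^ 2)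
    (cz v * cw v) (2 * (cz v) ^ 2 - 1) (cz v * cwb v)
  have e2 := integral_seven (-(cz v) ^ 2) (2 * cz v * cwb v) ((cwb v) ^ 2)
    (cz v * cw v) (2 * (cz v) ^ 2 - 1) (cz v * cwb v)
  rw [int_7] at e1 e2
  have cwr : Continuous (wr v) := continuous_Lf _ _ _
  have cwbr : Continuous (wbr v) := continuous_Lf _ _ _
  have czr : Continuous (zr v) := continuous_Lf _ _ _
  have c1 := continuous_cw
  have c3 := continuous_cz
  have i1 : Integrable (fun x => (-1/2:ℂ) * ((cw x ^ 6 * cz x) * (wr v x ^ 6 * zr v x)))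
      (sphP E3) := integrable_of_continuous (by fun_prop)
  have i2 : Integrable (fun x => (1/2:ℂ) * ((cw x ^ 6 * cz x) * (wbr v x ^ 6 * zr v x)))
      (sphP E3) := integrable_of_continuous (by fun_prop)
  have h1 : ∫ x, P7 x * ((-I * (wr v x ^ 6 * zr v x) + I * (wbr v x ^ 6 * zr v x)) / 2)
      ∂(sphP E3) =
      (1/2) * (-(((cw v) ^ 2) ^ 6 * (2 * (cz v) ^ 2 - 1) +
          6 * ((cw v) ^ 2) ^ 5 * (2 * cz v * cw v) * (cz v * cw v)) +
        ((-(cz v) ^ 2) ^ 6 * (2 * (cz v) ^ 2 - 1) +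
          6 * (-(cz v) ^ 2) ^ 5 * (2 * cz v * cwb v) * (cz v * cw v))) * (N7 : ℂ) := by
    have : ∀ x, P7 x * ((-I * (wr v x ^ 6 * zr v x) + I * (wbr v x ^ 6 * zr v x)) / 2) =
        (-1/2:ℂ) * ((cw x ^ 6 * cz x) * (wr v x ^ 6 * zr v x)) +
        (1/2:ℂ) * ((cw x ^ 6 * cz x) * (wbr v x ^ 6 * zr v x)) := by
      intro x
      rw [P7]
      linear_combination ((1/2:ℂ) * ((cw x ^ 6 * cz x) * (wr v x ^ 6 * zr v x)) -
        (1/2:ℂ) * ((cw x ^ 6 * cz x) * (wbr v x ^ 6 * zr v x))) * I_sq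
    simp_rw [this]
    rw [integral_add i1 i2, integral_const_mul, integral_const_mul]
    unfold wr wbr zr
    rw [e1, e2]
    ring
  rw [h0, h1]
  have hn := norm_E3 hv
  have hn' : cw v * cwb v = ((1 - (v 2) ^ 2 : ℝ) : ℂ) := by
    rw [cw_mul_cwb]
    congr 1
    linarith
  have : (1/2) * (-(((cw v) ^ 2) ^ 6 * (2 * (cz v) ^ 2 - 1) +
          6 * ((cw v) ^ 2) ^ 5 * (2 * cz v * cw v) * (cz v * cw v)) +
        ((-(cz v) ^ 2) ^ 6 * (2 * (cz v) ^ 2 - 1) +
          6 * (-(cz v) ^ 2) ^ 5 * (2 * cz v * cwb v) * (cz v * cw v))) * (N7 : ℂ) =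
      ((cw v) ^ 12) * (((-1/2) * (14 * (v 2) ^ 2 - 1) * N7 : ℝ) : ℂ) +
      (((1/2) * ((v 2) ^ 12 * (14 * (v 2) ^ 2 - 13)) * N7 : ℝ) : ℂ) := by
    have : (1/2) * (-(((cw v) ^ 2) ^ 6 * (2 * (cz v) ^ 2 - 1) +
          6 * ((cw v) ^ 2) ^ 5 * (2 * cz v * cw v) * (cz v * cw v)) +
        ((-(cz v) ^ 2) ^ 6 * (2 * (cz v) ^ 2 - 1) +
          6 * (-(cz v) ^ 2) ^ 5 * (2 * cz v * cwb v) * (cz v * cw v))) * (N7 : ℂ) =
        (1/2) * (-((cw v) ^ 12 * (14 * (cz v) ^ 2 - 1)) +
          ((cz v) ^ 12 * (2 * (cz v) ^ 2 - 1) - 12 * (cz v) ^ 12 * (cw v * cwb v))) * (N7 : ℂ) := by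
      ring
    rw [this, hn', cz]
    push_cast
    ring
  rw [this, add_re, re_mul_ofReal, ofReal_re]
  ring

end Pool.Agent.MP_be97b2_co
end

section

set_option autoImplicit false
open MeasureTheory Set Filter Topology Metric Complex
open scoped Pointwise ENNReal ComplexConjugate

namespace Pool.Agent.MP_be97b2_co

/-! ### positivity of the moments -/

noncomputable def planeS : Submodule ℝ E3 := LinearMap.ker
  (EuclideanSpace.proj (𝕜 := ℝ) (2 : Fin 3) : E3 →L[ℝ] ℝ).toLinearMap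
noncomputable def planeT : Submodule ℝ E3 := LinearMap.ker
  (EuclideanSpace.proj (𝕜 := ℝ) (0 : Fin 3) : E3 →L[ℝ] ℝ).toLinearMap

lemma mem_planeS (x : E3) : x ∈ planeS ↔ x 2 = 0 := by
  simp [planeS]
lemma mem_planeT (x : E3) : x ∈ planeT ↔ x 0 = 0 := by
  simp [planeT]

lemma planeS_ne : planeS ≠ ⊤ := by
  intro h
  have : (EuclideanSpace.single 2 1 : E3) ∈ planeS := by rw [h]; trivial
  rw [mem_planeS] at this
  simp at this
lemma planeT_ne : planeT ≠ ⊤ := by
  intro h
  have : (EuclideanSpace.single 0 1 : E3) ∈ planeT := by rw [h]; trivial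
  rw [mem_planeT] at this
  simp at this

lemma ae_ne_two : ∀ᵐ x ∂(sphP E3), x 2 ≠ 0 := by
  rw [ae_iff]
  have : {a : E3 | ¬ a 2 ≠ 0} = (planeS : Set E3) := by
    ext x; simp [mem_planeS]
  rw [this]
  exact sphP_submodule_null _ planeS_ne

lemma ae_ne_zero : ∀ᵐ x ∂(sphP E3), x 0 ≠ 0 := by
  rw [ae_iff]
  have : {a : E3 | ¬ a 0 ≠ 0} = (planeT : Set E3) := by
    ext x; simp [mem_planeT]
  rw [this]
  exact sphP_submodule_null _ planeT_ne

lemma integral_pos_of_ae {h : E3 → ℝ} (hc : Continuous h) (hp : ∀ᵐ x ∂(sphP E3), 0 < h x) :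
    0 < ∫ x, h x ∂(sphP E3) := by
  rw [integral_pos_iff_support_of_nonneg_ae (hp.mono fun x hx => hx.le)
    (integrable_of_continuous_real hc)]
  have hms : MeasurableSet (Function.support h) := hc.measurable (measurableSet_singleton (0:ℝ)).compl
  have : (sphP E3) (Function.support h) = 1 := by
    rw [← prob_compl_eq_zero_iff hms]
    have h2 : ∀ᵐ x ∂(sphP E3), x ∈ Function.support h := hp.mono fun x hx => hx.ne'
    exact h2
  rw [this]
  norm_num

lemma M1_pos : 0 < M1 := by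
  refine integral_pos_of_ae (by fun_prop) ?_
  filter_upwards [ae_ne_two] with x hx
  positivity

lemma Mn_pos (n : ℕ) : 0 < Mn n := by
  refine integral_pos_of_ae (by fun_prop) ?_
  filter_upwards [ae_ne_zero] with x hx
  positivity

lemma N7_pos : 0 < N7 := by
  refine integral_pos_of_ae (by fun_prop) ?_
  filter_upwards [ae_ne_zero, ae_ne_two] with x hx hx2
  positivity

/-! ### bilinearity -/

lemma bil_left (v : E3) {f g h : E3 → ℝ} (hf : Continuous f) (hg : Continuous g)
    (hh : Continuous h) (a b : ℝ) :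
    bil v (fun x => a * f x + b * g x) h = a * bil v f h + b * bil v g h := by
  unfold bil
  have hR := continuous_halfTurn v
  have i1 : Integrable (fun x => a * (f x * h (halfTurn v x))) (sphP E3) :=
    integrable_of_continuous_real (by fun_prop)
  have i2 : Integrable (fun x => b * (g x * h (halfTurn v x))) (sphP E3) :=
    integrable_of_continuous_real (by fun_prop)
  rw [← integral_const_mul, ← integral_const_mul, ← integral_add i1 i2]
  refine integral_congr_ae (ae_of_all _ fun x => ?_)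
  simp only
  ring

lemma bil_right {v : E3} (hv : ‖v‖ = 1) {f g h : E3 → ℝ} (hf : Continuous f) (hg : Continuous g)
    (hh : Continuous h) (a b : ℝ) :
    bil v h (fun x => a * f x + b * g x) = a * bil v h f + b * bil v h g := by
  rw [bil_symm hv, bil_left v hf hg hh, bil_symm hv f h, bil_symm hv g h]

noncomputable def ca : ℝ := Real.sqrt (17 / M1)
noncomputable def cb : ℝ := Real.sqrt (32 / Mn 3)
noncomputable def cc : ℝ := Real.sqrt (10 / N7)
noncomputable def cd : ℝ := Real.sqrt (14 / Mn 9)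

lemma ca_sq : ca ^ 2 * M1 = 17 := by
  have h := M1_pos
  rw [ca, Real.sq_sqrt (by positivity)]
  field_simp
lemma cb_sq : cb ^ 2 * Mn 3 = 32 := by
  have h := Mn_pos 3
  rw [cb, Real.sq_sqrt (by positivity)]
  field_simp
lemma cc_sq : cc ^ 2 * N7 = 10 := by
  have h := N7_pos
  rw [cc, Real.sq_sqrt (by positivity)]
  field_simp
lemma cd_sq : cd ^ 2 * Mn 9 = 14 := by
  have h := Mn_pos 9
  rw [cd, Real.sq_sqrt (by positivity)]
  field_simp

/-- the odd function with negative autocorrelations -/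
noncomputable def F0 (x : E3) : ℝ :=
  1 * (ca * f1 x + cb * f3 x) + 1 * (cc * f7 x + cd * f9 x)

lemma continuous_F0 : Continuous F0 := by
  have h1 := continuous_f1
  have h3 := continuous_f3
  have h7 := continuous_f7
  have h9 := continuous_f9
  unfold F0
  fun_prop

lemma bil_F0 {v : E3} (hv : ‖v‖ = 1) :
    bil v F0 F0 = ca ^ 2 * bil v f1 f1 + cb ^ 2 * bil v f3 f3 + cc ^ 2 * bil v f7 f7 +
      cd ^ 2 * bil v f9 f9 := by
  have h1 := continuous_f1
  have h3 := continuous_f3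
  have h7 := continuous_f7
  have h9 := continuous_f9
  have h13 : Continuous (fun x => ca * f1 x + cb * f3 x) := by fun_prop
  have h79 : Continuous (fun x => cc * f7 x + cd * f9 x) := by fun_prop
  have hF0 := continuous_F0
  have z31 := bil_31 hv
  have z71 := bil_71 hv
  have z73 := bil_73 hv
  have z91 := bil_91 hv
  have z93 := bil_93 hv
  have z97 := bil_97 hv
  have z13 : bil v f1 f3 = 0 := by rw [bil_symm hv]; exact z31
  have z17 : bil v f1 f7 = 0 := by rw [bil_symm hv]; exact z71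
  have z37 : bil v f3 f7 = 0 := by rw [bil_symm hv]; exact z73
  have z19 : bil v f1 f9 = 0 := by rw [bil_symm hv]; exact z91
  have z39 : bil v f3 f9 = 0 := by rw [bil_symm hv]; exact z93
  have z79 : bil v f7 f9 = 0 := by rw [bil_symm hv]; exact z97
  have e : ∀ p : E3 → ℝ, Continuous p → bil v p F0 =
      ca * bil v p f1 + cb * bil v p f3 + (cc * bil v p f7 + cd * bil v p f9) := by
    intro p hp
    have : F0 = fun x => 1 * (fun x => ca * f1 x + cb * f3 x) x +
      1 * (fun x => cc * f7 x + cd * f9 x) x := rfl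
    rw [this, bil_right hv h13 h79 hp, bil_right hv h1 h3 hp, bil_right hv h7 h9 hp]
    ring
  have e' : bil v F0 F0 = ca * bil v f1 F0 + cb * bil v f3 F0 +
      (cc * bil v f7 F0 + cd * bil v f9 F0) := by
    rw [bil_symm hv f1, bil_symm hv f3, bil_symm hv f7, bil_symm hv f9]
    exact e F0 hF0
  rw [e', e f1 h1, e f3 h3, e f7 h7, e f9 h9, z31, z71, z73, z91, z93, z97, z13, z17, z37, z19,
    z39, z79]
  ring

lemma exists_y (ν : ℂ) : ∃ y : ℝ, -1 ≤ y ∧ y ≤ 1 ∧ (ν ^ 6).re = -(normSq ν) ^ 3 * y ∧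
    (ν ^ 12).re = (normSq ν) ^ 6 * (2 * y ^ 2 - 1) ∧
    (ν ^ 18).re = -(normSq ν) ^ 9 * (4 * y ^ 3 - 3 * y) := by
  set s := normSq ν with hs
  have hs0 : 0 ≤ s := normSq_nonneg ν
  set X := (ν ^ 6).re with hX
  set Y := (ν ^ 6).im with hY
  have hXY : X ^ 2 + Y ^ 2 = s ^ 6 := by
    have h : normSq (ν ^ 6) = s ^ 6 := by rw [map_pow]
    rw [normSq_apply] at h
    rw [← h]; ring
  have h12 : (ν ^ 12).re = X ^ 2 - Y ^ 2 := by
    have : ν ^ 12 = ν ^ 6 * ν ^ 6 := by ring
    rw [this, mul_re]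
    ring
  have h18 : (ν ^ 18).re = X ^ 3 - 3 * X * Y ^ 2 := by
    have : ν ^ 18 = ν ^ 6 * ν ^ 6 * ν ^ 6 := by ring
    rw [this, mul_re, mul_re, mul_im]
    ring
  rcases eq_or_lt_of_le hs0 with h0 | h0
  · have hX0 : X = 0 := by
      rw [← h0] at hXY
      nlinarith [sq_nonneg X, sq_nonneg Y]
    have hY0 : Y = 0 := by
      rw [← h0] at hXY
      nlinarith [sq_nonneg X, sq_nonneg Y]
    refine ⟨0, by norm_num, by norm_num, ?_, ?_, ?_⟩
    · rw [hX0, ← h0]; ring
    · rw [h12, hX0, hY0, ← h0]; ring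
    · rw [h18, hX0, hY0, ← h0]; ring
  · have hs3 : s ^ 3 ≠ 0 := (pow_pos h0 3).ne'
    have hX' : X = -s ^ 3 * (-X / s ^ 3) := by field_simp
    have hsq : (-X / s ^ 3) ^ 2 ≤ 1 := by
      rw [div_pow, div_le_one (by positivity)]
      nlinarith [sq_nonneg Y]
    have habs : |(-X / s ^ 3)| ≤ 1 := by
      rw [← sq_le_one_iff_abs_le_one]
      exact hsq
    rw [abs_le] at habs
    refine ⟨-X / s ^ 3, habs.1, habs.2, hX', ?_, ?_⟩
    · rw [h12]
      have : Y ^ 2 = s ^ 6 - X ^ 2 := by linarith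
      rw [this]
      field_simp
      ring
    · rw [h18]
      have : Y ^ 2 = s ^ 6 - X ^ 2 := by linarith
      rw [this]
      field_simp
      ring

lemma bil_F0_le {v : E3} (hv : ‖v‖ = 1) : bil v F0 F0 ≤ -(1/10) := by
  obtain ⟨y, hy1, hy2, h6, h12, h18⟩ := exists_y (cw v)
  have hn := norm_E3 hv
  have hs : normSq (cw v) = 1 - (v 2) ^ 2 := by
    rw [normSq_apply]
    simp [cw]
    linarith
  rw [hs] at h6 h12 h18
  set s := 1 - (v 2) ^ 2 with hsdef
  have hv2 : (v 2) ^ 2 = 1 - s := by rw [hsdef]; ring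
  have hs0 : 0 ≤ s := by nlinarith [sq_nonneg (v 0), sq_nonneg (v 1)]
  have hs1 : s ≤ 1 := by nlinarith [sq_nonneg (v 2)]
  have hpos := Fp_pos s y hs0 hs1 hy1 hy2
  have hv6 : (v 2) ^ 6 = (1 - s) ^ 3 := by rw [← hv2]; ring
  have hv12 : (v 2) ^ 12 = (1 - s) ^ 6 := by rw [← hv2]; ring
  have hv18 : (v 2) ^ 18 = (1 - s) ^ 9 := by rw [← hv2]; ring
  have hkey : bil v F0 F0 = -(Fp s y) := by
    rw [bil_F0 hv, bil_11 hv, bil_33 hv, bil_77 hv, bil_99 hv, h6, h12, h18, hv6, hv12, hv18, hv2]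
    have a1 := ca_sq
    have a2 := cb_sq
    have a3 := cc_sq
    have a4 := cd_sq
    unfold Fp
    linear_combination (2 * (1 - s) - 1) * a1 +
      (1/2) * (-s ^ 3 * y - (1 - s) ^ 3) * a2 +
      (1/2) * (-((14 * (1 - s) - 1) * (s ^ 6 * (2 * y ^ 2 - 1))) +
        (1 - s) ^ 6 * (14 * (1 - s) - 13)) * a3 +
      (1/2) * (-(-s ^ 9 * (4 * y ^ 3 - 3 * y)) - (1 - s) ^ 9) * a4
  rw [hkey]
  linarith

/-! ### oddness -/

lemma cw_neg (x : E3) : cw (-x) = -cw x := by
  simp [cw]; ring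
lemma cz_neg (x : E3) : cz (-x) = -cz x := by
  simp [cz]

lemma F0_neg (x : E3) : F0 (-x) = -F0 x := by
  have h1 : f1 (-x) = -f1 x := by rw [f1, P1, cz_neg, neg_re]; rfl
  have h3 : f3 (-x) = -f3 x := by
    rw [f3, P3, cw_neg, Odd.neg_pow (by decide), neg_re]; rfl
  have h7 : f7 (-x) = -f7 x := by
    rw [f7, P7, cw_neg, cz_neg, Even.neg_pow (by decide), f7, P7, ← neg_re]
    congr 1; ring
  have h9 : f9 (-x) = -f9 x := by
    rw [f9, P9, cw_neg, Odd.neg_pow (by decide), f9, P9, ← neg_re]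
    congr 1; ring
  rw [F0, F0, h1, h3, h7, h9]
  ring

lemma integral_F0 : ∫ x, F0 x ∂(sphP E3) = 0 := by
  have h := integral_invariant (LinearIsometryEquiv.neg ℝ : E3 ≃ₗᵢ[ℝ] E3) F0
  have h2 : ∫ x, F0 ((LinearIsometryEquiv.neg ℝ : E3 ≃ₗᵢ[ℝ] E3) x) ∂(sphP E3) =
      -∫ x, F0 x ∂(sphP E3) := by
    rw [← integral_neg]
    refine integral_congr_ae (ae_of_all _ fun x => ?_)
    simp only [LinearIsometryEquiv.coe_neg]
    exact F0_neg x
  linarith

/-- **Main theorem**: a measurable two-colouring of the two-sphere such that for every half turn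
each colour class meets its image in measure less than `1/4`. -/
theorem exists_bad_coloring : ∃ B : Set E3, MeasurableSet B ∧
    ∀ v : E3, ‖v‖ = 1 → ∀ ε : ℝ, ε ^ 2 = 1 →
      (sphP E3).real {x | sgn B x = ε ∧ sgn B (halfTurn v x) = ε} < 1 / 4 := by
  obtain ⟨K0, hK0⟩ := (isCompact_sphere (0 : E3) 1).exists_bound_of_continuousOn
    continuous_F0.continuousOn
  set K : ℝ := max K0 1 with hK
  have hKpos : 0 < K := lt_of_lt_of_le one_pos (le_max_right _ _)
  have hKb : ∀ x : E3, ‖x‖ = 1 → |F0 x| ≤ K := fun x hx =>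
    (hK0 x (by simpa using hx)).trans (le_max_left _ _)
  set ft : E3 → ℝ := fun x => max (-1) (min 1 (F0 x / K)) with hft
  have hftc : Continuous ft := by
    have := continuous_F0
    fun_prop
  have hft1 : ∀ x, |ft x| ≤ 1 := by
    intro x
    rw [abs_le]
    exact ⟨le_max_left _ _, max_le (by norm_num) (min_le_left _ _)⟩
  have hfte : ∀ x : E3, ‖x‖ = 1 → ft x = F0 x / K := by
    intro x hx
    have h := hKb x hx
    have h2 : |F0 x / K| ≤ 1 := by
      rw [abs_div, abs_of_pos hKpos, div_le_one hKpos]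
      exact h
    rw [abs_le] at h2
    simp only [hft]
    rw [min_eq_right h2.2, max_eq_right h2.1]
  set η : ℝ := 1 / (80 * K ^ 2) with hη
  have hη0 : 0 < η := by positivity
  obtain ⟨B, hB, hB1, hB2⟩ := exists_coloring (sphP E3) Tfun measurable_Tfun Tfun_level ft
    hftc.measurable hft1 halfTurns halfTurns_spec halfTurn_small η hη0
  refine ⟨B, hB, fun v hv ε hε => ?_⟩
  have hR : Continuous (halfTurn v) := continuous_halfTurn v
  have hRn : ∀ x : E3, ‖halfTurn v x‖ = ‖x‖ := fun x => by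
    rw [halfTurn_eq_reflection hv]; simp
  -- mean of sgn
  have hmean0 : ∫ x, ft x ∂(sphP E3) = 0 := by
    have : ∫ x, ft x ∂(sphP E3) = ∫ x, F0 x / K ∂(sphP E3) := by
      refine integral_congr_ae ?_
      filter_upwards [sphP_norm (E := E3)] with x hx using hfte x hx
    rw [this, integral_div, integral_F0, zero_div]
  have hsm := measurable_sgn hB
  have hsb : ∀ x, |sgn B x| ≤ 1 := fun x => (abs_sgn B x).le
  have is1 : Integrable (sgn B) (sphP E3) := integrable_of_bdd _ hsm hsb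
  have if1 : Integrable ft (sphP E3) := integrable_of_bdd _ hftc.measurable hft1
  have is2 : Integrable (fun x => sgn B (halfTurn v x)) (sphP E3) :=
    integrable_of_bdd _ (hsm.comp hR.measurable) fun x => hsb _
  have is3 : Integrable (fun x => sgn B x * sgn B (halfTurn v x)) (sphP E3) :=
    integrable_of_bdd _ (hsm.mul (hsm.comp hR.measurable)) (M := 1) fun x => by
      rw [abs_mul, abs_sgn, abs_sgn, one_mul]
  have hmean : |∫ x, sgn B x ∂(sphP E3)| ≤ η := by
    rw [integral_sub is1 if1, hmean0, sub_zero] at hB1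
    exact hB1
  have hcorr : ∫ x, sgn B x * sgn B (halfTurn v x) ∂(sphP E3) ≤ -(1 / (10 * K ^ 2)) + η := by
    have h := hB2 (halfTurn v) ⟨v, hv, rfl⟩
    have hff : ∫ x, ft x * ft (halfTurn v x) ∂(sphP E3) = (1 / K ^ 2) * bil v F0 F0 := by
      rw [bil, ← integral_const_mul]
      refine integral_congr_ae ?_
      filter_upwards [sphP_norm (E := E3)] with x hx
      rw [hfte x hx, hfte _ ((hRn x).trans hx)]
      field_simp
    rw [hff, abs_le] at h
    have hb := bil_F0_le hv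
    have hK2 : 0 < 1 / K ^ 2 := by positivity
    have : (1 / K ^ 2) * bil v F0 F0 ≤ (1 / K ^ 2) * (-(1/10)) :=
      mul_le_mul_of_nonneg_left hb hK2.le
    have e : (1 / K ^ 2) * (-(1/10)) = -(1 / (10 * K ^ 2)) := by
      field_simp
    rw [e] at this
    linarith [h.2]
  have hinv : ∫ x, sgn B (halfTurn v x) ∂(sphP E3) = ∫ x, sgn B x ∂(sphP E3) := by
    have h := integral_invariant (ℝ ∙ v).reflection (sgn B)
    simp only [← halfTurn_eq_reflection hv] at h
    exact h
  have hε' : ε = 1 ∨ ε = -1 := by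
    have : (ε - 1) * (ε + 1) = 0 := by linear_combination hε
    rcases mul_eq_zero.1 this with h | h
    · left; linarith
    · right; linarith
  have hTm : MeasurableSet {x | sgn B x = ε ∧ sgn B (halfTurn v x) = ε} :=
    (hsm (measurableSet_singleton ε)).inter ((hsm.comp hR.measurable) (measurableSet_singleton ε))
  have hind : ∀ x, ({x | sgn B x = ε ∧ sgn B (halfTurn v x) = ε} : Set E3).indicator
      (fun _ => (1:ℝ)) x = 1 / 4 * (1 + ε * sgn B x + ε * sgn B (halfTurn v x) +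
        sgn B x * sgn B (halfTurn v x)) := by
    intro x
    by_cases hx : x ∈ ({x | sgn B x = ε ∧ sgn B (halfTurn v x) = ε} : Set E3)
    · rw [indicator_of_mem hx, hx.1, hx.2]
      linear_combination (-3/4) * hε
    · rw [indicator_of_notMem hx]
      have hx' : ¬ (sgn B x = ε ∧ sgn B (halfTurn v x) = ε) := hx
      rcases sgn_or B x with h1 | h1 <;> rcases sgn_or B (halfTurn v x) with h2 | h2 <;>
        rcases hε' with h3 | h3 <;> rw [h1, h2, h3] at hx' ⊢ <;>
        first | (exfalso; exact hx' ⟨rfl, rfl⟩) | norm_num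
  have hreal : (sphP E3).real {x | sgn B x = ε ∧ sgn B (halfTurn v x) = ε} =
      1 / 4 * (1 + ε * (∫ x, sgn B x ∂(sphP E3)) + ε * (∫ x, sgn B x ∂(sphP E3)) +
        ∫ x, sgn B x * sgn B (halfTurn v x) ∂(sphP E3)) := by
    have e0 : (sphP E3).real {x | sgn B x = ε ∧ sgn B (halfTurn v x) = ε} =
        ∫ x, ({x | sgn B x = ε ∧ sgn B (halfTurn v x) = ε} : Set E3).indicator
          (fun _ => (1:ℝ)) x ∂(sphP E3) := by
      rw [integral_indicator hTm]
      simp
    rw [e0]
    simp_rw [hind]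
    rw [integral_const_mul]
    have j1 : Integrable (fun x => (1:ℝ) + ε * sgn B x) (sphP E3) :=
      (integrable_const _).add (is1.const_mul ε)
    have j2 : Integrable (fun x => (1:ℝ) + ε * sgn B x + ε * sgn B (halfTurn v x)) (sphP E3) :=
      j1.add (is2.const_mul ε)
    rw [integral_add j2 is3, integral_add j1 (is2.const_mul ε),
      integral_add (integrable_const _) (is1.const_mul ε), integral_const_mul,
      integral_const_mul, hinv]
    simp
  rw [hreal]
  have hm := abs_le.1 hmean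
  have hη' : 8 * η = 1 / (10 * K ^ 2) := by
    rw [hη]
    field_simp
    norm_num
  rcases hε' with h | h <;> rw [h] <;> linarith [hm.1, hm.2]

/-- the same statement in terms of colourings and isometries -/
theorem exists_bad_map : ∃ c : E3 → Fin 2, Measurable c ∧
    ∀ (i : Fin 2) (g : E3 ≃ₗᵢ[ℝ] E3) (A : Set E3), g ≠ LinearIsometryEquiv.refl ℝ E3 →
      (∀ x, g (g x) = x) → LinearMap.det (g.toLinearEquiv : E3 →ₗ[ℝ] E3) = 1 →
      (∀ x ∈ A, c x = i) → g '' A = A → (sphP E3) A < 1 / 4 := by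
  classical
  obtain ⟨B, hB, hB'⟩ := exists_bad_coloring
  refine ⟨fun x => if x ∈ B then 0 else 1, Measurable.ite hB measurable_const measurable_const, ?_⟩
  intro i g A hne hinv hdet hA hgA
  obtain ⟨v, hv, hg⟩ := exists_axis g hne hinv hdet
  obtain ⟨ε, hε, hεA⟩ : ∃ ε : ℝ, ε ^ 2 = 1 ∧ ∀ x ∈ A, sgn B x = ε := by
    fin_cases i
    · refine ⟨1, by norm_num, fun x hx => ?_⟩
      have h := hA x hx
      by_cases hxB : x ∈ B
      · exact sgn_mem hxB
      · simp [hxB] at h
    · refine ⟨-1, by norm_num, fun x hx => ?_⟩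
      have h := hA x hx
      by_cases hxB : x ∈ B
      · simp [hxB] at h
      · exact sgn_not_mem hxB
  have hsub : A ⊆ {x | sgn B x = ε ∧ sgn B (halfTurn v x) = ε} := by
    intro x hx
    refine ⟨hεA x hx, hεA _ ?_⟩
    rw [← hg x, ← hgA]
    exact mem_image_of_mem g hx
  have h1 := hB' v hv ε hε
  have h2 : (sphP E3) A ≤ (sphP E3) {x | sgn B x = ε ∧ sgn B (halfTurn v x) = ε} :=
    measure_mono hsub
  refine lt_of_le_of_lt h2 ?_
  rw [measureReal_def] at h1
  rw [← ENNReal.ofReal_toReal (measure_ne_top (sphP E3) _)]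
  have : (1 / 4 : ENNReal) = ENNReal.ofReal (1 / 4) := by
    rw [ENNReal.ofReal_div_of_pos (by norm_num)]
    norm_num
  rw [this]
  exact (ENNReal.ofReal_lt_ofReal_iff (by norm_num)).2 h1

end Pool.Agent.MP_be97b2_co
end
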