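import Mathlib
import Pool.Agent.Lib.MP_be97b2_co.SphereMeasure

section

set_option autoImplicit false

namespace Pool.Agent.MP_be97b2_co

/-- the bivariate polynomial governing the autocorrelation -/
noncomputable def Fp (s x : ℝ) : ℝ :=
  17 * (2 * s - 1) + 16 * ((1 - s) ^ 3 + s ^ 3 * x)
    + 5 * ((1 - s) ^ 6 * (13 - 14 * (1 - s)) + s ^ 6 * (13 - 14 * s) * (2 * x ^ 2 - 1))
    + 7 * ((1 - s) ^ 9 - s ^ 9 * (4 * x ^ 3 - 3 * x))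

lemma Fp_box0 (s x : ℝ) (h1 : 0 ≤ s) (h2 : s ≤ (1/4)) (h3 : (-1) ≤ x) (h4 : x ≤ (-3/4)) :
    1 / 10 ≤ Fp s x := by
  have e1 : 0 ≤ s - 0 := by linarith
  have e2 : 0 ≤ (1/4) - s := by linarith
  have e3 : 0 ≤ x - (-1) := by linarith
  have e4 : 0 ≤ (-3/4) - x := by linarith
  have key : Fp s x - 1 / 10 =
      (75497472/5) * ((s - 0) ^ 0 * ((1/4) - s) ^ 9 * ((x - (-1)) ^ 0 * ((-3/4) - x) ^ 3))
      + (226492416/5) * ((s - 0) ^ 0 * ((1/4) - s) ^ 9 * ((x - (-1)) ^ 1 * ((-3/4) - x) ^ 2))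
      + (226492416/5) * ((s - 0) ^ 0 * ((1/4) - s) ^ 9 * ((x - (-1)) ^ 2 * ((-3/4) - x) ^ 1))
      + (75497472/5) * ((s - 0) ^ 0 * ((1/4) - s) ^ 9 * ((x - (-1)) ^ 3 * ((-3/4) - x) ^ 0))
      + (1161822208/5) * ((s - 0) ^ 1 * ((1/4) - s) ^ 8 * ((x - (-1)) ^ 0 * ((-3/4) - x) ^ 3))
      + (3485466624/5) * ((s - 0) ^ 1 * ((1/4) - s) ^ 8 * ((x - (-1)) ^ 1 * ((-3/4) - x) ^ 2))
      + (3485466624/5) * ((s - 0) ^ 1 * ((1/4) - s) ^ 8 * ((x - (-1)) ^ 2 * ((-3/4) - x) ^ 1))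
      + (1161822208/5) * ((s - 0) ^ 1 * ((1/4) - s) ^ 8 * ((x - (-1)) ^ 3 * ((-3/4) - x) ^ 0))
      + (5554307072/5) * ((s - 0) ^ 2 * ((1/4) - s) ^ 7 * ((x - (-1)) ^ 0 * ((-3/4) - x) ^ 3))
      + (16662921216/5) * ((s - 0) ^ 2 * ((1/4) - s) ^ 7 * ((x - (-1)) ^ 1 * ((-3/4) - x) ^ 2))
      + (16662921216/5) * ((s - 0) ^ 2 * ((1/4) - s) ^ 7 * ((x - (-1)) ^ 2 * ((-3/4) - x) ^ 1))
      + (5554307072/5) * ((s - 0) ^ 2 * ((1/4) - s) ^ 7 * ((x - (-1)) ^ 3 * ((-3/4) - x) ^ 0))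
      + (13385596928/5) * ((s - 0) ^ 3 * ((1/4) - s) ^ 6 * ((x - (-1)) ^ 0 * ((-3/4) - x) ^ 3))
      + (40162033664/5) * ((s - 0) ^ 3 * ((1/4) - s) ^ 6 * ((x - (-1)) ^ 1 * ((-3/4) - x) ^ 2))
      + (40167276544/5) * ((s - 0) ^ 3 * ((1/4) - s) ^ 6 * ((x - (-1)) ^ 2 * ((-3/4) - x) ^ 1))
      + (13390839808/5) * ((s - 0) ^ 3 * ((1/4) - s) ^ 6 * ((x - (-1)) ^ 3 * ((-3/4) - x) ^ 0))
      + (19028180992/5) * ((s - 0) ^ 4 * ((1/4) - s) ^ 5 * ((x - (-1)) ^ 0 * ((-3/4) - x) ^ 3))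
      + (57116000256/5) * ((s - 0) ^ 4 * ((1/4) - s) ^ 5 * ((x - (-1)) ^ 1 * ((-3/4) - x) ^ 2))
      + (57147457536/5) * ((s - 0) ^ 4 * ((1/4) - s) ^ 5 * ((x - (-1)) ^ 2 * ((-3/4) - x) ^ 1))
      + (19059638272/5) * ((s - 0) ^ 4 * ((1/4) - s) ^ 5 * ((x - (-1)) ^ 3 * ((-3/4) - x) ^ 0))
      + (16959045632/5) * ((s - 0) ^ 5 * ((1/4) - s) ^ 4 * ((x - (-1)) ^ 0 * ((-3/4) - x) ^ 3))
      + (50955780096/5) * ((s - 0) ^ 5 * ((1/4) - s) ^ 4 * ((x - (-1)) ^ 1 * ((-3/4) - x) ^ 2))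
      + (51034423296/5) * ((s - 0) ^ 5 * ((1/4) - s) ^ 4 * ((x - (-1)) ^ 2 * ((-3/4) - x) ^ 1))
      + (17037688832/5) * ((s - 0) ^ 5 * ((1/4) - s) ^ 4 * ((x - (-1)) ^ 3 * ((-3/4) - x) ^ 0))
      + (9590489088/5) * ((s - 0) ^ 6 * ((1/4) - s) ^ 3 * ((x - (-1)) ^ 0 * ((-3/4) - x) ^ 3))
      + (28874993664/5) * ((s - 0) ^ 6 * ((1/4) - s) ^ 3 * ((x - (-1)) ^ 1 * ((-3/4) - x) ^ 2))
      + (28978686464/5) * ((s - 0) ^ 6 * ((1/4) - s) ^ 3 * ((x - (-1)) ^ 2 * ((-3/4) - x) ^ 1))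
      + (9694181888/5) * ((s - 0) ^ 6 * ((1/4) - s) ^ 3 * ((x - (-1)) ^ 3 * ((-3/4) - x) ^ 0))
      + (3341094912/5) * ((s - 0) ^ 7 * ((1/4) - s) ^ 2 * ((x - (-1)) ^ 0 * ((-3/4) - x) ^ 3))
      + (10098292736/5) * ((s - 0) ^ 7 * ((1/4) - s) ^ 2 * ((x - (-1)) ^ 1 * ((-3/4) - x) ^ 2))
      + (10173755136/5) * ((s - 0) ^ 7 * ((1/4) - s) ^ 2 * ((x - (-1)) ^ 2 * ((-3/4) - x) ^ 1))
      + (3416557312/5) * ((s - 0) ^ 7 * ((1/4) - s) ^ 2 * ((x - (-1)) ^ 3 * ((-3/4) - x) ^ 0))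
      + (654613248/5) * ((s - 0) ^ 8 * ((1/4) - s) ^ 1 * ((x - (-1)) ^ 0 * ((-3/4) - x) ^ 3))
      + (1992020224/5) * ((s - 0) ^ 8 * ((1/4) - s) ^ 1 * ((x - (-1)) ^ 1 * ((-3/4) - x) ^ 2))
      + (2020610304/5) * ((s - 0) ^ 8 * ((1/4) - s) ^ 1 * ((x - (-1)) ^ 2 * ((-3/4) - x) ^ 1))
      + (683203328/5) * ((s - 0) ^ 8 * ((1/4) - s) ^ 1 * ((x - (-1)) ^ 3 * ((-3/4) - x) ^ 0))
      + (55528192/5) * ((s - 0) ^ 9 * ((1/4) - s) ^ 0 * ((x - (-1)) ^ 0 * ((-3/4) - x) ^ 3))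
      + (170849616/5) * ((s - 0) ^ 9 * ((1/4) - s) ^ 0 * ((x - (-1)) ^ 1 * ((-3/4) - x) ^ 2))
      + (175237936/5) * ((s - 0) ^ 9 * ((1/4) - s) ^ 0 * ((x - (-1)) ^ 2 * ((-3/4) - x) ^ 1))
      + (59916372/5) * ((s - 0) ^ 9 * ((1/4) - s) ^ 0 * ((x - (-1)) ^ 3 * ((-3/4) - x) ^ 0)) := by
    unfold Fp
    ring
  have : 0 ≤ Fp s x - 1 / 10 := by
    rw [key]
    positivity
  linarith

lemma Fp_box1 (s x : ℝ) (h1 : 0 ≤ s) (h2 : s ≤ (1/2)) (h3 : (-3/4) ≤ x) (h4 : x ≤ (-1/2)) :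
    1 / 10 ≤ Fp s x := by
  have e1 : 0 ≤ s - 0 := by linarith
  have e2 : 0 ≤ (1/2) - s := by linarith
  have e3 : 0 ≤ x - (-3/4) := by linarith
  have e4 : 0 ≤ (-1/2) - x := by linarith
  have key : Fp s x - 1 / 10 =
      (147456/5) * ((s - 0) ^ 0 * ((1/2) - s) ^ 9 * ((x - (-3/4)) ^ 0 * ((-1/2) - x) ^ 3))
      + (442368/5) * ((s - 0) ^ 0 * ((1/2) - s) ^ 9 * ((x - (-3/4)) ^ 1 * ((-1/2) - x) ^ 2))
      + (442368/5) * ((s - 0) ^ 0 * ((1/2) - s) ^ 9 * ((x - (-3/4)) ^ 2 * ((-1/2) - x) ^ 1))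
      + (147456/5) * ((s - 0) ^ 0 * ((1/2) - s) ^ 9 * ((x - (-3/4)) ^ 3 * ((-1/2) - x) ^ 0))
      + (3211264/5) * ((s - 0) ^ 1 * ((1/2) - s) ^ 8 * ((x - (-3/4)) ^ 0 * ((-1/2) - x) ^ 3))
      + (9633792/5) * ((s - 0) ^ 1 * ((1/2) - s) ^ 8 * ((x - (-3/4)) ^ 1 * ((-1/2) - x) ^ 2))
      + (9633792/5) * ((s - 0) ^ 1 * ((1/2) - s) ^ 8 * ((x - (-3/4)) ^ 2 * ((-1/2) - x) ^ 1))
      + (3211264/5) * ((s - 0) ^ 1 * ((1/2) - s) ^ 8 * ((x - (-3/4)) ^ 3 * ((-1/2) - x) ^ 0))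
      + (12394496/5) * ((s - 0) ^ 2 * ((1/2) - s) ^ 7 * ((x - (-3/4)) ^ 0 * ((-1/2) - x) ^ 3))
      + (37183488/5) * ((s - 0) ^ 2 * ((1/2) - s) ^ 7 * ((x - (-3/4)) ^ 1 * ((-1/2) - x) ^ 2))
      + (37183488/5) * ((s - 0) ^ 2 * ((1/2) - s) ^ 7 * ((x - (-3/4)) ^ 2 * ((-1/2) - x) ^ 1))
      + (12394496/5) * ((s - 0) ^ 2 * ((1/2) - s) ^ 7 * ((x - (-3/4)) ^ 3 * ((-1/2) - x) ^ 0))
      + (20168704/5) * ((s - 0) ^ 3 * ((1/2) - s) ^ 6 * ((x - (-3/4)) ^ 0 * ((-1/2) - x) ^ 3))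
      + (60588032/5) * ((s - 0) ^ 3 * ((1/2) - s) ^ 6 * ((x - (-3/4)) ^ 1 * ((-1/2) - x) ^ 2))
      + (60669952/5) * ((s - 0) ^ 3 * ((1/2) - s) ^ 6 * ((x - (-3/4)) ^ 2 * ((-1/2) - x) ^ 1))
      + (20250624/5) * ((s - 0) ^ 3 * ((1/2) - s) ^ 6 * ((x - (-3/4)) ^ 3 * ((-1/2) - x) ^ 0))
      + (15906816/5) * ((s - 0) ^ 4 * ((1/2) - s) ^ 5 * ((x - (-3/4)) ^ 0 * ((-1/2) - x) ^ 3))
      + (48211968/5) * ((s - 0) ^ 4 * ((1/2) - s) ^ 5 * ((x - (-3/4)) ^ 1 * ((-1/2) - x) ^ 2))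
      + (48703488/5) * ((s - 0) ^ 4 * ((1/2) - s) ^ 5 * ((x - (-3/4)) ^ 2 * ((-1/2) - x) ^ 1))
      + (16398336/5) * ((s - 0) ^ 4 * ((1/2) - s) ^ 5 * ((x - (-3/4)) ^ 3 * ((-1/2) - x) ^ 0))
      + (5615616/5) * ((s - 0) ^ 5 * ((1/2) - s) ^ 4 * ((x - (-3/4)) ^ 0 * ((-1/2) - x) ^ 3))
      + (18075648/5) * ((s - 0) ^ 5 * ((1/2) - s) ^ 4 * ((x - (-3/4)) ^ 1 * ((-1/2) - x) ^ 2))
      + (19304448/5) * ((s - 0) ^ 5 * ((1/2) - s) ^ 4 * ((x - (-3/4)) ^ 2 * ((-1/2) - x) ^ 1))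
      + (6844416/5) * ((s - 0) ^ 5 * ((1/2) - s) ^ 4 * ((x - (-3/4)) ^ 3 * ((-1/2) - x) ^ 0))
      + (843584/5) * ((s - 0) ^ 6 * ((1/2) - s) ^ 3 * ((x - (-3/4)) ^ 0 * ((-1/2) - x) ^ 3))
      + (4044352/5) * ((s - 0) ^ 6 * ((1/2) - s) ^ 3 * ((x - (-3/4)) ^ 1 * ((-1/2) - x) ^ 2))
      + (5578752/5) * ((s - 0) ^ 6 * ((1/2) - s) ^ 3 * ((x - (-3/4)) ^ 2 * ((-1/2) - x) ^ 1))
      + (2377984/5) * ((s - 0) ^ 6 * ((1/2) - s) ^ 3 * ((x - (-3/4)) ^ 3 * ((-1/2) - x) ^ 0))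
      + (807936/5) * ((s - 0) ^ 7 * ((1/2) - s) ^ 2 * ((x - (-3/4)) ^ 0 * ((-1/2) - x) ^ 3))
      + (3345408/5) * ((s - 0) ^ 7 * ((1/2) - s) ^ 2 * ((x - (-3/4)) ^ 1 * ((-1/2) - x) ^ 2))
      + (4318208/5) * ((s - 0) ^ 7 * ((1/2) - s) ^ 2 * ((x - (-3/4)) ^ 2 * ((-1/2) - x) ^ 1))
      + (1780736/5) * ((s - 0) ^ 7 * ((1/2) - s) ^ 2 * ((x - (-3/4)) ^ 3 * ((-1/2) - x) ^ 0))
      + (667584/5) * ((s - 0) ^ 8 * ((1/2) - s) ^ 1 * ((x - (-3/4)) ^ 0 * ((-1/2) - x) ^ 3))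
      + (2254272/5) * ((s - 0) ^ 8 * ((1/2) - s) ^ 1 * ((x - (-3/4)) ^ 1 * ((-1/2) - x) ^ 2))
      + (2545792/5) * ((s - 0) ^ 8 * ((1/2) - s) ^ 1 * ((x - (-3/4)) ^ 2 * ((-1/2) - x) ^ 1))
      + (959104/5) * ((s - 0) ^ 8 * ((1/2) - s) ^ 1 * ((x - (-3/4)) ^ 3 * ((-1/2) - x) ^ 0))
      + (152916/5) * ((s - 0) ^ 9 * ((1/2) - s) ^ 0 * ((x - (-3/4)) ^ 0 * ((-1/2) - x) ^ 3))
      + (480968/5) * ((s - 0) ^ 9 * ((1/2) - s) ^ 0 * ((x - (-3/4)) ^ 1 * ((-1/2) - x) ^ 2))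
      + (514048/5) * ((s - 0) ^ 9 * ((1/2) - s) ^ 0 * ((x - (-3/4)) ^ 2 * ((-1/2) - x) ^ 1))
      + (185856/5) * ((s - 0) ^ 9 * ((1/2) - s) ^ 0 * ((x - (-3/4)) ^ 3 * ((-1/2) - x) ^ 0)) := by
    unfold Fp
    ring
  have : 0 ≤ Fp s x - 1 / 10 := by
    rw [key]
    positivity
  linarith

lemma Fp_box2 (s x : ℝ) (h1 : 0 ≤ s) (h2 : s ≤ (1/2)) (h3 : (-1/2) ≤ x) (h4 : x ≤ 0) :
    1 / 10 ≤ Fp s x := by
  have e1 : 0 ≤ s - 0 := by linarith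
  have e2 : 0 ≤ (1/2) - s := by linarith
  have e3 : 0 ≤ x - (-1/2) := by linarith
  have e4 : 0 ≤ 0 - x := by linarith
  have key : Fp s x - 1 / 10 =
      (18432/5) * ((s - 0) ^ 0 * ((1/2) - s) ^ 9 * ((x - (-1/2)) ^ 0 * (0 - x) ^ 3))
      + (55296/5) * ((s - 0) ^ 0 * ((1/2) - s) ^ 9 * ((x - (-1/2)) ^ 1 * (0 - x) ^ 2))
      + (55296/5) * ((s - 0) ^ 0 * ((1/2) - s) ^ 9 * ((x - (-1/2)) ^ 2 * (0 - x) ^ 1))
      + (18432/5) * ((s - 0) ^ 0 * ((1/2) - s) ^ 9 * ((x - (-1/2)) ^ 3 * (0 - x) ^ 0))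
      + (401408/5) * ((s - 0) ^ 1 * ((1/2) - s) ^ 8 * ((x - (-1/2)) ^ 0 * (0 - x) ^ 3))
      + (1204224/5) * ((s - 0) ^ 1 * ((1/2) - s) ^ 8 * ((x - (-1/2)) ^ 1 * (0 - x) ^ 2))
      + (1204224/5) * ((s - 0) ^ 1 * ((1/2) - s) ^ 8 * ((x - (-1/2)) ^ 2 * (0 - x) ^ 1))
      + (401408/5) * ((s - 0) ^ 1 * ((1/2) - s) ^ 8 * ((x - (-1/2)) ^ 3 * (0 - x) ^ 0))
      + (1549312/5) * ((s - 0) ^ 2 * ((1/2) - s) ^ 7 * ((x - (-1/2)) ^ 0 * (0 - x) ^ 3))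
      + (4647936/5) * ((s - 0) ^ 2 * ((1/2) - s) ^ 7 * ((x - (-1/2)) ^ 1 * (0 - x) ^ 2))
      + (4647936/5) * ((s - 0) ^ 2 * ((1/2) - s) ^ 7 * ((x - (-1/2)) ^ 2 * (0 - x) ^ 1))
      + (1549312/5) * ((s - 0) ^ 2 * ((1/2) - s) ^ 7 * ((x - (-1/2)) ^ 3 * (0 - x) ^ 0))
      + (2531328/5) * ((s - 0) ^ 3 * ((1/2) - s) ^ 6 * ((x - (-1/2)) ^ 0 * (0 - x) ^ 3))
      + (7614464/5) * ((s - 0) ^ 3 * ((1/2) - s) ^ 6 * ((x - (-1/2)) ^ 1 * (0 - x) ^ 2))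
      + (7634944/5) * ((s - 0) ^ 3 * ((1/2) - s) ^ 6 * ((x - (-1/2)) ^ 2 * (0 - x) ^ 1))
      + (2551808/5) * ((s - 0) ^ 3 * ((1/2) - s) ^ 6 * ((x - (-1/2)) ^ 3 * (0 - x) ^ 0))
      + (2049792/5) * ((s - 0) ^ 4 * ((1/2) - s) ^ 5 * ((x - (-1/2)) ^ 0 * (0 - x) ^ 3))
      + (6272256/5) * ((s - 0) ^ 4 * ((1/2) - s) ^ 5 * ((x - (-1/2)) ^ 1 * (0 - x) ^ 2))
      + (6395136/5) * ((s - 0) ^ 4 * ((1/2) - s) ^ 5 * ((x - (-1/2)) ^ 2 * (0 - x) ^ 1))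
      + (2172672/5) * ((s - 0) ^ 4 * ((1/2) - s) ^ 5 * ((x - (-1/2)) ^ 3 * (0 - x) ^ 0))
      + (855552/5) * ((s - 0) ^ 5 * ((1/2) - s) ^ 4 * ((x - (-1/2)) ^ 0 * (0 - x) ^ 3))
      + (2873856/5) * ((s - 0) ^ 5 * ((1/2) - s) ^ 4 * ((x - (-1/2)) ^ 1 * (0 - x) ^ 2))
      + (3181056/5) * ((s - 0) ^ 5 * ((1/2) - s) ^ 4 * ((x - (-1/2)) ^ 2 * (0 - x) ^ 1))
      + (1162752/5) * ((s - 0) ^ 5 * ((1/2) - s) ^ 4 * ((x - (-1/2)) ^ 3 * (0 - x) ^ 0))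
      + (297248/5) * ((s - 0) ^ 6 * ((1/2) - s) ^ 3 * ((x - (-1/2)) ^ 0 * (0 - x) ^ 3))
      + (1280544/5) * ((s - 0) ^ 6 * ((1/2) - s) ^ 3 * ((x - (-1/2)) ^ 1 * (0 - x) ^ 2))
      + (1679744/5) * ((s - 0) ^ 6 * ((1/2) - s) ^ 3 * ((x - (-1/2)) ^ 2 * (0 - x) ^ 1))
      + (696448/5) * ((s - 0) ^ 6 * ((1/2) - s) ^ 3 * ((x - (-1/2)) ^ 3 * (0 - x) ^ 0))
      + (222592/5) * ((s - 0) ^ 7 * ((1/2) - s) ^ 2 * ((x - (-1/2)) ^ 0 * (0 - x) ^ 3))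
      + (923776/5) * ((s - 0) ^ 7 * ((1/2) - s) ^ 2 * ((x - (-1/2)) ^ 1 * (0 - x) ^ 2))
      + (1205376/5) * ((s - 0) ^ 7 * ((1/2) - s) ^ 2 * ((x - (-1/2)) ^ 2 * (0 - x) ^ 1))
      + (504192/5) * ((s - 0) ^ 7 * ((1/2) - s) ^ 2 * ((x - (-1/2)) ^ 3 * (0 - x) ^ 0))
      + (119888/5) * ((s - 0) ^ 8 * ((1/2) - s) ^ 1 * ((x - (-1/2)) ^ 0 * (0 - x) ^ 3))
      + (442544/5) * ((s - 0) ^ 8 * ((1/2) - s) ^ 1 * ((x - (-1/2)) ^ 1 * (0 - x) ^ 2))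
      + (545424/5) * ((s - 0) ^ 8 * ((1/2) - s) ^ 1 * ((x - (-1/2)) ^ 2 * (0 - x) ^ 1))
      + (222768/5) * ((s - 0) ^ 8 * ((1/2) - s) ^ 1 * ((x - (-1/2)) ^ 3 * (0 - x) ^ 0))
      + (23232/5) * ((s - 0) ^ 9 * ((1/2) - s) ^ 0 * ((x - (-1/2)) ^ 0 * (0 - x) ^ 3))
      + (80576/5) * ((s - 0) ^ 9 * ((1/2) - s) ^ 0 * ((x - (-1/2)) ^ 1 * (0 - x) ^ 2))
      + (96676/5) * ((s - 0) ^ 9 * ((1/2) - s) ^ 0 * ((x - (-1/2)) ^ 2 * (0 - x) ^ 1))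
      + (39192/5) * ((s - 0) ^ 9 * ((1/2) - s) ^ 0 * ((x - (-1/2)) ^ 3 * (0 - x) ^ 0)) := by
    unfold Fp
    ring
  have : 0 ≤ Fp s x - 1 / 10 := by
    rw [key]
    positivity
  linarith

lemma Fp_box3 (s x : ℝ) (h1 : 0 ≤ s) (h2 : s ≤ (1/2)) (h3 : 0 ≤ x) (h4 : x ≤ 1) :
    1 / 10 ≤ Fp s x := by
  have e1 : 0 ≤ s - 0 := by linarith
  have e2 : 0 ≤ (1/2) - s := by linarith
  have e3 : 0 ≤ x - 0 := by linarith
  have e4 : 0 ≤ 1 - x := by linarith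
  have key : Fp s x - 1 / 10 =
      (2304/5) * ((s - 0) ^ 0 * ((1/2) - s) ^ 9 * ((x - 0) ^ 0 * (1 - x) ^ 3))
      + (6912/5) * ((s - 0) ^ 0 * ((1/2) - s) ^ 9 * ((x - 0) ^ 1 * (1 - x) ^ 2))
      + (6912/5) * ((s - 0) ^ 0 * ((1/2) - s) ^ 9 * ((x - 0) ^ 2 * (1 - x) ^ 1))
      + (2304/5) * ((s - 0) ^ 0 * ((1/2) - s) ^ 9 * ((x - 0) ^ 3 * (1 - x) ^ 0))
      + (50176/5) * ((s - 0) ^ 1 * ((1/2) - s) ^ 8 * ((x - 0) ^ 0 * (1 - x) ^ 3))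
      + (150528/5) * ((s - 0) ^ 1 * ((1/2) - s) ^ 8 * ((x - 0) ^ 1 * (1 - x) ^ 2))
      + (150528/5) * ((s - 0) ^ 1 * ((1/2) - s) ^ 8 * ((x - 0) ^ 2 * (1 - x) ^ 1))
      + (50176/5) * ((s - 0) ^ 1 * ((1/2) - s) ^ 8 * ((x - 0) ^ 3 * (1 - x) ^ 0))
      + (193664/5) * ((s - 0) ^ 2 * ((1/2) - s) ^ 7 * ((x - 0) ^ 0 * (1 - x) ^ 3))
      + (580992/5) * ((s - 0) ^ 2 * ((1/2) - s) ^ 7 * ((x - 0) ^ 1 * (1 - x) ^ 2))
      + (580992/5) * ((s - 0) ^ 2 * ((1/2) - s) ^ 7 * ((x - 0) ^ 2 * (1 - x) ^ 1))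
      + (193664/5) * ((s - 0) ^ 2 * ((1/2) - s) ^ 7 * ((x - 0) ^ 3 * (1 - x) ^ 0))
      + (318976/5) * ((s - 0) ^ 3 * ((1/2) - s) ^ 6 * ((x - 0) ^ 0 * (1 - x) ^ 3))
      + (962048/5) * ((s - 0) ^ 3 * ((1/2) - s) ^ 6 * ((x - 0) ^ 1 * (1 - x) ^ 2))
      + (967168/5) * ((s - 0) ^ 3 * ((1/2) - s) ^ 6 * ((x - 0) ^ 2 * (1 - x) ^ 1))
      + (324096/5) * ((s - 0) ^ 3 * ((1/2) - s) ^ 6 * ((x - 0) ^ 3 * (1 - x) ^ 0))
      + (271584/5) * ((s - 0) ^ 4 * ((1/2) - s) ^ 5 * ((x - 0) ^ 0 * (1 - x) ^ 3))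
      + (845472/5) * ((s - 0) ^ 4 * ((1/2) - s) ^ 5 * ((x - 0) ^ 1 * (1 - x) ^ 2))
      + (876192/5) * ((s - 0) ^ 4 * ((1/2) - s) ^ 5 * ((x - 0) ^ 2 * (1 - x) ^ 1))
      + (302304/5) * ((s - 0) ^ 4 * ((1/2) - s) ^ 5 * ((x - 0) ^ 3 * (1 - x) ^ 0))
      + (145344/5) * ((s - 0) ^ 5 * ((1/2) - s) ^ 4 * ((x - 0) ^ 0 * (1 - x) ^ 3))
      + (512832/5) * ((s - 0) ^ 5 * ((1/2) - s) ^ 4 * ((x - 0) ^ 1 * (1 - x) ^ 2))
      + (589632/5) * ((s - 0) ^ 5 * ((1/2) - s) ^ 4 * ((x - 0) ^ 2 * (1 - x) ^ 1))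
      + (222144/5) * ((s - 0) ^ 5 * ((1/2) - s) ^ 4 * ((x - 0) ^ 3 * (1 - x) ^ 0))
      + (87056/5) * ((s - 0) ^ 6 * ((1/2) - s) ^ 3 * ((x - 0) ^ 0 * (1 - x) ^ 3))
      + (363568/5) * ((s - 0) ^ 6 * ((1/2) - s) ^ 3 * ((x - 0) ^ 1 * (1 - x) ^ 2))
      + (471168/5) * ((s - 0) ^ 6 * ((1/2) - s) ^ 3 * ((x - 0) ^ 2 * (1 - x) ^ 1))
      + (194656/5) * ((s - 0) ^ 6 * ((1/2) - s) ^ 3 * ((x - 0) ^ 3 * (1 - x) ^ 0))
      + (63024/5) * ((s - 0) ^ 7 * ((1/2) - s) ^ 2 * ((x - 0) ^ 0 * (1 - x) ^ 3))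
      + (265872/5) * ((s - 0) ^ 7 * ((1/2) - s) ^ 2 * ((x - 0) ^ 1 * (1 - x) ^ 2))
      + (355472/5) * ((s - 0) ^ 7 * ((1/2) - s) ^ 2 * ((x - 0) ^ 2 * (1 - x) ^ 1))
      + (152624/5) * ((s - 0) ^ 7 * ((1/2) - s) ^ 2 * ((x - 0) ^ 3 * (1 - x) ^ 0))
      + (27846/5) * ((s - 0) ^ 8 * ((1/2) - s) ^ 1 * ((x - 0) ^ 0 * (1 - x) ^ 3))
      + (114258/5) * ((s - 0) ^ 8 * ((1/2) - s) ^ 1 * ((x - 0) ^ 1 * (1 - x) ^ 2))
      + (154978/5) * ((s - 0) ^ 8 * ((1/2) - s) ^ 1 * ((x - 0) ^ 2 * (1 - x) ^ 1))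
      + (68566/5) * ((s - 0) ^ 8 * ((1/2) - s) ^ 1 * ((x - 0) ^ 3 * (1 - x) ^ 0))
      + (4899/5) * ((s - 0) ^ 9 * ((1/2) - s) ^ 0 * ((x - 0) ^ 0 * (1 - x) ^ 3))
      + (19922/5) * ((s - 0) ^ 9 * ((1/2) - s) ^ 0 * ((x - 0) ^ 1 * (1 - x) ^ 2))
      + (27547/5) * ((s - 0) ^ 9 * ((1/2) - s) ^ 0 * ((x - 0) ^ 2 * (1 - x) ^ 1))
      + (12384/5) * ((s - 0) ^ 9 * ((1/2) - s) ^ 0 * ((x - 0) ^ 3 * (1 - x) ^ 0)) := by
    unfold Fp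
    ring
  have : 0 ≤ Fp s x - 1 / 10 := by
    rw [key]
    positivity
  linarith

lemma Fp_box4 (s x : ℝ) (h1 : (1/4) ≤ s) (h2 : s ≤ (1/2)) (h3 : (-1) ≤ x) (h4 : x ≤ (-3/4)) :
    1 / 10 ≤ Fp s x := by
  have e1 : 0 ≤ s - (1/4) := by linarith
  have e2 : 0 ≤ (1/2) - s := by linarith
  have e3 : 0 ≤ x - (-1) := by linarith
  have e4 : 0 ≤ (-3/4) - x := by linarith
  have key : Fp s x - 1 / 10 =
      (55528192/5) * ((s - (1/4)) ^ 0 * ((1/2) - s) ^ 9 * ((x - (-1)) ^ 0 * ((-3/4) - x) ^ 3))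
      + (170849616/5) * ((s - (1/4)) ^ 0 * ((1/2) - s) ^ 9 * ((x - (-1)) ^ 1 * ((-3/4) - x) ^ 2))
      + (175237936/5) * ((s - (1/4)) ^ 0 * ((1/2) - s) ^ 9 * ((x - (-1)) ^ 2 * ((-3/4) - x) ^ 1))
      + (59916372/5) * ((s - (1/4)) ^ 0 * ((1/2) - s) ^ 9 * ((x - (-1)) ^ 3 * ((-3/4) - x) ^ 0))
      + (344894208/5) * ((s - (1/4)) ^ 1 * ((1/2) - s) ^ 8 * ((x - (-1)) ^ 0 * ((-3/4) - x) ^ 3))
      + (1083272864/5) * ((s - (1/4)) ^ 1 * ((1/2) - s) ^ 8 * ((x - (-1)) ^ 1 * ((-3/4) - x) ^ 2))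
      + (1133672544/5) * ((s - (1/4)) ^ 1 * ((1/2) - s) ^ 8 * ((x - (-1)) ^ 2 * ((-3/4) - x) ^ 1))
      + (395291368/5) * ((s - (1/4)) ^ 1 * ((1/2) - s) ^ 8 * ((x - (-1)) ^ 3 * ((-3/4) - x) ^ 0))
      + (863342592/5) * ((s - (1/4)) ^ 2 * ((1/2) - s) ^ 7 * ((x - (-1)) ^ 0 * ((-3/4) - x) ^ 3))
      + (2828313856/5) * ((s - (1/4)) ^ 2 * ((1/2) - s) ^ 7 * ((x - (-1)) ^ 1 * ((-3/4) - x) ^ 2))
      + (3078253056/5) * ((s - (1/4)) ^ 2 * ((1/2) - s) ^ 7 * ((x - (-1)) ^ 2 * ((-3/4) - x) ^ 1))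
      + (1113261632/5) * ((s - (1/4)) ^ 2 * ((1/2) - s) ^ 7 * ((x - (-1)) ^ 3 * ((-3/4) - x) ^ 0))
      + (1183100928/5) * ((s - (1/4)) ^ 3 * ((1/2) - s) ^ 6 * ((x - (-1)) ^ 0 * ((-3/4) - x) ^ 3))
      + (4205781504/5) * ((s - (1/4)) ^ 3 * ((1/2) - s) ^ 6 * ((x - (-1)) ^ 1 * ((-3/4) - x) ^ 2))
      + (4905424384/5) * ((s - (1/4)) ^ 3 * ((1/2) - s) ^ 6 * ((x - (-1)) ^ 2 * ((-3/4) - x) ^ 1))
      + (1882649728/5) * ((s - (1/4)) ^ 3 * ((1/2) - s) ^ 6 * ((x - (-1)) ^ 3 * ((-3/4) - x) ^ 0))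
      + (1203249152/5) * ((s - (1/4)) ^ 4 * ((1/2) - s) ^ 5 * ((x - (-1)) ^ 0 * ((-3/4) - x) ^ 3))
      + (4720211456/5) * ((s - (1/4)) ^ 4 * ((1/2) - s) ^ 5 * ((x - (-1)) ^ 1 * ((-3/4) - x) ^ 2))
      + (5931879936/5) * ((s - (1/4)) ^ 4 * ((1/2) - s) ^ 5 * ((x - (-1)) ^ 2 * ((-3/4) - x) ^ 1))
      + (2414635392/5) * ((s - (1/4)) ^ 4 * ((1/2) - s) ^ 5 * ((x - (-1)) ^ 3 * ((-3/4) - x) ^ 0))
      + (1362337792/5) * ((s - (1/4)) ^ 5 * ((1/2) - s) ^ 4 * ((x - (-1)) ^ 0 * ((-3/4) - x) ^ 3))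
      + (5267147776/5) * ((s - (1/4)) ^ 5 * ((1/2) - s) ^ 4 * ((x - (-1)) ^ 1 * ((-3/4) - x) ^ 2))
      + (6602843136/5) * ((s - (1/4)) ^ 5 * ((1/2) - s) ^ 4 * ((x - (-1)) ^ 2 * ((-3/4) - x) ^ 1))
      + (2697468672/5) * ((s - (1/4)) ^ 5 * ((1/2) - s) ^ 4 * ((x - (-1)) ^ 3 * ((-3/4) - x) ^ 0))
      + (1509490688/5) * ((s - (1/4)) ^ 6 * ((1/2) - s) ^ 3 * ((x - (-1)) ^ 0 * ((-3/4) - x) ^ 3))
      + (5297475584/5) * ((s - (1/4)) ^ 6 * ((1/2) - s) ^ 3 * ((x - (-1)) ^ 1 * ((-3/4) - x) ^ 2))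
      + (6223069184/5) * ((s - (1/4)) ^ 6 * ((1/2) - s) ^ 3 * ((x - (-1)) ^ 2 * ((-3/4) - x) ^ 1))
      + (2434331648/5) * ((s - (1/4)) ^ 6 * ((1/2) - s) ^ 3 * ((x - (-1)) ^ 3 * ((-3/4) - x) ^ 0))
      + (1111949312/5) * ((s - (1/4)) ^ 7 * ((1/2) - s) ^ 2 * ((x - (-1)) ^ 0 * ((-3/4) - x) ^ 3))
      + (3616710656/5) * ((s - (1/4)) ^ 7 * ((1/2) - s) ^ 2 * ((x - (-1)) ^ 1 * ((-3/4) - x) ^ 2))
      + (3997065216/5) * ((s - (1/4)) ^ 7 * ((1/2) - s) ^ 2 * ((x - (-1)) ^ 2 * ((-3/4) - x) ^ 1))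
      + (1491658752/5) * ((s - (1/4)) ^ 7 * ((1/2) - s) ^ 2 * ((x - (-1)) ^ 3 * ((-3/4) - x) ^ 0))
      + (443219968/5) * ((s - (1/4)) ^ 8 * ((1/2) - s) ^ 1 * ((x - (-1)) ^ 0 * ((-3/4) - x) ^ 3))
      + (1373753344/5) * ((s - (1/4)) ^ 8 * ((1/2) - s) ^ 1 * ((x - (-1)) ^ 1 * ((-3/4) - x) ^ 2))
      + (1454075904/5) * ((s - (1/4)) ^ 8 * ((1/2) - s) ^ 1 * ((x - (-1)) ^ 2 * ((-3/4) - x) ^ 1))
      + (523219968/5) * ((s - (1/4)) ^ 8 * ((1/2) - s) ^ 1 * ((x - (-1)) ^ 3 * ((-3/4) - x) ^ 0))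
      + (72548352/5) * ((s - (1/4)) ^ 9 * ((1/2) - s) ^ 0 * ((x - (-1)) ^ 0 * ((-3/4) - x) ^ 3))
      + (217686016/5) * ((s - (1/4)) ^ 9 * ((1/2) - s) ^ 0 * ((x - (-1)) ^ 1 * ((-3/4) - x) ^ 2))
      + (223502336/5) * ((s - (1/4)) ^ 9 * ((1/2) - s) ^ 0 * ((x - (-1)) ^ 2 * ((-3/4) - x) ^ 1))
      + (78292992/5) * ((s - (1/4)) ^ 9 * ((1/2) - s) ^ 0 * ((x - (-1)) ^ 3 * ((-3/4) - x) ^ 0)) := by
    unfold Fp
    ring
  have : 0 ≤ Fp s x - 1 / 10 := by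
    rw [key]
    positivity
  linarith

lemma Fp_box5 (s x : ℝ) (h1 : (1/2) ≤ s) (h2 : s ≤ 1) (h3 : (-1) ≤ x) (h4 : x ≤ (-7/8)) :
    1 / 10 ≤ Fp s x := by
  have e1 : 0 ≤ s - (1/2) := by linarith
  have e2 : 0 ≤ 1 - s := by linarith
  have e3 : 0 ≤ x - (-1) := by linarith
  have e4 : 0 ≤ (-7/8) - x := by linarith
  have key : Fp s x - 1 / 10 =
      (1133568/5) * ((s - (1/2)) ^ 0 * (1 - s) ^ 9 * ((x - (-1)) ^ 0 * ((-7/8) - x) ^ 3))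
      + (3401024/5) * ((s - (1/2)) ^ 0 * (1 - s) ^ 9 * ((x - (-1)) ^ 1 * ((-7/8) - x) ^ 2))
      + (3423904/5) * ((s - (1/2)) ^ 0 * (1 - s) ^ 9 * ((x - (-1)) ^ 2 * ((-7/8) - x) ^ 1))
      + (1156308/5) * ((s - (1/2)) ^ 0 * (1 - s) ^ 9 * ((x - (-1)) ^ 3 * ((-7/8) - x) ^ 0))
      + (16755712/5) * ((s - (1/2)) ^ 1 * (1 - s) ^ 8 * ((x - (-1)) ^ 0 * ((-7/8) - x) ^ 3))
      + (49586816/5) * ((s - (1/2)) ^ 1 * (1 - s) ^ 8 * ((x - (-1)) ^ 1 * ((-7/8) - x) ^ 2))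
      + (49232576/5) * ((s - (1/2)) ^ 1 * (1 - s) ^ 8 * ((x - (-1)) ^ 2 * ((-7/8) - x) ^ 1))
      + (16398952/5) * ((s - (1/2)) ^ 1 * (1 - s) ^ 8 * ((x - (-1)) ^ 3 * ((-7/8) - x) ^ 0))
      + (104357888/5) * ((s - (1/2)) ^ 2 * (1 - s) ^ 7 * ((x - (-1)) ^ 0 * ((-7/8) - x) ^ 3))
      + (305419264/5) * ((s - (1/2)) ^ 2 * (1 - s) ^ 7 * ((x - (-1)) ^ 1 * ((-7/8) - x) ^ 2))
      + (299835904/5) * ((s - (1/2)) ^ 2 * (1 - s) ^ 7 * ((x - (-1)) ^ 2 * ((-7/8) - x) ^ 1))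
      + (98754368/5) * ((s - (1/2)) ^ 2 * (1 - s) ^ 7 * ((x - (-1)) ^ 3 * ((-7/8) - x) ^ 0))
      + (351322112/5) * ((s - (1/2)) ^ 3 * (1 - s) ^ 6 * ((x - (-1)) ^ 0 * ((-7/8) - x) ^ 3))
      + (1017327616/5) * ((s - (1/2)) ^ 3 * (1 - s) ^ 6 * ((x - (-1)) ^ 1 * ((-7/8) - x) ^ 2))
      + (988281216/5) * ((s - (1/2)) ^ 3 * (1 - s) ^ 6 * ((x - (-1)) ^ 2 * ((-7/8) - x) ^ 1))
      + (322181632/5) * ((s - (1/2)) ^ 3 * (1 - s) ^ 6 * ((x - (-1)) ^ 3 * ((-7/8) - x) ^ 0))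
      + (706183168/5) * ((s - (1/2)) ^ 4 * (1 - s) ^ 5 * ((x - (-1)) ^ 0 * ((-7/8) - x) ^ 3))
      + (2021341184/5) * ((s - (1/2)) ^ 4 * (1 - s) ^ 5 * ((x - (-1)) ^ 1 * ((-7/8) - x) ^ 2))
      + (1941876224/5) * ((s - (1/2)) ^ 4 * (1 - s) ^ 5 * ((x - (-1)) ^ 2 * ((-7/8) - x) ^ 1))
      + (626435968/5) * ((s - (1/2)) ^ 4 * (1 - s) ^ 5 * ((x - (-1)) ^ 3 * ((-7/8) - x) ^ 0))
      + (883539968/5) * ((s - (1/2)) ^ 5 * (1 - s) ^ 4 * ((x - (-1)) ^ 0 * ((-7/8) - x) ^ 3))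
      + (2494910464/5) * ((s - (1/2)) ^ 5 * (1 - s) ^ 4 * ((x - (-1)) ^ 1 * ((-7/8) - x) ^ 2))
      + (2366738944/5) * ((s - (1/2)) ^ 5 * (1 - s) ^ 4 * ((x - (-1)) ^ 2 * ((-7/8) - x) ^ 1))
      + (754803968/5) * ((s - (1/2)) ^ 5 * (1 - s) ^ 4 * ((x - (-1)) ^ 3 * ((-7/8) - x) ^ 0))
      + (684982272/5) * ((s - (1/2)) ^ 6 * (1 - s) ^ 3 * ((x - (-1)) ^ 0 * ((-7/8) - x) ^ 3))
      + (1901346816/5) * ((s - (1/2)) ^ 6 * (1 - s) ^ 3 * ((x - (-1)) ^ 1 * ((-7/8) - x) ^ 2))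
      + (1776357376/5) * ((s - (1/2)) ^ 6 * (1 - s) ^ 3 * ((x - (-1)) ^ 2 * ((-7/8) - x) ^ 1))
      + (559240192/5) * ((s - (1/2)) ^ 6 * (1 - s) ^ 3 * ((x - (-1)) ^ 3 * ((-7/8) - x) ^ 0))
      + (308871168/5) * ((s - (1/2)) ^ 7 * (1 - s) ^ 2 * ((x - (-1)) ^ 0 * ((-7/8) - x) ^ 3))
      + (835518464/5) * ((s - (1/2)) ^ 7 * (1 - s) ^ 2 * ((x - (-1)) ^ 1 * ((-7/8) - x) ^ 2))
      + (763848704/5) * ((s - (1/2)) ^ 7 * (1 - s) ^ 2 * ((x - (-1)) ^ 2 * ((-7/8) - x) ^ 1))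
      + (236556288/5) * ((s - (1/2)) ^ 7 * (1 - s) ^ 2 * ((x - (-1)) ^ 3 * ((-7/8) - x) ^ 0))
      + (67633152/5) * ((s - (1/2)) ^ 8 * (1 - s) ^ 1 * ((x - (-1)) ^ 0 * ((-7/8) - x) ^ 3))
      + (172834816/5) * ((s - (1/2)) ^ 8 * (1 - s) ^ 1 * ((x - (-1)) ^ 1 * ((-7/8) - x) ^ 2))
      + (150716416/5) * ((s - (1/2)) ^ 8 * (1 - s) ^ 1 * ((x - (-1)) ^ 2 * ((-7/8) - x) ^ 1))
      + (45192192/5) * ((s - (1/2)) ^ 8 * (1 - s) ^ 1 * ((x - (-1)) ^ 3 * ((-7/8) - x) ^ 0))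
      + (3801088/5) * ((s - (1/2)) ^ 9 * (1 - s) ^ 0 * ((x - (-1)) ^ 0 * ((-7/8) - x) ^ 3))
      + (6979584/5) * ((s - (1/2)) ^ 9 * (1 - s) ^ 0 * ((x - (-1)) ^ 1 * ((-7/8) - x) ^ 2))
      + (4071424/5) * ((s - (1/2)) ^ 9 * (1 - s) ^ 0 * ((x - (-1)) ^ 2 * ((-7/8) - x) ^ 1))
      + (821248/5) * ((s - (1/2)) ^ 9 * (1 - s) ^ 0 * ((x - (-1)) ^ 3 * ((-7/8) - x) ^ 0)) := by
    unfold Fp
    ring
  have : 0 ≤ Fp s x - 1 / 10 := by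
    rw [key]
    positivity
  linarith

lemma Fp_box6 (s x : ℝ) (h1 : (1/2) ≤ s) (h2 : s ≤ 1) (h3 : (-7/8) ≤ x) (h4 : x ≤ (-3/4)) :
    1 / 10 ≤ Fp s x := by
  have e1 : 0 ≤ s - (1/2) := by linarith
  have e2 : 0 ≤ 1 - s := by linarith
  have e3 : 0 ≤ x - (-7/8) := by linarith
  have e4 : 0 ≤ (-3/4) - x := by linarith
  have key : Fp s x - 1 / 10 =
      (1156308/5) * ((s - (1/2)) ^ 0 * (1 - s) ^ 9 * ((x - (-7/8)) ^ 0 * ((-3/4) - x) ^ 3))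
      + (3513944/5) * ((s - (1/2)) ^ 0 * (1 - s) ^ 9 * ((x - (-7/8)) ^ 1 * ((-3/4) - x) ^ 2))
      + (3581104/5) * ((s - (1/2)) ^ 0 * (1 - s) ^ 9 * ((x - (-7/8)) ^ 2 * ((-3/4) - x) ^ 1))
      + (1223328/5) * ((s - (1/2)) ^ 0 * (1 - s) ^ 9 * ((x - (-7/8)) ^ 3 * ((-3/4) - x) ^ 0))
      + (16398952/5) * ((s - (1/2)) ^ 1 * (1 - s) ^ 8 * ((x - (-7/8)) ^ 0 * ((-3/4) - x) ^ 3))
      + (49161136/5) * ((s - (1/2)) ^ 1 * (1 - s) ^ 8 * ((x - (-7/8)) ^ 1 * ((-3/4) - x) ^ 2))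
      + (49443936/5) * ((s - (1/2)) ^ 1 * (1 - s) ^ 8 * ((x - (-7/8)) ^ 2 * ((-3/4) - x) ^ 1))
      + (16679232/5) * ((s - (1/2)) ^ 1 * (1 - s) ^ 8 * ((x - (-7/8)) ^ 3 * ((-3/4) - x) ^ 0))
      + (98754368/5) * ((s - (1/2)) ^ 2 * (1 - s) ^ 7 * ((x - (-7/8)) ^ 0 * ((-3/4) - x) ^ 3))
      + (292690304/5) * ((s - (1/2)) ^ 2 * (1 - s) ^ 7 * ((x - (-7/8)) ^ 1 * ((-3/4) - x) ^ 2))
      + (291128064/5) * ((s - (1/2)) ^ 2 * (1 - s) ^ 7 * ((x - (-7/8)) ^ 2 * ((-3/4) - x) ^ 1))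
      + (97171968/5) * ((s - (1/2)) ^ 2 * (1 - s) ^ 7 * ((x - (-7/8)) ^ 3 * ((-3/4) - x) ^ 0))
      + (322181632/5) * ((s - (1/2)) ^ 3 * (1 - s) ^ 6 * ((x - (-7/8)) ^ 0 * ((-3/4) - x) ^ 3))
      + (944808576/5) * ((s - (1/2)) ^ 3 * (1 - s) ^ 6 * ((x - (-7/8)) ^ 1 * ((-3/4) - x) ^ 2))
      + (930382336/5) * ((s - (1/2)) ^ 3 * (1 - s) ^ 6 * ((x - (-7/8)) ^ 2 * ((-3/4) - x) ^ 1))
      + (307661312/5) * ((s - (1/2)) ^ 3 * (1 - s) ^ 6 * ((x - (-7/8)) ^ 3 * ((-3/4) - x) ^ 0))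
      + (626435968/5) * ((s - (1/2)) ^ 4 * (1 - s) ^ 5 * ((x - (-7/8)) ^ 0 * ((-3/4) - x) ^ 3))
      + (1816739584/5) * ((s - (1/2)) ^ 4 * (1 - s) ^ 5 * ((x - (-7/8)) ^ 1 * ((-3/4) - x) ^ 2))
      + (1771067904/5) * ((s - (1/2)) ^ 4 * (1 - s) ^ 5 * ((x - (-7/8)) ^ 2 * ((-3/4) - x) ^ 1))
      + (580482048/5) * ((s - (1/2)) ^ 4 * (1 - s) ^ 5 * ((x - (-7/8)) ^ 3 * ((-3/4) - x) ^ 0))
      + (754803968/5) * ((s - (1/2)) ^ 5 * (1 - s) ^ 4 * ((x - (-7/8)) ^ 0 * ((-3/4) - x) ^ 3))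
      + (2162084864/5) * ((s - (1/2)) ^ 5 * (1 - s) ^ 4 * ((x - (-7/8)) ^ 1 * ((-3/4) - x) ^ 2))
      + (2085602304/5) * ((s - (1/2)) ^ 5 * (1 - s) ^ 4 * ((x - (-7/8)) ^ 2 * ((-3/4) - x) ^ 1))
      + (677756928/5) * ((s - (1/2)) ^ 5 * (1 - s) ^ 4 * ((x - (-7/8)) ^ 3 * ((-3/4) - x) ^ 0))
      + (559240192/5) * ((s - (1/2)) ^ 6 * (1 - s) ^ 3 * ((x - (-7/8)) ^ 0 * ((-3/4) - x) ^ 3))
      + (1579083776/5) * ((s - (1/2)) ^ 6 * (1 - s) ^ 3 * ((x - (-7/8)) ^ 1 * ((-3/4) - x) ^ 2))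
      + (1506799616/5) * ((s - (1/2)) ^ 6 * (1 - s) ^ 3 * ((x - (-7/8)) ^ 2 * ((-3/4) - x) ^ 1))
      + (486203392/5) * ((s - (1/2)) ^ 6 * (1 - s) ^ 3 * ((x - (-7/8)) ^ 3 * ((-3/4) - x) ^ 0))
      + (236556288/5) * ((s - (1/2)) ^ 7 * (1 - s) ^ 2 * ((x - (-7/8)) ^ 0 * ((-3/4) - x) ^ 3))
      + (655489024/5) * ((s - (1/2)) ^ 7 * (1 - s) ^ 2 * ((x - (-7/8)) ^ 1 * ((-3/4) - x) ^ 2))
      + (618799104/5) * ((s - (1/2)) ^ 7 * (1 - s) ^ 2 * ((x - (-7/8)) ^ 2 * ((-3/4) - x) ^ 1))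
      + (199221248/5) * ((s - (1/2)) ^ 7 * (1 - s) ^ 2 * ((x - (-7/8)) ^ 3 * ((-3/4) - x) ^ 0))
      + (45192192/5) * ((s - (1/2)) ^ 8 * (1 - s) ^ 1 * ((x - (-7/8)) ^ 0 * ((-3/4) - x) ^ 3))
      + (120436736/5) * ((s - (1/2)) ^ 8 * (1 - s) ^ 1 * ((x - (-7/8)) ^ 1 * ((-3/4) - x) ^ 2))
      + (112275456/5) * ((s - (1/2)) ^ 8 * (1 - s) ^ 1 * ((x - (-7/8)) ^ 2 * ((-3/4) - x) ^ 1))
      + (36708352/5) * ((s - (1/2)) ^ 8 * (1 - s) ^ 1 * ((x - (-7/8)) ^ 3 * ((-3/4) - x) ^ 0))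
      + (821248/5) * ((s - (1/2)) ^ 9 * (1 - s) ^ 0 * ((x - (-7/8)) ^ 0 * ((-3/4) - x) ^ 3))
      + (856064/5) * ((s - (1/2)) ^ 9 * (1 - s) ^ 0 * ((x - (-7/8)) ^ 1 * ((-3/4) - x) ^ 2))
      + (548864/5) * ((s - (1/2)) ^ 9 * (1 - s) ^ 0 * ((x - (-7/8)) ^ 2 * ((-3/4) - x) ^ 1))
      + (442368/5) * ((s - (1/2)) ^ 9 * (1 - s) ^ 0 * ((x - (-7/8)) ^ 3 * ((-3/4) - x) ^ 0)) := by
    unfold Fp
    ring
  have : 0 ≤ Fp s x - 1 / 10 := by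
    rw [key]
    positivity
  linarith

lemma Fp_box7 (s x : ℝ) (h1 : (1/2) ≤ s) (h2 : s ≤ 1) (h3 : (-3/4) ≤ x) (h4 : x ≤ (-1/2)) :
    1 / 10 ≤ Fp s x := by
  have e1 : 0 ≤ s - (1/2) := by linarith
  have e2 : 0 ≤ 1 - s := by linarith
  have e3 : 0 ≤ x - (-3/4) := by linarith
  have e4 : 0 ≤ (-1/2) - x := by linarith
  have key : Fp s x - 1 / 10 =
      (152916/5) * ((s - (1/2)) ^ 0 * (1 - s) ^ 9 * ((x - (-3/4)) ^ 0 * ((-1/2) - x) ^ 3))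
      + (480968/5) * ((s - (1/2)) ^ 0 * (1 - s) ^ 9 * ((x - (-3/4)) ^ 1 * ((-1/2) - x) ^ 2))
      + (514048/5) * ((s - (1/2)) ^ 0 * (1 - s) ^ 9 * ((x - (-3/4)) ^ 2 * ((-1/2) - x) ^ 1))
      + (185856/5) * ((s - (1/2)) ^ 0 * (1 - s) ^ 9 * ((x - (-3/4)) ^ 3 * ((-1/2) - x) ^ 0))
      + (2084904/5) * ((s - (1/2)) ^ 1 * (1 - s) ^ 8 * ((x - (-3/4)) ^ 0 * ((-1/2) - x) ^ 3))
      + (6403152/5) * ((s - (1/2)) ^ 1 * (1 - s) ^ 8 * ((x - (-3/4)) ^ 1 * ((-1/2) - x) ^ 2))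
      + (6707072/5) * ((s - (1/2)) ^ 1 * (1 - s) ^ 8 * ((x - (-3/4)) ^ 2 * ((-1/2) - x) ^ 1))
      + (2386304/5) * ((s - (1/2)) ^ 1 * (1 - s) ^ 8 * ((x - (-3/4)) ^ 3 * ((-1/2) - x) ^ 0))
      + (12146496/5) * ((s - (1/2)) ^ 2 * (1 - s) ^ 7 * ((x - (-3/4)) ^ 0 * ((-1/2) - x) ^ 3))
      + (36536448/5) * ((s - (1/2)) ^ 2 * (1 - s) ^ 7 * ((x - (-3/4)) ^ 1 * ((-1/2) - x) ^ 2))
      + (37608448/5) * ((s - (1/2)) ^ 2 * (1 - s) ^ 7 * ((x - (-3/4)) ^ 2 * ((-1/2) - x) ^ 1))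
      + (13198336/5) * ((s - (1/2)) ^ 2 * (1 - s) ^ 7 * ((x - (-3/4)) ^ 3 * ((-1/2) - x) ^ 0))
      + (38457664/5) * ((s - (1/2)) ^ 3 * (1 - s) ^ 6 * ((x - (-3/4)) ^ 0 * ((-1/2) - x) ^ 3))
      + (113523392/5) * ((s - (1/2)) ^ 3 * (1 - s) ^ 6 * ((x - (-3/4)) ^ 1 * ((-1/2) - x) ^ 2))
      + (115187712/5) * ((s - (1/2)) ^ 3 * (1 - s) ^ 6 * ((x - (-3/4)) ^ 2 * ((-1/2) - x) ^ 1))
      + (40027904/5) * ((s - (1/2)) ^ 3 * (1 - s) ^ 6 * ((x - (-3/4)) ^ 3 * ((-1/2) - x) ^ 0))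
      + (72560256/5) * ((s - (1/2)) ^ 4 * (1 - s) ^ 5 * ((x - (-3/4)) ^ 0 * ((-1/2) - x) ^ 3))
      + (210275328/5) * ((s - (1/2)) ^ 4 * (1 - s) ^ 5 * ((x - (-3/4)) ^ 1 * ((-1/2) - x) ^ 2))
      + (210894848/5) * ((s - (1/2)) ^ 4 * (1 - s) ^ 5 * ((x - (-3/4)) ^ 2 * ((-1/2) - x) ^ 1))
      + (72897536/5) * ((s - (1/2)) ^ 4 * (1 - s) ^ 5 * ((x - (-3/4)) ^ 3 * ((-1/2) - x) ^ 0))
      + (84719616/5) * ((s - (1/2)) ^ 5 * (1 - s) ^ 4 * ((x - (-3/4)) ^ 0 * ((-1/2) - x) ^ 3))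
      + (241075968/5) * ((s - (1/2)) ^ 5 * (1 - s) ^ 4 * ((x - (-3/4)) ^ 1 * ((-1/2) - x) ^ 2))
      + (240068608/5) * ((s - (1/2)) ^ 5 * (1 - s) ^ 4 * ((x - (-3/4)) ^ 2 * ((-1/2) - x) ^ 1))
      + (83147776/5) * ((s - (1/2)) ^ 5 * (1 - s) ^ 4 * ((x - (-3/4)) ^ 3 * ((-1/2) - x) ^ 0))
      + (60775424/5) * ((s - (1/2)) ^ 6 * (1 - s) ^ 3 * ((x - (-3/4)) ^ 0 * ((-1/2) - x) ^ 3))
      + (170278912/5) * ((s - (1/2)) ^ 6 * (1 - s) ^ 3 * ((x - (-3/4)) ^ 1 * ((-1/2) - x) ^ 2))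
      + (170278912/5) * ((s - (1/2)) ^ 6 * (1 - s) ^ 3 * ((x - (-3/4)) ^ 2 * ((-1/2) - x) ^ 1))
      + (60022784/5) * ((s - (1/2)) ^ 6 * (1 - s) ^ 3 * ((x - (-3/4)) ^ 3 * ((-1/2) - x) ^ 0))
      + (24902656/5) * ((s - (1/2)) ^ 7 * (1 - s) ^ 2 * ((x - (-3/4)) ^ 0 * ((-1/2) - x) ^ 3))
      + (69424128/5) * ((s - (1/2)) ^ 7 * (1 - s) ^ 2 * ((x - (-3/4)) ^ 1 * ((-1/2) - x) ^ 2))
      + (71917568/5) * ((s - (1/2)) ^ 7 * (1 - s) ^ 2 * ((x - (-3/4)) ^ 2 * ((-1/2) - x) ^ 1))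
      + (26750976/5) * ((s - (1/2)) ^ 7 * (1 - s) ^ 2 * ((x - (-3/4)) ^ 3 * ((-1/2) - x) ^ 0))
      + (4588544/5) * ((s - (1/2)) ^ 8 * (1 - s) ^ 1 * ((x - (-3/4)) ^ 0 * ((-1/2) - x) ^ 3))
      + (13228032/5) * ((s - (1/2)) ^ 8 * (1 - s) ^ 1 * ((x - (-3/4)) ^ 1 * ((-1/2) - x) ^ 2))
      + (15695872/5) * ((s - (1/2)) ^ 8 * (1 - s) ^ 1 * ((x - (-3/4)) ^ 2 * ((-1/2) - x) ^ 1))
      + (6733824/5) * ((s - (1/2)) ^ 8 * (1 - s) ^ 1 * ((x - (-3/4)) ^ 3 * ((-1/2) - x) ^ 0))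
      + (55296/5) * ((s - (1/2)) ^ 9 * (1 - s) ^ 0 * ((x - (-3/4)) ^ 0 * ((-1/2) - x) ^ 3))
      + (360448/5) * ((s - (1/2)) ^ 9 * (1 - s) ^ 0 * ((x - (-3/4)) ^ 1 * ((-1/2) - x) ^ 2))
      + (1097728/5) * ((s - (1/2)) ^ 9 * (1 - s) ^ 0 * ((x - (-3/4)) ^ 2 * ((-1/2) - x) ^ 1))
      + (720896/5) * ((s - (1/2)) ^ 9 * (1 - s) ^ 0 * ((x - (-3/4)) ^ 3 * ((-1/2) - x) ^ 0)) := by
    unfold Fp
    ring
  have : 0 ≤ Fp s x - 1 / 10 := by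
    rw [key]
    positivity
  linarith

lemma Fp_box8 (s x : ℝ) (h1 : (1/2) ≤ s) (h2 : s ≤ 1) (h3 : (-1/2) ≤ x) (h4 : x ≤ 0) :
    1 / 10 ≤ Fp s x := by
  have e1 : 0 ≤ s - (1/2) := by linarith
  have e2 : 0 ≤ 1 - s := by linarith
  have e3 : 0 ≤ x - (-1/2) := by linarith
  have e4 : 0 ≤ 0 - x := by linarith
  have key : Fp s x - 1 / 10 =
      (23232/5) * ((s - (1/2)) ^ 0 * (1 - s) ^ 9 * ((x - (-1/2)) ^ 0 * (0 - x) ^ 3))
      + (80576/5) * ((s - (1/2)) ^ 0 * (1 - s) ^ 9 * ((x - (-1/2)) ^ 1 * (0 - x) ^ 2))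
      + (96676/5) * ((s - (1/2)) ^ 0 * (1 - s) ^ 9 * ((x - (-1/2)) ^ 2 * (0 - x) ^ 1))
      + (39192/5) * ((s - (1/2)) ^ 0 * (1 - s) ^ 9 * ((x - (-1/2)) ^ 3 * (0 - x) ^ 0))
      + (298288/5) * ((s - (1/2)) ^ 1 * (1 - s) ^ 8 * ((x - (-1/2)) ^ 0 * (0 - x) ^ 3))
      + (1007824/5) * ((s - (1/2)) ^ 1 * (1 - s) ^ 8 * ((x - (-1/2)) ^ 1 * (0 - x) ^ 2))
      + (1194744/5) * ((s - (1/2)) ^ 1 * (1 - s) ^ 8 * ((x - (-1/2)) ^ 2 * (0 - x) ^ 1))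
      + (482688/5) * ((s - (1/2)) ^ 1 * (1 - s) ^ 8 * ((x - (-1/2)) ^ 3 * (0 - x) ^ 0))
      + (1649792/5) * ((s - (1/2)) ^ 2 * (1 - s) ^ 7 * ((x - (-1/2)) ^ 0 * (0 - x) ^ 3))
      + (5446016/5) * ((s - (1/2)) ^ 2 * (1 - s) ^ 7 * ((x - (-1/2)) ^ 1 * (0 - x) ^ 2))
      + (6399936/5) * ((s - (1/2)) ^ 2 * (1 - s) ^ 7 * ((x - (-1/2)) ^ 2 * (0 - x) ^ 1))
      + (2583552/5) * ((s - (1/2)) ^ 2 * (1 - s) ^ 7 * ((x - (-1/2)) ^ 3 * (0 - x) ^ 0))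
      + (5003488/5) * ((s - (1/2)) ^ 3 * (1 - s) ^ 6 * ((x - (-1/2)) ^ 0 * (0 - x) ^ 3))
      + (16234464/5) * ((s - (1/2)) ^ 3 * (1 - s) ^ 6 * ((x - (-1/2)) ^ 1 * (0 - x) ^ 2))
      + (19074304/5) * ((s - (1/2)) ^ 3 * (1 - s) ^ 6 * ((x - (-1/2)) ^ 2 * (0 - x) ^ 1))
      + (7749248/5) * ((s - (1/2)) ^ 3 * (1 - s) ^ 6 * ((x - (-1/2)) ^ 3 * (0 - x) ^ 0))
      + (9112192/5) * ((s - (1/2)) ^ 4 * (1 - s) ^ 5 * ((x - (-1/2)) ^ 0 * (0 - x) ^ 3))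
      + (29286016/5) * ((s - (1/2)) ^ 4 * (1 - s) ^ 5 * ((x - (-1/2)) ^ 1 * (0 - x) ^ 2))
      + (34824576/5) * ((s - (1/2)) ^ 4 * (1 - s) ^ 5 * ((x - (-1/2)) ^ 2 * (0 - x) ^ 1))
      + (14368512/5) * ((s - (1/2)) ^ 4 * (1 - s) ^ 5 * ((x - (-1/2)) ^ 3 * (0 - x) ^ 0))
      + (10393472/5) * ((s - (1/2)) ^ 5 * (1 - s) ^ 4 * ((x - (-1/2)) ^ 0 * (0 - x) ^ 3))
      + (33524096/5) * ((s - (1/2)) ^ 5 * (1 - s) ^ 4 * ((x - (-1/2)) ^ 1 * (0 - x) ^ 2))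
      + (41058816/5) * ((s - (1/2)) ^ 5 * (1 - s) ^ 4 * ((x - (-1/2)) ^ 2 * (0 - x) ^ 1))
      + (17363712/5) * ((s - (1/2)) ^ 5 * (1 - s) ^ 4 * ((x - (-1/2)) ^ 3 * (0 - x) ^ 0))
      + (7502848/5) * ((s - (1/2)) ^ 6 * (1 - s) ^ 3 * ((x - (-1/2)) ^ 0 * (0 - x) ^ 3))
      + (24955904/5) * ((s - (1/2)) ^ 6 * (1 - s) ^ 3 * ((x - (-1/2)) ^ 1 * (0 - x) ^ 2))
      + (32297984/5) * ((s - (1/2)) ^ 6 * (1 - s) ^ 3 * ((x - (-1/2)) ^ 2 * (0 - x) ^ 1))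
      + (14092288/5) * ((s - (1/2)) ^ 6 * (1 - s) ^ 3 * ((x - (-1/2)) ^ 3 * (0 - x) ^ 0))
      + (3343872/5) * ((s - (1/2)) ^ 7 * (1 - s) ^ 2 * ((x - (-1/2)) ^ 0 * (0 - x) ^ 3))
      + (12115456/5) * ((s - (1/2)) ^ 7 * (1 - s) ^ 2 * ((x - (-1/2)) ^ 1 * (0 - x) ^ 2))
      + (17120256/5) * ((s - (1/2)) ^ 7 * (1 - s) ^ 2 * ((x - (-1/2)) ^ 2 * (0 - x) ^ 1))
      + (7703552/5) * ((s - (1/2)) ^ 7 * (1 - s) ^ 2 * ((x - (-1/2)) ^ 3 * (0 - x) ^ 0))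
      + (841728/5) * ((s - (1/2)) ^ 8 * (1 - s) ^ 1 * ((x - (-1/2)) ^ 0 * (0 - x) ^ 3))
      + (3651584/5) * ((s - (1/2)) ^ 8 * (1 - s) ^ 1 * ((x - (-1/2)) ^ 1 * (0 - x) ^ 2))
      + (5796864/5) * ((s - (1/2)) ^ 8 * (1 - s) ^ 1 * ((x - (-1/2)) ^ 2 * (0 - x) ^ 1))
      + (2664448/5) * ((s - (1/2)) ^ 8 * (1 - s) ^ 1 * ((x - (-1/2)) ^ 3 * (0 - x) ^ 0))
      + (90112/5) * ((s - (1/2)) ^ 9 * (1 - s) ^ 0 * ((x - (-1/2)) ^ 0 * (0 - x) ^ 3))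
      + (536576/5) * ((s - (1/2)) ^ 9 * (1 - s) ^ 0 * ((x - (-1/2)) ^ 1 * (0 - x) ^ 2))
      + (966656/5) * ((s - (1/2)) ^ 9 * (1 - s) ^ 0 * ((x - (-1/2)) ^ 2 * (0 - x) ^ 1))
      + (448512/5) * ((s - (1/2)) ^ 9 * (1 - s) ^ 0 * ((x - (-1/2)) ^ 3 * (0 - x) ^ 0)) := by
    unfold Fp
    ring
  have : 0 ≤ Fp s x - 1 / 10 := by
    rw [key]
    positivity
  linarith

lemma Fp_box9 (s x : ℝ) (h1 : (1/2) ≤ s) (h2 : s ≤ 1) (h3 : 0 ≤ x) (h4 : x ≤ 1) :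
    1 / 10 ≤ Fp s x := by
  have e1 : 0 ≤ s - (1/2) := by linarith
  have e2 : 0 ≤ 1 - s := by linarith
  have e3 : 0 ≤ x - 0 := by linarith
  have e4 : 0 ≤ 1 - x := by linarith
  have key : Fp s x - 1 / 10 =
      (4899/5) * ((s - (1/2)) ^ 0 * (1 - s) ^ 9 * ((x - 0) ^ 0 * (1 - x) ^ 3))
      + (19922/5) * ((s - (1/2)) ^ 0 * (1 - s) ^ 9 * ((x - 0) ^ 1 * (1 - x) ^ 2))
      + (27547/5) * ((s - (1/2)) ^ 0 * (1 - s) ^ 9 * ((x - 0) ^ 2 * (1 - x) ^ 1))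
      + (12384/5) * ((s - (1/2)) ^ 0 * (1 - s) ^ 9 * ((x - 0) ^ 3 * (1 - x) ^ 0))
      + (60336/5) * ((s - (1/2)) ^ 1 * (1 - s) ^ 8 * ((x - 0) ^ 0 * (1 - x) ^ 3))
      + (244338/5) * ((s - (1/2)) ^ 1 * (1 - s) ^ 8 * ((x - 0) ^ 1 * (1 - x) ^ 2))
      + (340868/5) * ((s - (1/2)) ^ 1 * (1 - s) ^ 8 * ((x - 0) ^ 2 * (1 - x) ^ 1))
      + (154346/5) * ((s - (1/2)) ^ 1 * (1 - s) ^ 8 * ((x - 0) ^ 3 * (1 - x) ^ 0))
      + (322944/5) * ((s - (1/2)) ^ 2 * (1 - s) ^ 7 * ((x - 0) ^ 0 * (1 - x) ^ 3))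
      + (1306512/5) * ((s - (1/2)) ^ 2 * (1 - s) ^ 7 * ((x - 0) ^ 1 * (1 - x) ^ 2))
      + (1842592/5) * ((s - (1/2)) ^ 2 * (1 - s) ^ 7 * ((x - 0) ^ 2 * (1 - x) ^ 1))
      + (838864/5) * ((s - (1/2)) ^ 2 * (1 - s) ^ 7 * ((x - 0) ^ 3 * (1 - x) ^ 0))
      + (968656/5) * ((s - (1/2)) ^ 3 * (1 - s) ^ 6 * ((x - 0) ^ 0 * (1 - x) ^ 3))
      + (3949328/5) * ((s - (1/2)) ^ 3 * (1 - s) ^ 6 * ((x - 0) ^ 1 * (1 - x) ^ 2))
      + (5659488/5) * ((s - (1/2)) ^ 3 * (1 - s) ^ 6 * ((x - 0) ^ 2 * (1 - x) ^ 1))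
      + (2584736/5) * ((s - (1/2)) ^ 3 * (1 - s) ^ 6 * ((x - 0) ^ 3 * (1 - x) ^ 0))
      + (1796064/5) * ((s - (1/2)) ^ 4 * (1 - s) ^ 5 * ((x - 0) ^ 0 * (1 - x) ^ 3))
      + (7458432/5) * ((s - (1/2)) ^ 4 * (1 - s) ^ 5 * ((x - 0) ^ 1 * (1 - x) ^ 2))
      + (10899872/5) * ((s - (1/2)) ^ 4 * (1 - s) ^ 5 * ((x - 0) ^ 2 * (1 - x) ^ 1))
      + (4955264/5) * ((s - (1/2)) ^ 4 * (1 - s) ^ 5 * ((x - 0) ^ 3 * (1 - x) ^ 0))
      + (2170464/5) * ((s - (1/2)) ^ 5 * (1 - s) ^ 4 * ((x - 0) ^ 0 * (1 - x) ^ 3))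
      + (9269472/5) * ((s - (1/2)) ^ 5 * (1 - s) ^ 4 * ((x - 0) ^ 1 * (1 - x) ^ 2))
      + (13776352/5) * ((s - (1/2)) ^ 5 * (1 - s) ^ 4 * ((x - 0) ^ 2 * (1 - x) ^ 1))
      + (6112864/5) * ((s - (1/2)) ^ 5 * (1 - s) ^ 4 * ((x - 0) ^ 3 * (1 - x) ^ 0))
      + (1761536/5) * ((s - (1/2)) ^ 6 * (1 - s) ^ 3 * ((x - 0) ^ 0 * (1 - x) ^ 3))
      + (7779328/5) * ((s - (1/2)) ^ 6 * (1 - s) ^ 3 * ((x - 0) ^ 1 * (1 - x) ^ 2))
      + (11592448/5) * ((s - (1/2)) ^ 6 * (1 - s) ^ 3 * ((x - 0) ^ 2 * (1 - x) ^ 1))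
      + (4822016/5) * ((s - (1/2)) ^ 6 * (1 - s) ^ 3 * ((x - 0) ^ 3 * (1 - x) ^ 0))
      + (962944/5) * ((s - (1/2)) ^ 7 * (1 - s) ^ 2 * ((x - 0) ^ 0 * (1 - x) ^ 3))
      + (4386432/5) * ((s - (1/2)) ^ 7 * (1 - s) ^ 2 * ((x - 0) ^ 1 * (1 - x) ^ 2))
      + (6376832/5) * ((s - (1/2)) ^ 7 * (1 - s) ^ 2 * ((x - 0) ^ 2 * (1 - x) ^ 1))
      + (2308224/5) * ((s - (1/2)) ^ 7 * (1 - s) ^ 2 * ((x - 0) ^ 3 * (1 - x) ^ 0))
      + (333056/5) * ((s - (1/2)) ^ 8 * (1 - s) ^ 1 * ((x - 0) ^ 0 * (1 - x) ^ 3))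
      + (1548288/5) * ((s - (1/2)) ^ 8 * (1 - s) ^ 1 * ((x - 0) ^ 1 * (1 - x) ^ 2))
      + (2123008/5) * ((s - (1/2)) ^ 8 * (1 - s) ^ 1 * ((x - 0) ^ 2 * (1 - x) ^ 1))
      + (585216/5) * ((s - (1/2)) ^ 8 * (1 - s) ^ 1 * ((x - 0) ^ 3 * (1 - x) ^ 0))
      + (56064/5) * ((s - (1/2)) ^ 9 * (1 - s) ^ 0 * ((x - 0) ^ 0 * (1 - x) ^ 3))
      + (262912/5) * ((s - (1/2)) ^ 9 * (1 - s) ^ 0 * ((x - 0) ^ 1 * (1 - x) ^ 2))
      + (332032/5) * ((s - (1/2)) ^ 9 * (1 - s) ^ 0 * ((x - 0) ^ 2 * (1 - x) ^ 1))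
      + (53504/5) * ((s - (1/2)) ^ 9 * (1 - s) ^ 0 * ((x - 0) ^ 3 * (1 - x) ^ 0)) := by
    unfold Fp
    ring
  have : 0 ≤ Fp s x - 1 / 10 := by
    rw [key]
    positivity
  linarith

lemma Fp_pos (s x : ℝ) (h1 : 0 ≤ s) (h2 : s ≤ 1) (h3 : -1 ≤ x) (h4 : x ≤ 1) :
    1 / 10 ≤ Fp s x := by
  rcases le_total s (1/4) with hs0 | hs0
  · rcases le_total x (-7/8) with hx0 | hx0
    · exact Fp_box0 s x (by linarith) (by linarith) (by linarith) (by linarith)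
    · rcases le_total x (-3/4) with hx1 | hx1
      · exact Fp_box0 s x (by linarith) (by linarith) (by linarith) (by linarith)
      · rcases le_total x (-1/2) with hx2 | hx2
        · exact Fp_box1 s x (by linarith) (by linarith) (by linarith) (by linarith)
        · rcases le_total x 0 with hx3 | hx3
          · exact Fp_box2 s x (by linarith) (by linarith) (by linarith) (by linarith)
          · exact Fp_box3 s x (by linarith) (by linarith) (by linarith) (by linarith)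
  · rcases le_total s (1/2) with hs1 | hs1
    · rcases le_total x (-7/8) with hx0 | hx0
      · exact Fp_box4 s x (by linarith) (by linarith) (by linarith) (by linarith)
      · rcases le_total x (-3/4) with hx1 | hx1
        · exact Fp_box4 s x (by linarith) (by linarith) (by linarith) (by linarith)
        · rcases le_total x (-1/2) with hx2 | hx2
          · exact Fp_box1 s x (by linarith) (by linarith) (by linarith) (by linarith)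
          · rcases le_total x 0 with hx3 | hx3
            · exact Fp_box2 s x (by linarith) (by linarith) (by linarith) (by linarith)
            · exact Fp_box3 s x (by linarith) (by linarith) (by linarith) (by linarith)
    · rcases le_total x (-7/8) with hx0 | hx0
      · exact Fp_box5 s x (by linarith) (by linarith) (by linarith) (by linarith)
      · rcases le_total x (-3/4) with hx1 | hx1
        · exact Fp_box6 s x (by linarith) (by linarith) (by linarith) (by linarith)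
        · rcases le_total x (-1/2) with hx2 | hx2
          · exact Fp_box7 s x (by linarith) (by linarith) (by linarith) (by linarith)
          · rcases le_total x 0 with hx3 | hx3
            · exact Fp_box8 s x (by linarith) (by linarith) (by linarith) (by linarith)
            · exact Fp_box9 s x (by linarith) (by linarith) (by linarith) (by linarith)

end Pool.Agent.MP_be97b2_co
end

section

section

set_option autoImplicit false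
open MeasureTheory Set Filter Topology Metric
open scoped Pointwise ENNReal

namespace Pool.Agent.MP_be97b2_co

/-- three-dimensional Euclidean space -/
abbrev E3 : Type := EuclideanSpace ℝ (Fin 3)

/-- half-turn about the axis `v` (a unit vector) -/
noncomputable def halfTurn (v : E3) (x : E3) : E3 := (2 * inner ℝ v x) • v - x

lemma halfTurn_eq_reflection {v : E3} (hv : ‖v‖ = 1) (x : E3) :
    halfTurn v x = (ℝ ∙ v).reflection x := by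
  rw [Submodule.reflection_singleton_apply, hv, halfTurn]
  simp [two_mul, add_smul, two_smul]

/-- the class of all half-turns -/
def halfTurns : Set (E3 → E3) := {g | ∃ v : E3, ‖v‖ = 1 ∧ g = halfTurn v}

lemma halfTurn_fun_eq {v : E3} (hv : ‖v‖ = 1) : halfTurn v = ((ℝ ∙ v).reflection : E3 → E3) :=
  funext fun x => halfTurn_eq_reflection hv x

lemma halfTurns_spec : ∀ g ∈ halfTurns, Isometry g ∧ MeasurePreserving g (sphP E3) (sphP E3) ∧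
    ∀ x, g (g x) = x := by
  rintro g ⟨v, hv, rfl⟩
  rw [halfTurn_fun_eq hv]
  exact ⟨(ℝ ∙ v).reflection.isometry, sphP_invariant _, fun x => by simp⟩

/-- the base axis -/
noncomputable def e0 : E3 := EuclideanSpace.single 0 1

lemma norm_e0 : ‖e0‖ = 1 := by simp [e0]

lemma finrank_E3 : Module.finrank ℝ E3 = 3 := by simp

lemma span_singleton_ne_top (v : E3) : (ℝ ∙ v : Submodule ℝ E3) ≠ ⊤ := by
  intro h
  have h1 := finrank_span_singleton_le_one v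
  rw [h, finrank_top, finrank_E3] at h1
  omega
where
  finrank_span_singleton_le_one (v : E3) : Module.finrank ℝ (ℝ ∙ v : Submodule ℝ E3) ≤ 1 := by
    have := finrank_span_le_card (R := ℝ) ({v} : Set E3)
    simpa using this

lemma halfTurn_small (η : ℝ) (hη : 0 < η) : ∃ ε : ℝ, 0 < ε ∧ ∀ g ∈ halfTurns,
    (sphP E3).real {x | dist x (g x) < ε} ≤ η := by
  have hmeas : ∀ v : E3, ∀ ε : ℝ, MeasurableSet {x | dist x (halfTurn v x) < ε} := by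
    intro v ε
    refine measurableSet_lt (measurable_id.dist ?_) measurable_const
    exact Continuous.measurable (by unfold halfTurn; fun_prop)
  -- base axis
  have hbase : ∃ ε : ℝ, 0 < ε ∧ (sphP E3).real {x | dist x (halfTurn e0 x) < ε} ≤ η := by
    have h0 : Tendsto (fun n : ℕ => sphP E3 {x | dist x (halfTurn e0 x) < 1 / ((n:ℝ) + 1)}) atTop
        (𝓝 (sphP E3 (⋂ n : ℕ, {x | dist x (halfTurn e0 x) < 1 / ((n:ℝ) + 1)}))) := by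
      refine tendsto_measure_iInter_atTop (fun n => (hmeas _ _).nullMeasurableSet) ?_
        ⟨0, measure_ne_top _ _⟩
      intro a b hab x hx
      have hab' : (a:ℝ) ≤ b := Nat.cast_le.2 hab
      have : 1 / ((b:ℝ) + 1) ≤ 1 / ((a:ℝ) + 1) := by
        apply one_div_le_one_div_of_le <;> linarith [(Nat.cast_nonneg a : (0:ℝ) ≤ a)]
      exact lt_of_lt_of_le hx this
    have hz : sphP E3 (⋂ n : ℕ, {x | dist x (halfTurn e0 x) < 1 / ((n:ℝ) + 1)}) = 0 := by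
      refine le_antisymm ?_ bot_le
      refine (measure_mono ?_).trans (sphP_submodule_null _ (span_singleton_ne_top e0)).le
      intro x hx
      simp only [mem_iInter] at hx
      have hd : dist x (halfTurn e0 x) = 0 := by
        by_contra hne
        have hpos : 0 < dist x (halfTurn e0 x) := lt_of_le_of_ne dist_nonneg (Ne.symm hne)
        obtain ⟨n, hn⟩ := exists_nat_one_div_lt hpos
        have : dist x (halfTurn e0 x) < 1 / ((n:ℝ) + 1) := hx n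
        linarith
      rw [dist_eq_zero, halfTurn_eq_reflection norm_e0] at hd
      exact (Submodule.reflection_eq_self_iff x).1 hd.symm
    rw [hz] at h0
    have h := (ENNReal.tendsto_toReal (a := 0) (by simp)).comp h0
    have h' : Tendsto (fun n : ℕ => (sphP E3).real {x | dist x (halfTurn e0 x) < 1 / ((n:ℝ) + 1)})
        atTop (𝓝 0) := by
      simpa [measureReal_def, Function.comp_def] using h
    obtain ⟨n, hn⟩ := (h'.eventually (gt_mem_nhds hη)).exists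
    exact ⟨1 / ((n:ℝ) + 1), by positivity, hn.le⟩
  obtain ⟨ε, hε, hε'⟩ := hbase
  refine ⟨ε, hε, ?_⟩
  rintro g ⟨v, hv, rfl⟩
  -- rotate
  set U : E3 ≃ₗᵢ[ℝ] E3 := (ℝ ∙ (e0 - v))ᗮ.reflection with hU
  have hUe : U e0 = v := Submodule.reflection_sub (by rw [norm_e0, hv])
  have hcomm : ∀ x, halfTurn v (U x) = U (halfTurn e0 x) := by
    intro x
    unfold halfTurn
    rw [← hUe, U.inner_map_map, map_sub, map_smul]
  have hset : U ⁻¹' {x | dist x (halfTurn v x) < ε} = {x | dist x (halfTurn e0 x) < ε} := by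
    ext x
    simp only [mem_preimage]
    change dist (U x) (halfTurn v (U x)) < ε ↔ dist x (halfTurn e0 x) < ε
    rw [hcomm, U.dist_map]
  have h1 := (sphP_invariant U).measure_preimage (hmeas v ε).nullMeasurableSet
  rw [hset] at h1
  rw [measureReal_def, ← h1, ← measureReal_def]
  exact hε'

/-- a function with null level sets -/
noncomputable def Tfun (x : E3) : ℝ := x 0 / x 1

lemma measurable_Tfun : Measurable Tfun := by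
  unfold Tfun
  fun_prop

lemma Tfun_level (t : ℝ) : sphP E3 (Tfun ⁻¹' {t}) = 0 := by
  let s1 : Submodule ℝ E3 := LinearMap.ker
    ((EuclideanSpace.proj (𝕜 := ℝ) (0 : Fin 3) : E3 →L[ℝ] ℝ) -
      t • (EuclideanSpace.proj (𝕜 := ℝ) (1 : Fin 3) : E3 →L[ℝ] ℝ)).toLinearMap
  let s2 : Submodule ℝ E3 := LinearMap.ker
    (EuclideanSpace.proj (𝕜 := ℝ) (1 : Fin 3) : E3 →L[ℝ] ℝ).toLinearMap
  have hs1 : s1 ≠ ⊤ := by
    intro h
    have : (EuclideanSpace.single 0 1 : E3) ∈ s1 := by rw [h]; trivial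
    simp [s1] at this
  have hs2 : s2 ≠ ⊤ := by
    intro h
    have : (EuclideanSpace.single 1 1 : E3) ∈ s2 := by rw [h]; trivial
    simp [s2] at this
  have hsub : Tfun ⁻¹' {t} ⊆ (s1 : Set E3) ∪ (s2 : Set E3) := by
    intro x hx
    have hx' : x 0 / x 1 = t := hx
    by_cases h1 : x 1 = 0
    · right
      simp [s2, h1]
    · left
      have : x 0 = t * x 1 := by
        field_simp at hx'
        rw [hx', mul_comm]
      simp [s1, this]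
  refine le_antisymm ((measure_mono hsub).trans ((measure_union_le _ _).trans ?_)) bot_le
  rw [sphP_submodule_null _ hs1, sphP_submodule_null _ hs2, add_zero]

/-- classification of the involutions of determinant one -/
lemma exists_axis (g : E3 ≃ₗᵢ[ℝ] E3) (hne : g ≠ LinearIsometryEquiv.refl ℝ E3)
    (hinv : ∀ x, g (g x) = x)
    (hdet : LinearMap.det (g.toLinearEquiv : E3 →ₗ[ℝ] E3) = 1) :
    ∃ v : E3, ‖v‖ = 1 ∧ ∀ x, g x = halfTurn v x := by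
  let K : Submodule ℝ E3 := LinearMap.ker ((g.toLinearEquiv : E3 →ₗ[ℝ] E3) - LinearMap.id)
  have hK : ∀ x, x ∈ K ↔ g x = x := by
    intro x
    simp [K, LinearMap.mem_ker, sub_eq_zero]
  have hg : ∀ x, g x = K.reflection x := by
    intro x
    have h1 : (2:ℝ)⁻¹ • (x + g x) ∈ K := by
      rw [hK, map_smul, map_add, hinv, add_comm]
    have h2 : (2:ℝ)⁻¹ • (x - g x) ∈ Kᗮ := by
      rw [Submodule.mem_orthogonal]
      intro y hy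
      have hy' := (hK y).1 hy
      have : inner ℝ y (g x) = inner ℝ y x := by
        conv_lhs => rw [← hy']
        exact g.inner_map_map y x
      rw [inner_smul_right, inner_sub_right, this, sub_self, mul_zero]
    have hx : x = (2:ℝ)⁻¹ • (x + g x) + (2:ℝ)⁻¹ • (x - g x) := by
      rw [← smul_add]
      have : x + g x + (x - g x) = (2:ℝ) • x := by rw [two_smul]; abel
      rw [this, smul_smul]; norm_num
    have h3 : K.reflection x = (2:ℝ)⁻¹ • (x + g x) - (2:ℝ)⁻¹ • (x - g x) := by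
      conv_lhs => rw [hx]
      rw [map_add, Submodule.reflection_mem_subspace_eq_self h1,
        Submodule.reflection_mem_subspace_orthogonalComplement_eq_neg h2]
      rfl
    rw [h3, ← smul_sub]
    have : x + g x - (x - g x) = (2:ℝ) • g x := by rw [two_smul]; abel
    rw [this, smul_smul]; norm_num
  have hgeq : g = K.reflection := LinearIsometryEquiv.ext hg
  have hdet2 : ((-1:ℝ)) ^ (Module.finrank ℝ Kᗮ) = 1 := by
    rw [← Submodule.det_reflection, ← hdet, hgeq]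
  have hsum : Module.finrank ℝ K + Module.finrank ℝ Kᗮ = 3 := by
    rw [Submodule.finrank_add_finrank_orthogonal, finrank_E3]
  have heven : Even (Module.finrank ℝ Kᗮ) := by
    by_contra hodd
    rw [Nat.not_even_iff_odd] at hodd
    rw [hodd.neg_one_pow] at hdet2
    norm_num at hdet2
  have hne0 : Module.finrank ℝ Kᗮ ≠ 0 := by
    intro h0
    apply hne
    have h3 : Module.finrank ℝ K = Module.finrank ℝ E3 := by rw [finrank_E3]; omega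
    have htop : K = ⊤ := Submodule.eq_top_of_finrank_eq h3
    ext1 x
    have : x ∈ K := by rw [htop]; trivial
    rw [(hK x).1 this]
    rfl
  have hK1 : Module.finrank ℝ K = 1 := by
    obtain ⟨m, hm⟩ := heven
    omega
  obtain ⟨w, hw0, hw⟩ := finrank_eq_one_iff'.1 hK1
  have hw0' : (w : E3) ≠ 0 := fun h => hw0 (by exact_mod_cast h)
  have hwn : ‖(w : E3)‖ ≠ 0 := norm_ne_zero_iff.2 hw0'
  set v : E3 := (‖(w : E3)‖)⁻¹ • (w : E3) with hv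
  have hv1 : ‖v‖ = 1 := by
    rw [hv, norm_smul, norm_inv, norm_norm, inv_mul_cancel₀ hwn]
  have hKv : K = (ℝ ∙ v) := by
    apply le_antisymm
    · intro x hx
      obtain ⟨c, hc⟩ := hw ⟨x, hx⟩
      have hc' : c • (w : E3) = x := by
        have := congrArg Subtype.val hc
        simpa using this
      rw [Submodule.mem_span_singleton]
      refine ⟨c * ‖(w:E3)‖, ?_⟩
      rw [hv, smul_smul, mul_assoc, mul_inv_cancel₀ hwn, mul_one, hc']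
    · rw [Submodule.span_singleton_le_iff_mem]
      exact K.smul_mem _ w.2
  refine ⟨v, hv1, fun x => ?_⟩
  rw [halfTurn_eq_reflection hv1, hg x]
  simp only [hKv]

end Pool.Agent.MP_be97b2_co
end

section

set_option autoImplicit false
open MeasureTheory Set Filter Topology Metric Complex
open scoped Pointwise ENNReal ComplexConjugate

namespace Pool.Agent.MP_be97b2_co

/-- rotation about the third axis -/
noncomputable def rotZ (c s : ℝ) (h : c ^ 2 + s ^ 2 = 1) : E3 ≃ₗᵢ[ℝ] E3 where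
  toFun x := !₂[c * x 0 - s * x 1, s * x 0 + c * x 1, x 2]
  map_add' x y := by
    ext i
    fin_cases i <;> simp <;> ring
  map_smul' t x := by
    ext i
    fin_cases i <;> simp <;> ring
  invFun x := !₂[c * x 0 + s * x 1, -s * x 0 + c * x 1, x 2]
  left_inv x := by
    ext i
    fin_cases i
    · simp; linear_combination (x 0) * h
    · simp; linear_combination (x 1) * h
    · simp
  right_inv x := by
    ext i
    fin_cases i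
    · simp; linear_combination (x 0) * h
    · simp; linear_combination (x 1) * h
    · simp
  norm_map' x := by
    simp only [EuclideanSpace.norm_eq, Fin.sum_univ_three]
    congr 1
    simp
    linear_combination ((x 0) ^ 2 + (x 1) ^ 2) * h

/-- the complex coordinate in the first two variables -/
noncomputable def cw (x : E3) : ℂ := (x 0 : ℂ) + (x 1 : ℂ) * I
noncomputable def cwb (x : E3) : ℂ := (x 0 : ℂ) - (x 1 : ℂ) * I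
noncomputable def cz (x : E3) : ℂ := (x 2 : ℂ)

lemma continuous_cw : Continuous cw := by unfold cw; fun_prop
lemma continuous_cwb : Continuous cwb := by unfold cwb; fun_prop
lemma continuous_cz : Continuous cz := by unfold cz; fun_prop

lemma conj_cw (x : E3) : conj (cw x) = cwb x := by
  simp [cw, cwb, sub_eq_add_neg]
lemma conj_cwb (x : E3) : conj (cwb x) = cw x := by
  simp [cw, cwb]
lemma conj_cz (x : E3) : conj (cz x) = cz x := by simp [cz]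

/-- weight `k` functions for the rotations about the third axis -/
def Wt (k : ℤ) (h : E3 → ℂ) : Prop :=
  ∀ (c s : ℝ) (H : c ^ 2 + s ^ 2 = 1) (x : E3), h (rotZ c s H x) = ((c : ℂ) + s * I) ^ k * h x

lemma zeta_ne_zero {c s : ℝ} (H : c ^ 2 + s ^ 2 = 1) : (c : ℂ) + s * I ≠ 0 := by
  intro h
  have h1 := congrArg Complex.re h
  have h2 := congrArg Complex.im h
  simp at h1 h2
  rw [h1, h2] at H
  norm_num at H

lemma zeta_inv {c s : ℝ} (H : c ^ 2 + s ^ 2 = 1) : ((c : ℂ) + s * I)⁻¹ = (c : ℂ) - s * I := by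
  have H' : (c:ℂ) ^ 2 + (s:ℂ) ^ 2 = 1 := by exact_mod_cast H
  rw [inv_eq_of_mul_eq_one_right]
  linear_combination H' - (s:ℂ) ^ 2 * I_sq

lemma rotZ_zero {c s : ℝ} (H : c ^ 2 + s ^ 2 = 1) (x : E3) :
    (rotZ c s H x) 0 = c * x 0 - s * x 1 := rfl
lemma rotZ_one {c s : ℝ} (H : c ^ 2 + s ^ 2 = 1) (x : E3) :
    (rotZ c s H x) 1 = s * x 0 + c * x 1 := rfl
lemma rotZ_two {c s : ℝ} (H : c ^ 2 + s ^ 2 = 1) (x : E3) :
    (rotZ c s H x) 2 = x 2 := rfl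

lemma Wt_cw : Wt 1 cw := by
  intro c s H x
  rw [cw, rotZ_zero, rotZ_one, cw, zpow_one]
  push_cast
  linear_combination (-(s:ℂ) * (x 1 : ℂ)) * I_sq

lemma Wt_cwb : Wt (-1) cwb := by
  intro c s H x
  rw [cwb, rotZ_zero, rotZ_one, cwb, zpow_neg_one, zeta_inv H]
  push_cast
  linear_combination (-(s:ℂ) * (x 1 : ℂ)) * I_sq

lemma Wt_cz : Wt 0 cz := by
  intro c s H x
  rw [cz, rotZ_two, cz]
  simp

lemma Wt_const (a : ℂ) : Wt 0 (fun _ => a) := by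
  intro c s H x
  simp

lemma Wt.mul {k l : ℤ} {h h' : E3 → ℂ} (hh : Wt k h) (hh' : Wt l h') : Wt (k + l) (h * h') := by
  intro c s H x
  rw [Pi.mul_apply, hh c s H x, hh' c s H x, Pi.mul_apply, zpow_add₀ (zeta_ne_zero H)]
  ring

/-- span of the continuous functions of weight at least `k` -/
def Cge (k : ℤ) : Submodule ℂ (E3 → ℂ) :=
  Submodule.span ℂ {h | Continuous h ∧ ∃ j, k ≤ j ∧ Wt j h}

lemma mem_Cge {k j : ℤ} {h : E3 → ℂ} (hc : Continuous h) (hj : k ≤ j) (hw : Wt j h) :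
    h ∈ Cge k := Submodule.subset_span ⟨hc, j, hj, hw⟩

lemma Cge_mono {k l : ℤ} (hkl : k ≤ l) {h : E3 → ℂ} (hh : h ∈ Cge l) : h ∈ Cge k := by
  refine Submodule.span_mono ?_ hh
  rintro f ⟨hf, j, hj, hw⟩
  exact ⟨hf, j, hkl.trans hj, hw⟩

lemma Cge_continuous {k : ℤ} {h : E3 → ℂ} (hh : h ∈ Cge k) : Continuous h := by
  refine Submodule.span_induction (p := fun h _ => Continuous h) ?_ ?_ ?_ ?_ hh
  · rintro f ⟨hf, _⟩; exact hf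
  · exact continuous_zero
  · intro a b _ _ ha hb; exact ha.add hb
  · intro c a _ ha; exact ha.const_smul c

lemma Cge_mul {k l : ℤ} {h h' : E3 → ℂ} (hh : h ∈ Cge k) (hh' : h' ∈ Cge l) :
    h * h' ∈ Cge (k + l) := by
  have : h * h' ∈ Cge k * Cge l := Submodule.mul_mem_mul hh hh'
  rw [Cge, Cge, Submodule.span_mul_span] at this
  refine Submodule.span_mono ?_ this
  rintro _ ⟨a, ⟨ha, i, hi, hwi⟩, b, ⟨hb, j, hj, hwj⟩, rfl⟩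
  exact ⟨ha.mul hb, i + j, add_le_add hi hj, hwi.mul hwj⟩

lemma Cge_pow {k : ℤ} {h : E3 → ℂ} (hh : h ∈ Cge k) (n : ℕ) : h ^ n ∈ Cge (n * k) := by
  induction n with
  | zero =>
    simp only [pow_zero, Nat.cast_zero, zero_mul]
    exact mem_Cge continuous_const le_rfl (Wt_const 1)
  | succ n ih =>
    rw [pow_succ]
    have := Cge_mul ih hh
    refine Cge_mono ?_ this
    push_cast
    linarith

lemma cw_mem : cw ∈ Cge 1 := mem_Cge continuous_cw le_rfl Wt_cw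
lemma cwb_mem : cwb ∈ Cge (-1) := mem_Cge continuous_cwb le_rfl Wt_cwb
lemma cz_mem : cz ∈ Cge 0 := mem_Cge continuous_cz le_rfl Wt_cz

lemma integrable_of_continuous {h : E3 → ℂ} (hc : Continuous h) : Integrable h (sphP E3) := by
  obtain ⟨C, hC⟩ := (isCompact_sphere (0 : E3) 1).exists_bound_of_continuousOn hc.continuousOn
  refine Integrable.of_bound hc.aestronglyMeasurable C ?_
  filter_upwards [sphP_norm (E := E3)] with x hx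
  exact hC x (by simpa using hx)

lemma integrable_of_continuous_real {h : E3 → ℝ} (hc : Continuous h) :
    Integrable h (sphP E3) := by
  obtain ⟨C, hC⟩ := (isCompact_sphere (0 : E3) 1).exists_bound_of_continuousOn hc.continuousOn
  refine Integrable.of_bound hc.aestronglyMeasurable C ?_
  filter_upwards [sphP_norm (E := E3)] with x hx
  exact hC x (by simpa using hx)

lemma integral_invariant {F : Type*} [NormedAddCommGroup F] [NormedSpace ℝ F]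
    (g : E3 ≃ₗᵢ[ℝ] E3) (h : E3 → F) : ∫ x, h (g x) ∂(sphP E3) = ∫ x, h x ∂(sphP E3) :=
  (sphP_invariant g).integral_comp g.toHomeomorph.measurableEmbedding h

lemma integral_Wt {k : ℤ} (hk : k ≠ 0) {h : E3 → ℂ} (hh : Wt k h) :
    ∫ x, h x ∂(sphP E3) = 0 := by
  set φ : ℝ := Real.pi / k with hφ
  have H : (Real.cos φ) ^ 2 + (Real.sin φ) ^ 2 = 1 := Real.cos_sq_add_sin_sq φ
  have hz : ((Real.cos φ : ℂ) + (Real.sin φ : ℂ) * I) ^ k = -1 := by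
    have h1 : (Real.cos φ : ℂ) + (Real.sin φ : ℂ) * I = Complex.exp (φ * I) := by
      rw [Complex.exp_mul_I]; push_cast; rfl
    rw [h1, ← Complex.exp_int_mul]
    have h2 : (k : ℂ) * (φ * I) = Real.pi * I := by
      rw [hφ]
      push_cast
      have : (k : ℂ) ≠ 0 := by exact_mod_cast hk
      field_simp
    rw [h2, Complex.exp_pi_mul_I]
  have h1 := integral_invariant (rotZ _ _ H) h
  simp_rw [hh _ _ H, hz] at h1
  rw [integral_const_mul] at h1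
  linear_combination -(1/2:ℂ) * h1

lemma integral_Cge {h : E3 → ℂ} (hh : h ∈ Cge 1) : ∫ x, h x ∂(sphP E3) = 0 := by
  have key : Continuous h ∧ ∫ x, h x ∂(sphP E3) = 0 := by
    refine Submodule.span_induction
      (p := fun h _ => Continuous h ∧ ∫ x, h x ∂(sphP E3) = 0) ?_ ?_ ?_ ?_ hh
    · rintro f ⟨hf, j, hj, hw⟩
      exact ⟨hf, integral_Wt (by omega) hw⟩
    · exact ⟨continuous_zero, by simp⟩
    · rintro a b _ _ ⟨ha, ha'⟩ ⟨hb, hb'⟩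
      refine ⟨ha.add hb, ?_⟩
      simp only [Pi.add_apply]
      rw [integral_add (integrable_of_continuous ha) (integrable_of_continuous hb), ha', hb',
        add_zero]
    · rintro c a _ ⟨ha, ha'⟩
      refine ⟨ha.const_smul c, ?_⟩
      simp only [Pi.smul_apply]
      rw [integral_smul, ha', smul_zero]
  exact key.2

/-- linear forms -/
noncomputable def Lf (a b c : ℂ) : E3 → ℂ := a • cwb + b • cz + c • cw

lemma Lf_apply (a b c : ℂ) (x : E3) : Lf a b c x = a * cwb x + b * cz x + c * cw x := rfl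

lemma continuous_Lf (a b c : ℂ) : Continuous (Lf a b c) :=
  ((continuous_cwb.const_smul a).add (continuous_cz.const_smul b)).add
    (continuous_cw.const_smul c)

lemma Lf_mem (a b c : ℂ) : Lf a b c ∈ Cge (-1) := by
  unfold Lf
  refine Submodule.add_mem _ (Submodule.add_mem _ ?_ ?_) ?_
  · exact Submodule.smul_mem _ _ cwb_mem
  · exact Submodule.smul_mem _ _ (Cge_mono (by norm_num) cz_mem)
  · exact Submodule.smul_mem _ _ (Cge_mono (by norm_num) cw_mem)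

lemma tail_mem (b c : ℂ) : b • cz + c • cw ∈ Cge 0 :=
  Submodule.add_mem _ (Submodule.smul_mem _ _ cz_mem)
    (Submodule.smul_mem _ _ (Cge_mono (by norm_num) cw_mem))

/-- modulo functions of higher weight, the power of a linear form is the power of its lowest
weight component -/
lemma pow_sub_mem {A B : E3 → ℂ} (hA : A ∈ Cge (-1)) (hB : B ∈ Cge 0) (n : ℕ) :
    (A + B) ^ n - A ^ n ∈ Cge (-n + 1) := by
  induction n with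
  | zero => simp
  | succ n ih =>
    have : (A + B) ^ (n + 1) - A ^ (n + 1) = (A + B) * ((A + B) ^ n - A ^ n) + B * A ^ n := by
      ring
    rw [this]
    have hAB : A + B ∈ Cge (-1) := Submodule.add_mem _ hA (Cge_mono (by norm_num) hB)
    refine Submodule.add_mem _ ?_ ?_
    · refine Cge_mono ?_ (Cge_mul hAB ih)
      push_cast; linarith
    · refine Cge_mono ?_ (Cge_mul hB (Cge_pow hA n))
      push_cast; linarith

/-- highest weight integral -/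
lemma integral_highest (a b c : ℂ) (n : ℕ) :
    ∫ x, cw x ^ n * Lf a b c x ^ n ∂(sphP E3) =
      a ^ n * ∫ x, cw x ^ n * cwb x ^ n ∂(sphP E3) := by
  have hdec : Lf a b c = a • cwb + (b • cz + c • cw) := by unfold Lf; rw [add_assoc]
  have hm : cw ^ n * (Lf a b c ^ n - (a • cwb) ^ n) ∈ Cge 1 := by
    rw [hdec]
    refine Cge_mono ?_ (Cge_mul (Cge_pow cw_mem n)
      (pow_sub_mem (Submodule.smul_mem _ a cwb_mem) (tail_mem b c) n))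
    linarith
  have h0 := integral_Cge hm
  have hi1 : Integrable (fun x => cw x ^ n * Lf a b c x ^ n) (sphP E3) :=
    integrable_of_continuous ((continuous_cw.pow n).mul ((continuous_Lf a b c).pow n))
  have hi2 : Integrable (fun x => a ^ n * (cw x ^ n * cwb x ^ n)) (sphP E3) :=
    (integrable_of_continuous ((continuous_cw.pow n).mul (continuous_cwb.pow n))).const_mul _
  rw [← integral_const_mul, ← sub_eq_zero, ← integral_sub hi1 hi2, ← h0]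
  refine integral_congr_ae (ae_of_all _ fun x => ?_)
  simp only [Pi.mul_apply, Pi.pow_apply, Pi.sub_apply, Pi.smul_apply, smul_eq_mul]
  ring

/-- the second highest weight in degree seven -/
lemma integral_seven (a b c d e f : ℂ) :
    ∫ x, (cw x ^ 6 * cz x) * (Lf a b c x ^ 6 * Lf d e f x) ∂(sphP E3) =
      (a ^ 6 * e + 6 * a ^ 5 * b * d) *
        ∫ x, (cw x ^ 6 * cz x) * (cwb x ^ 6 * cz x) ∂(sphP E3) := by
  set A : E3 → ℂ := a • cwb with hA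
  set B : E3 → ℂ := b • cz + c • cw with hB
  set D : E3 → ℂ := d • cwb with hD
  set G : E3 → ℂ := e • cz + f • cw with hG
  have mA : A ∈ Cge (-1) := Submodule.smul_mem _ a cwb_mem
  have mB : B ∈ Cge 0 := tail_mem b c
  have mD : D ∈ Cge (-1) := Submodule.smul_mem _ d cwb_mem
  have mG : G ∈ Cge 0 := tail_mem e f
  have mcw : ∀ t : ℂ, t • cw ∈ Cge 1 := fun t => Submodule.smul_mem _ t cw_mem
  have hL : Lf a b c = A + B := by rw [hA, hB]; unfold Lf; rw [add_assoc]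
  have hK : Lf d e f = D + G := by rw [hD, hG]; unfold Lf; rw [add_assoc]
  -- remainder
  have hrem : (A + B) ^ 6 * (D + G) - A ^ 6 * D - (A ^ 6 * (e • cz) + 6 * A ^ 5 * D * (b • cz))
      ∈ Cge (-5) := by
    have heq : (A + B) ^ 6 * (D + G) - A ^ 6 * D - (A ^ 6 * (e • cz) + 6 * A ^ 5 * D * (b • cz)) =
        (B ^ 2 * (15 * A ^ 4 + 20 * A ^ 3 * B + 15 * A ^ 2 * B ^ 2 + 6 * A * B ^ 3 + B ^ 4)) *
          (D + G) + A ^ 6 * (f • cw) + (6:ℂ) • (A ^ 5 * B * G) +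
          (6:ℂ) • (A ^ 5 * D * (c • cw)) := by
      have e1 : (6:ℂ) • (A ^ 5 * B * G) = 6 * (A ^ 5 * B * G) := by
        ext x; simp
      have e2 : (6:ℂ) • (A ^ 5 * D * (c • cw)) = 6 * (A ^ 5 * D * (c • cw)) := by
        ext x; simp
      rw [e1, e2, hG, hB]
      ring
    rw [heq]
    have hconst : ∀ n : ℕ, ∀ (k : ℤ) (h : E3 → ℂ), h ∈ Cge k → (n : E3 → ℂ) * h ∈ Cge k := by
      intro n k h hh
      have : (n : E3 → ℂ) * h = (n : ℂ) • h := by ext x; simp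
      rw [this]
      exact Submodule.smul_mem _ _ hh
    have mAp : ∀ n : ℕ, A ^ n ∈ Cge (-n) := fun n => Cge_mono (by linarith) (Cge_pow mA n)
    have mBp : ∀ n : ℕ, B ^ n ∈ Cge 0 := fun n => Cge_mono (by simp) (Cge_pow mB n)
    have mDG : D + G ∈ Cge (-1) := Submodule.add_mem _ mD (Cge_mono (by norm_num) mG)
    refine Submodule.add_mem _ (Submodule.add_mem _ (Submodule.add_mem _ ?_ ?_) ?_) ?_
    · refine Cge_mono (by norm_num) (Cge_mul (k := -4) (l := -1) ?_ mDG)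
      refine Cge_mono (by norm_num) (Cge_mul (k := 0) (l := -4) (mBp 2) ?_)
      refine Submodule.add_mem _ (Submodule.add_mem _ (Submodule.add_mem _ (Submodule.add_mem _ ?_ ?_) ?_) ?_) ?_
      · exact hconst 15 _ _ (Cge_mono (by norm_num) (mAp 4))
      · rw [mul_assoc]
        exact hconst 20 _ _ (Cge_mono (by norm_num) (Cge_mul (mAp 3) mB))
      · rw [mul_assoc]
        exact hconst 15 _ _ (Cge_mono (by norm_num) (Cge_mul (mAp 2) (mBp 2)))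
      · rw [mul_assoc]
        exact hconst 6 _ _ (Cge_mono (by norm_num) (Cge_mul mA (mBp 3)))
      · exact Cge_mono (by norm_num) (mBp 4)
    · exact Cge_mono (by norm_num) (Cge_mul (mAp 6) (mcw f))
    · exact Submodule.smul_mem _ _ (Cge_mono (by norm_num) (Cge_mul (Cge_mul (mAp 5) mB) mG))
    · exact Submodule.smul_mem _ _
        (Cge_mono (by norm_num) (Cge_mul (Cge_mul (mAp 5) mD) (mcw c)))
  have hm : (cw ^ 6 * cz) * ((A + B) ^ 6 * (D + G) - A ^ 6 * D -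
      (A ^ 6 * (e • cz) + 6 * A ^ 5 * D * (b • cz))) ∈ Cge 1 := by
    refine Cge_mono ?_ (Cge_mul (Cge_mul (Cge_pow cw_mem 6) cz_mem) hrem)
    norm_num
  have h0 := integral_Cge hm
  have hw : ∫ x, ((cw ^ 6 * cz) * (A ^ 6 * D)) x ∂(sphP E3) = 0 := by
    refine integral_Wt (k := -1) (by norm_num) ?_
    have : (cw ^ 6 * cz) * (A ^ 6 * D) = (fun _ => a ^ 6 * d) * ((cw ^ 6 * cz) * (cwb ^ 6 * cwb)) := by
      ext x
      simp only [hA, hD, Pi.mul_apply, Pi.pow_apply, Pi.smul_apply, smul_eq_mul]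
      ring
    rw [this]
    intro C S H x
    have e1 := Wt_cw C S H x
    have e2 := Wt_cwb C S H x
    have e3 := Wt_cz C S H x
    simp only [Pi.mul_apply, Pi.pow_apply, e1, e2, e3, zpow_one, zpow_zero, one_mul]
    have hz := zeta_ne_zero H
    rw [zpow_neg_one]
    field_simp
  have hi : ∀ h : E3 → ℂ, Continuous h → Integrable h (sphP E3) := fun h => integrable_of_continuous
  have cA : Continuous A := continuous_cwb.const_smul a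
  have cD : Continuous D := continuous_cwb.const_smul d
  have cL := continuous_Lf a b c
  have cK := continuous_Lf d e f
  have c1 := continuous_cw
  have c2 := continuous_cwb
  have c3 := continuous_cz
  have i1 : Integrable (fun x => (cw x ^ 6 * cz x) * (Lf a b c x ^ 6 * Lf d e f x)) (sphP E3) :=
    hi _ (by fun_prop)
  have i2 : Integrable (fun x => (a ^ 6 * e + 6 * a ^ 5 * b * d) *
      ((cw x ^ 6 * cz x) * (cwb x ^ 6 * cz x))) (sphP E3) := hi _ (by fun_prop)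
  have i3 : Integrable (fun x => ((cw ^ 6 * cz) * (A ^ 6 * D)) x) (sphP E3) :=
    hi _ (((c1.pow 6).mul c3).mul ((cA.pow 6).mul cD))
  have i12 : Integrable (fun x => (cw x ^ 6 * cz x) * (Lf a b c x ^ 6 * Lf d e f x) -
      (a ^ 6 * e + 6 * a ^ 5 * b * d) * ((cw x ^ 6 * cz x) * (cwb x ^ 6 * cz x))) (sphP E3) :=
    i1.sub i2
  have hfin : ∫ x, (((cw x ^ 6 * cz x) * (Lf a b c x ^ 6 * Lf d e f x) -
      (a ^ 6 * e + 6 * a ^ 5 * b * d) * ((cw x ^ 6 * cz x) * (cwb x ^ 6 * cz x))) -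
      ((cw ^ 6 * cz) * (A ^ 6 * D)) x) ∂(sphP E3) = 0 := by
    rw [← h0]
    refine integral_congr_ae (ae_of_all _ fun x => ?_)
    simp only [hL, hK, hA, hB, hD, hG, Pi.mul_apply, Pi.pow_apply, Pi.sub_apply, Pi.add_apply,
      Pi.smul_apply, smul_eq_mul, Pi.ofNat_apply]
    ring
  rw [integral_sub i12 i3, hw, sub_zero, integral_sub i1 i2, integral_const_mul, sub_eq_zero]
    at hfin
  exact hfin

end Pool.Agent.MP_be97b2_co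
end

section

set_option autoImplicit false
open MeasureTheory Set Filter Topology

namespace Pool.Agent.MP_be97b2_co

variable {X : Type*} [MeasurableSpace X]

/-- intermediate value theorem for measures: if all level sets of `T` are null, a measurable set
contains pieces of every intermediate measure. -/
lemma exists_threshold (P : Measure X) [IsFiniteMeasure P] (T : X → ℝ) (hT : Measurable T)
    (hT0 : ∀ t, P (T ⁻¹' {t}) = 0) (Q : Set X) (c : ℝ) (h0 : 0 ≤ c)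
    (h1 : c ≤ P.real Q) :
    ∃ B : Set X, MeasurableSet B ∧ P.real (Q ∩ B) = c := by
  rcases eq_or_lt_of_le h0 with h0 | h0
  · exact ⟨∅, MeasurableSet.empty, by simp [h0.symm]⟩
  rcases eq_or_lt_of_le h1 with h1 | h1
  · exact ⟨univ, MeasurableSet.univ, by simp [h1]⟩
  set ν : Measure ℝ := (P.restrict Q).map T with hν
  have : IsFiniteMeasure ν := by rw [hν]; infer_instance
  have : NullSingletonClass ν := ⟨fun t => by
    rw [hν, Measure.map_apply hT (measurableSet_singleton t)]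
    exact le_antisymm ((Measure.restrict_apply_le _ _).trans (hT0 t).le) bot_le⟩
  have hνr : ∀ t, ν.real (Iic t) = P.real (Q ∩ T ⁻¹' (Iic t)) := by
    intro t
    rw [measureReal_def, measureReal_def, hν, Measure.map_apply hT measurableSet_Iic,
      Measure.restrict_apply (hT measurableSet_Iic), inter_comm]
  have hcont : Continuous fun t => ν.real (Iic t) := by
    have h1 : ∀ t, ν.real (Iic t) = ν.real (Iic 0) + ∫ x in (0:ℝ)..t, (1:ℝ) ∂ν := by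
      intro t
      have hi : ∀ s : Set ℝ, IntegrableOn (fun _ => (1:ℝ)) s ν := fun s => integrable_const _
      have := intervalIntegral.integral_Iic_sub_Iic (μ := ν) (f := fun _ => (1:ℝ)) (a := 0) (b := t)
        (hi _) (hi _)
      rw [← this]
      simp
    have h2 : Continuous fun t => ∫ x in (0:ℝ)..t, (1:ℝ) ∂ν :=
      intervalIntegral.continuous_primitive (fun a b => intervalIntegrable_const) 0
    have h3 : (fun t => ν.real (Iic t)) = fun t => ν.real (Iic 0) + ∫ x in (0:ℝ)..t, (1:ℝ) ∂ν :=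
      funext h1
    rw [h3]
    exact continuous_const.add h2
  have hbot : Tendsto (fun t => ν.real (Iic t)) atBot (𝓝 0) := by
    have h0 : Tendsto (fun t => ν (Iic t)) atBot (𝓝 (ν (⋂ t : ℝ, Iic t))) :=
      tendsto_measure_iInter_atBot (fun t => measurableSet_Iic.nullMeasurableSet)
        (fun a b h => Iic_subset_Iic.2 h) ⟨0, measure_ne_top _ _⟩
    have e : (⋂ t : ℝ, Iic t) = ∅ := by
      ext y
      simp only [mem_iInter, mem_Iic, mem_empty_iff_false, iff_false, not_forall, not_le]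
      exact ⟨y - 1, by linarith⟩
    rw [e, measure_empty] at h0
    have h := (ENNReal.tendsto_toReal (a := 0) (by simp)).comp h0
    simpa [measureReal_def, Function.comp_def] using h
  have htop : Tendsto (fun t => ν.real (Iic t)) atTop (𝓝 (P.real Q)) := by
    have := tendsto_measure_Iic_atTop ν
    have h := (ENNReal.tendsto_toReal (a := ν univ) (measure_ne_top _ _)).comp this
    have e : (ν univ).toReal = P.real Q := by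
      rw [hν, Measure.map_apply hT MeasurableSet.univ]
      simp [measureReal_def]
    rw [e] at h
    simpa [measureReal_def, Function.comp_def] using h
  obtain ⟨a, ha⟩ : ∃ a, ν.real (Iic a) ≤ c :=
    ((hbot.eventually (gt_mem_nhds h0)).exists).imp fun _ h => h.le
  obtain ⟨b, hb⟩ : ∃ b, c ≤ ν.real (Iic b) :=
    ((htop.eventually (lt_mem_nhds h1)).exists).imp fun _ h => h.le
  obtain ⟨t, ht⟩ := mem_range_of_exists_le_of_exists_ge hcont ⟨a, ha⟩ ⟨b, hb⟩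
  exact ⟨T ⁻¹' (Iic t), hT measurableSet_Iic, by rw [← hνr]; exact ht⟩

section
omit [MeasurableSpace X]

/-- the `±1` valued function of a set -/
noncomputable def sgn (B : Set X) (x : X) : ℝ := by
  classical exact if x ∈ B then 1 else -1

lemma sgn_mem {B : Set X} {x : X} (h : x ∈ B) : sgn B x = 1 := by simp [sgn, h]
lemma sgn_not_mem {B : Set X} {x : X} (h : x ∉ B) : sgn B x = -1 := by simp [sgn, h]

lemma sgn_eq (B : Set X) (x : X) : sgn B x = 2 * B.indicator (fun _ => (1:ℝ)) x - 1 := by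
  by_cases h : x ∈ B
  · simp [sgn, h]; norm_num
  · simp [sgn, h]

lemma sgn_or (B : Set X) (x : X) : sgn B x = 1 ∨ sgn B x = -1 := by
  by_cases h : x ∈ B
  · left; exact sgn_mem h
  · right; exact sgn_not_mem h

lemma abs_sgn (B : Set X) (x : X) : |sgn B x| = 1 := by
  rcases sgn_or B x with h | h <;> simp [h]

end

lemma measurable_sgn {B : Set X} (hB : MeasurableSet B) : Measurable (sgn B) := by
  have : sgn B = fun x => 2 * B.indicator (fun _ => (1:ℝ)) x - 1 := funext (sgn_eq B)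
  rw [this]
  exact ((measurable_const.indicator hB).const_mul 2).sub_const 1

/-- on each measurable set one can find a `±1`-valued function with prescribed mean. -/
lemma exists_sgn_mean (P : Measure X) [IsFiniteMeasure P] (T : X → ℝ) (hT : Measurable T)
    (hT0 : ∀ t, P (T ⁻¹' {t}) = 0) (f : X → ℝ) (hf : Measurable f) (hf1 : ∀ x, |f x| ≤ 1)
    (Q : Set X) :
    ∃ B : Set X, MeasurableSet B ∧ ∫ x in Q, (sgn B x - f x) ∂P = 0 := by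
  have hfi : IntegrableOn f Q P :=
    Measure.integrableOn_of_bounded (M := 1) (measure_ne_top _ _) hf.aestronglyMeasurable
      (ae_of_all _ fun x => by simpa using hf1 x)
  have habs : |∫ x in Q, f x ∂P| ≤ P.real Q := by
    have := norm_setIntegral_le_of_norm_le_const (μ := P) (s := Q) (f := f) (C := 1)
      (measure_lt_top _ _) (fun x _ => by simpa using hf1 x)
    simpa using this
  rw [abs_le] at habs
  obtain ⟨B, hB, hBc⟩ := exists_threshold P T hT hT0 Q ((P.real Q + ∫ x in Q, f x ∂P) / 2)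
    (by linarith [habs.1]) (by linarith [habs.2])
  refine ⟨B, hB, ?_⟩
  have hi1 : IntegrableOn (fun x => B.indicator (fun _ => (1:ℝ)) x) Q P :=
    ((integrable_const (1:ℝ)).indicator hB).integrableOn
  have h2 : ∫ x in Q, sgn B x ∂P = 2 * P.real (Q ∩ B) - P.real Q := by
    have e : ∀ x, sgn B x = 2 * B.indicator (fun _ => (1:ℝ)) x - 1 := sgn_eq B
    simp_rw [e]
    rw [integral_sub (hi1.const_mul 2) (integrable_const _), integral_const_mul,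
      setIntegral_indicator hB]
    simp
  have hsi : IntegrableOn (sgn B) Q P :=
    Measure.integrableOn_of_bounded (M := 1) (measure_ne_top _ _)
      (measurable_sgn hB).aestronglyMeasurable (ae_of_all _ fun x => by simp [abs_sgn])
  rw [integral_sub hsi hfi, h2, hBc]
  ring

/-- cell by cell mean preserving `±1` function. -/
lemma exists_sgn_cells (P : Measure X) [IsFiniteMeasure P] (T : X → ℝ) (hT : Measurable T)
    (hT0 : ∀ t, P (T ⁻¹' {t}) = 0) (f : X → ℝ) (hf : Measurable f) (hf1 : ∀ x, |f x| ≤ 1)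
    (ρ : X → ℕ) (hρ : Measurable ρ) :
    ∃ B : Set X, MeasurableSet B ∧ ∀ n, ∫ x in ρ ⁻¹' {n}, (sgn B x - f x) ∂P = 0 := by
  have hm : ∀ n, MeasurableSet (ρ ⁻¹' {n}) := fun n => hρ (measurableSet_singleton n)
  choose B hB hB0 using fun n => exists_sgn_mean P T hT hT0 f hf hf1 (ρ ⁻¹' {n})
  refine ⟨⋃ n, (ρ ⁻¹' {n} ∩ B n), MeasurableSet.iUnion fun n => (hm n).inter (hB n), fun n => ?_⟩
  rw [← hB0 n]
  refine setIntegral_congr_fun (hm n) ?_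
  intro x hx
  have hx' : ρ x = n := hx
  have : (x ∈ ⋃ n, (ρ ⁻¹' {n} ∩ B n)) ↔ x ∈ B n := by
    simp only [mem_iUnion, mem_inter_iff, mem_preimage, mem_singleton_iff]
    constructor
    · rintro ⟨m, hm, hxm⟩
      rw [hx'] at hm; rw [hm]; exact hxm
    · intro h
      exact ⟨n, hx', h⟩
  by_cases h : x ∈ B n
  · simp only [sgn_mem h, sgn_mem (this.2 h)]
  · simp only [sgn_not_mem h, sgn_not_mem (fun h' => h (this.1 h'))]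

end Pool.Agent.MP_be97b2_co
end
end
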